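import Pool.Agent.FCN.CORE

/-!
# Furtwängler's theorem over quadratic fields
-/

open NumberField IsDedekindDomain

namespace Pool.Agent.FCN

open Pool.Agent.FCW Pool.Agent.FCM

/-- integral solutions `x^p + y^p = z^p` -/
def T_FNP : Prop := ∀ (K : Type) [Field K] [NumberField K], Module.finrank ℚ K = 2 →
  ∀ (p : ℕ) [Fact p.Prime], 5 ≤ p → ¬ p ^ 2 ∣ 2 ^ (p - 1) - 1 → ∀ r : ℕ, r.Prime → r ≠ p →
  ¬ p ^ 2 ∣ r ^ (p - 1) - 1 → ∀ X : Fin 3 → 𝓞 K, (∀ i, X i ≠ 0) →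
  X 0 ^ p + X 1 ^ p + X 2 ^ p = 0 →
  (∀ Q : Ideal (𝓞 K), Q.IsPrime → ((r : 𝓞 K) ∈ Q ∨ (p : 𝓞 K) ∈ Q) →
    ∀ i j, i ≠ j → X i ∈ Q → X j ∉ Q) →
  ((r = 2 ∧ ∃ Q : Ideal (𝓞 K), Q.IsPrime ∧ ((r : 𝓞 K) ∈ Q ∨ (p : 𝓞 K) ∈ Q) ∧
      ∃ v, X v ∈ Q) ∨
    ((∀ Q : Ideal (𝓞 K), Q.IsPrime → (r : 𝓞 K) ∈ Q → ∃ v, X v ∈ Q) ∧ (¬ p ∣ r - 1 ∨
      ∀ Q Q' : Ideal (𝓞 K), Q.IsPrime → Q'.IsPrime → (r : 𝓞 K) ∈ Q → (r : 𝓞 K) ∈ Q' →
        ∀ v, X v ∈ Q → X v ∈ Q'))) →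
  (∀ Q : Ideal (𝓞 K), Q.IsPrime → ((r : 𝓞 K) ∈ Q ∨ (p : 𝓞 K) ∈ Q) → ∃ v, X v ∈ Q) ∧
    ∀ v, (∃ Q : Ideal (𝓞 K), Q.IsPrime ∧ (r : 𝓞 K) ∈ Q ∧ X v ∈ Q) ↔
      (∃ Q : Ideal (𝓞 K), Q.IsPrime ∧ (p : 𝓞 K) ∈ Q ∧ X v ∈ Q)

theorem p_FNP (hKEY : T_KEYR) (hTWO : T_TWOR) (hPAD : T_PADG) (hPRM : T_PRMX)
    (hPOW : T_POWX) : T_FNP := by
  intro K _ _ hK p _ h5 hW r hr hrp hWr X hX h0 hcop H
  have hp : p.Prime := Fact.out
  obtain ⟨τ, hτ⟩ := p_CONJ K hK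
  obtain ⟨g, a, b, c, T₁, T₂, T₃, hg, N₁, N₂, N₃⟩ := p_DATA p_NF K τ hτ p hp.one_le (X 0) (X 1)
    (X 2) (hX 0) (hX 1) (hX 2) h0
  have hg0 : g ≠ 0 := hg.ne'
  have psw : ∀ A t B : ℤ, Prim A t B → Prim B t A := fun A t B hP q hq h1 h2 h3 =>
    hP q hq h3 h2 h1
  have sw : ∀ (x y : 𝓞 K) (A t B : ℤ), NF K τ x y g A t B → NF K τ y x g B t A :=
    fun x y A t B h => p_NFI K τ hτ _ _ _ _ _ _ hg0 h.hB (by rw [add_comm]; exact h.hT) h.hA
      (psw _ _ _ h.prim)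
  have hD : Dat τ p X g ![a, b, c] (fun i j => ![![0, T₁, T₂], ![T₁, 0, T₃], ![T₂, T₃, 0]] i j) := by
    refine ⟨?_, hX, hg0, ?_, ?_⟩
    · intro i j k hij hik hjk
      fin_cases i <;> fin_cases j <;> fin_cases k <;>
        first
        | exact absurd rfl hij
        | exact absurd rfl hik
        | exact absurd rfl hjk
        | (simp only [Fin.zero_eta, Fin.mk_one, Fin.reduceFinMk]; linear_combination h0)
    · intro i j hij
      fin_cases i <;> fin_cases j <;>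
        first
        | exact absurd rfl hij
        | exact N₁
        | exact N₂
        | exact N₃
        | exact sw _ _ _ _ _ N₁
        | exact sw _ _ _ _ _ N₂
        | exact sw _ _ _ _ _ N₃
    · intro i j
      fin_cases i <;> fin_cases j <;> rfl
  exact CORE_.main hKEY hTWO hPAD hPRM hPOW hK hτ h5 hW hr hrp hWr hD hcop H

namespace FN_

variable {K : Type} [Field K] [NumberField K]

/-- valuations at a prime at which three integers are pairwise coprime -/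
theorem val_iff (Q : HeightOneSpectrum (𝓞 K)) {X : Fin 3 → 𝓞 K}
    (hc : ∀ i j, i ≠ j → X i ∈ Q.asIdeal → X j ∉ Q.asIdeal) {i j : Fin 3} (hij : i ≠ j) :
    Q.valuation K (X i : K) < Q.valuation K (X j : K) ↔ X i ∈ Q.asIdeal := by
  have hmem : ∀ W : 𝓞 K, Q.valuation K (W : K) < 1 ↔ W ∈ Q.asIdeal :=
    fun W => HeightOneSpectrum.valuation_lt_one_iff_mem Q W
  have hle : ∀ W : 𝓞 K, Q.valuation K (W : K) ≤ 1 := fun W => HeightOneSpectrum.valuation_le_one Q W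
  constructor
  · intro h
    exact (hmem _).mp (h.trans_le (hle _))
  · intro h
    have h1 : Q.valuation K (X j : K) = 1 :=
      (HeightOneSpectrum.valuation_eq_one_iff_notMem Q).mpr (hc i j hij h)
    rw [h1]
    exact (hmem _).mpr h

theorem val_eq_iff (Q : HeightOneSpectrum (𝓞 K)) {X : Fin 3 → 𝓞 K}
    (hc : ∀ i j, i ≠ j → X i ∈ Q.asIdeal → X j ∉ Q.asIdeal) :
    ¬ (Q.valuation K (X 0 : K) = Q.valuation K (X 1 : K) ∧
      Q.valuation K (X 1 : K) = Q.valuation K (X 2 : K)) ↔ ∃ v, X v ∈ Q.asIdeal := by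
  constructor
  · intro h
    by_contra hno
    push Not at hno
    have h1 : ∀ i, Q.valuation K (X i : K) = 1 := fun i =>
      (HeightOneSpectrum.valuation_eq_one_iff_notMem Q).mpr (hno i)
    exact h ⟨by rw [h1, h1], by rw [h1, h1]⟩
  · rintro ⟨v, hv⟩ ⟨h1, h2⟩
    have h3 : ∀ j, Q.valuation K (X j : K) = Q.valuation K (X 0 : K) := by
      intro j
      fin_cases j
      · rfl
      · exact h1.symm
      · exact (h1.trans h2).symm
    obtain ⟨w, hw⟩ := CMP_.other v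
    have h4 := (val_iff Q hc (Ne.symm hw)).mpr hv
    rw [h3 v, h3 w] at h4
    exact lt_irrefl _ h4

end FN_

open FN_ in
/-- Furtwängler's theorem over quadratic fields. -/
theorem final_FN (hFNP : T_FNP) (K : Type) [Field K] [NumberField K]
    (hK : Module.finrank ℚ K = 2) (p : ℕ)
    (hp : p.Prime) (h5 : 5 ≤ p) (hW : ¬ p ^ 2 ∣ 2 ^ (p - 1) - 1) (n : ℕ) (hn : p ∣ n)
    (x y z : K) (hxyz : x * y * z ≠ 0) (h : x ^ n + y ^ n = z ^ n) (r : ℕ) (hr : r.Prime)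
    (hrp : r ≠ p) (hWr : ¬ p ^ 2 ∣ r ^ (p - 1) - 1)
    (H : (r = 2 ∧ ∃ Q : HeightOneSpectrum (𝓞 K), ((2 * p : ℕ) : 𝓞 K) ∈ Q.asIdeal ∧
        ¬ (Q.valuation K x = Q.valuation K y ∧ Q.valuation K y = Q.valuation K z)) ∨
      ((∀ R : HeightOneSpectrum (𝓞 K), (r : 𝓞 K) ∈ R.asIdeal →
          ¬ (R.valuation K x = R.valuation K y ∧ R.valuation K y = R.valuation K z)) ∧
        (¬ p ∣ r - 1 ∨ ∀ R R' : HeightOneSpectrum (𝓞 K), (r : 𝓞 K) ∈ R.asIdeal →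
          (r : 𝓞 K) ∈ R'.asIdeal →
          (R.valuation K x < R.valuation K y → R'.valuation K x < R'.valuation K y) ∧
          (R.valuation K y < R.valuation K z → R'.valuation K y < R'.valuation K z) ∧
          (R.valuation K z < R.valuation K x → R'.valuation K z < R'.valuation K x)))) :
    (∀ Q : HeightOneSpectrum (𝓞 K), ((r * p : ℕ) : 𝓞 K) ∈ Q.asIdeal →
      ¬ (Q.valuation K x = Q.valuation K y ∧ Q.valuation K y = Q.valuation K z)) ∧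
    ((∃ R : HeightOneSpectrum (𝓞 K), (r : 𝓞 K) ∈ R.asIdeal ∧
        R.valuation K x < R.valuation K y) ↔
      ∃ P : HeightOneSpectrum (𝓞 K), (p : 𝓞 K) ∈ P.asIdeal ∧
        P.valuation K x < P.valuation K y) ∧
    ((∃ R : HeightOneSpectrum (𝓞 K), (r : 𝓞 K) ∈ R.asIdeal ∧
        R.valuation K y < R.valuation K z) ↔
      ∃ P : HeightOneSpectrum (𝓞 K), (p : 𝓞 K) ∈ P.asIdeal ∧
        P.valuation K y < P.valuation K z) ∧
    ((∃ R : HeightOneSpectrum (𝓞 K), (r : 𝓞 K) ∈ R.asIdeal ∧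
        R.valuation K z < R.valuation K x) ↔
      ∃ P : HeightOneSpectrum (𝓞 K), (p : 𝓞 K) ∈ P.asIdeal ∧
        P.valuation K z < P.valuation K x) := by
  classical
  have : Fact p.Prime := ⟨hp⟩
  have hp0 : p ≠ 0 := hp.ne_zero
  have hodd : Odd p := hp.odd_of_ne_two (by omega)
  obtain ⟨k, rfl⟩ := hn
  have hk : k ≠ 0 := by
    rintro rfl
    rw [mul_zero, pow_zero, pow_zero, pow_zero] at h
    have h3 : (1 : K) = 0 := by linear_combination h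
    exact one_ne_zero h3
  -- the third variable with the opposite sign, and `k`-th powers
  obtain ⟨V, hV⟩ : ∃ V : Fin 3 → K, V = ![x ^ k, y ^ k, -(z ^ k)] := ⟨_, rfl⟩
  have hV0 : V 0 = x ^ k := by rw [hV]; rfl
  have hV1 : V 1 = y ^ k := by rw [hV]; rfl
  have hV2 : V 2 = -(z ^ k) := by rw [hV]; rfl
  have hz : z ≠ 0 := right_ne_zero_of_mul hxyz
  have hxy : x * y ≠ 0 := left_ne_zero_of_mul hxyz
  have hx : x ≠ 0 := left_ne_zero_of_mul hxy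
  have hy : y ≠ 0 := right_ne_zero_of_mul hxy
  have hVne : ∀ i, V i ≠ 0 := by
    intro i
    fin_cases i
    · change V 0 ≠ 0
      rw [hV0]; exact pow_ne_zero k hx
    · change V 1 ≠ 0
      rw [hV1]; exact pow_ne_zero k hy
    · change V 2 ≠ 0
      rw [hV2]; exact neg_ne_zero.mpr (pow_ne_zero k hz)
  have hVs : V 0 ^ p + V 1 ^ p + V 2 ^ p = 0 := by
    rw [hV0, hV1, hV2, hodd.neg_pow, ← pow_mul, ← pow_mul, ← pow_mul, mul_comm k p, h]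
    ring
  -- integral representatives
  obtain ⟨b, hb⟩ := IsLocalization.exist_integer_multiples_of_finset
    (nonZeroDivisors (𝓞 K)) ({V 0, V 1, V 2} : Finset K)
  have hb0 : (b : 𝓞 K) ≠ 0 := nonZeroDivisors.ne_zero b.2
  have hbi : ∀ i, ∃ W : 𝓞 K, algebraMap (𝓞 K) K W = algebraMap (𝓞 K) K b * V i := by
    intro i
    obtain ⟨W, hW⟩ := hb (V i) (by fin_cases i <;> simp)
    rw [Algebra.smul_def] at hW
    exact ⟨W, hW⟩
  choose W hWi using hbi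
  have hbK : algebraMap (𝓞 K) K b ≠ 0 := by
    rw [Ne, FaithfulSMul.algebraMap_eq_zero_iff]
    exact hb0
  have hW0 : ∀ i, W i ≠ 0 := by
    intro i h0
    have := hWi i
    rw [h0, map_zero] at this
    exact mul_ne_zero hbK (hVne i) this.symm
  have hWs : W 0 ^ p + W 1 ^ p + W 2 ^ p = 0 := by
    apply FaithfulSMul.algebraMap_injective (𝓞 K) K
    rw [map_add, map_add, map_pow, map_pow, map_pow, hWi, hWi, hWi, mul_pow, mul_pow, mul_pow,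
      ← mul_add, ← mul_add, hVs, mul_zero, map_zero]
  have hrO : (r : 𝓞 K) ≠ 0 := by exact_mod_cast hr.ne_zero
  have hpO : (p : 𝓞 K) ≠ 0 := by exact_mod_cast hp.ne_zero
  have hq0 : (r : 𝓞 K) * (p : 𝓞 K) ≠ 0 := mul_ne_zero hrO hpO
  have hqu : ¬ IsUnit ((r : 𝓞 K) * (p : 𝓞 K)) := by
    intro hu
    have hu' := isUnit_of_mul_isUnit_left hu
    have h1 : IsUnit (Algebra.norm ℤ ((r : ℕ) : 𝓞 K)) := hu'.map (Algebra.norm ℤ)
    have h2 : ((r : ℕ) : 𝓞 K) = algebraMap ℤ (𝓞 K) (r : ℤ) := by simp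
    rw [h2, Algebra.norm_algebraMap, RingOfIntegers.rank, hK] at h1
    have h3 : IsUnit (r : ℤ) := (isUnit_pow_iff two_ne_zero).mp h1
    rw [Int.isUnit_iff] at h3
    have := hr.two_le
    omega
  obtain ⟨δ, c, hδ, hall, hcQ, hcop⟩ := EPK_.scale hq0 hqu (y := W 1) (hW0 0)
  have hin : ∀ i, W i ∈ Ideal.span {W 0, W 1} := by
    intro i
    fin_cases i
    · exact Ideal.subset_span (by simp)
    · exact Ideal.subset_span (by simp)
    · apply EPK_.mem_of_pow hp0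
      have h1 : W 2 ^ p = -(W 0 ^ p + W 1 ^ p) := by linear_combination hWs
      change W 2 ^ p ∈ _
      rw [h1]
      exact neg_mem (Ideal.add_mem _ (Ideal.pow_mem_pow (Ideal.subset_span (by simp)) _)
        (Ideal.pow_mem_pow (Ideal.subset_span (by simp)) _))
  have hXex : ∀ i, ∃ X' : 𝓞 K, c * W i = δ * X' := fun i => hall (W i) (hin i)
  choose X hXi using hXex
  obtain ⟨Q₀, hQ₀, hqQ₀⟩ := exists_max_ideal_of_mem_nonunits hqu
  have hc0 : c ≠ 0 := fun h1 => hcQ Q₀ hQ₀.isPrime hqQ₀ (by rw [h1]; exact Ideal.zero_mem _)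
  have hXne : ∀ i, X i ≠ 0 := by
    intro i h0
    have h1 := hXi i
    rw [h0, mul_zero] at h1
    exact mul_ne_zero hc0 (hW0 i) h1
  have hXs : X 0 ^ p + X 1 ^ p + X 2 ^ p = 0 := by
    apply mul_left_cancel₀ (pow_ne_zero p hδ)
    rw [mul_add, mul_add, ← mul_pow, ← mul_pow, ← mul_pow, ← hXi, ← hXi, ← hXi, mul_pow, mul_pow,
      mul_pow, ← mul_add, ← mul_add, hWs, mul_zero, mul_zero]
  have hcop01 := hcop (X 0) (X 1) (hXi 0) (hXi 1)
  have hcopr : ∀ Q : Ideal (𝓞 K), Q.IsPrime → ((r : 𝓞 K) ∈ Q ∨ (p : 𝓞 K) ∈ Q) →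
      ∀ i j, i ≠ j → X i ∈ Q → X j ∉ Q := by
    intro Q hQ hrpQ i j hij hi hj
    have hq : (r : 𝓞 K) * (p : 𝓞 K) ∈ Q := by
      rcases hrpQ with h1 | h1
      · exact Q.mul_mem_right _ h1
      · exact Q.mul_mem_left _ h1
    have h01 := hcop01 Q hQ hq
    have hsum : ∀ a b c : 𝓞 K, a ^ p + b ^ p + c ^ p = 0 → a ∈ Q → b ∈ Q → c ∈ Q := by
      intro a b c h1 ha hb
      apply hQ.mem_of_pow_mem p
      have h2 : c ^ p = -(a ^ p + b ^ p) := by linear_combination h1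
      rw [h2]
      exact Q.neg_mem (Q.add_mem (Q.pow_mem_of_mem ha p hp.pos) (Q.pow_mem_of_mem hb p hp.pos))
    have h12 : X 1 ∈ Q → X 2 ∈ Q → False := by
      intro h1 h2
      exact h01 (hsum (X 1) (X 2) (X 0) (by linear_combination hXs) h1 h2) h1
    have h02 : X 0 ∈ Q → X 2 ∈ Q → False := by
      intro h1 h2
      exact h01 h1 (hsum (X 0) (X 2) (X 1) (by linear_combination hXs) h1 h2)
    fin_cases i <;> fin_cases j <;>
      first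
      | exact absurd rfl hij
      | exact h01 hi hj
      | exact h01 hj hi
      | exact h12 hi hj
      | exact h12 hj hi
      | exact h02 hi hj
      | exact h02 hj hi
  -- the scaling factor
  have hδK : algebraMap (𝓞 K) K δ ≠ 0 := by
    rw [Ne, FaithfulSMul.algebraMap_eq_zero_iff]
    exact hδ
  have hcK : algebraMap (𝓞 K) K c ≠ 0 := by
    rw [Ne, FaithfulSMul.algebraMap_eq_zero_iff]
    exact hc0
  obtain ⟨l, hl⟩ : ∃ l : K, l = algebraMap (𝓞 K) K c * algebraMap (𝓞 K) K b /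
    algebraMap (𝓞 K) K δ := ⟨_, rfl⟩
  have hl0 : l ≠ 0 := by
    rw [hl]
    exact div_ne_zero (mul_ne_zero hcK hbK) hδK
  have tr : ∀ i, (X i : K) = l * V i := by
    intro i
    have h3 : algebraMap (𝓞 K) K c * algebraMap (𝓞 K) K (W i) =
        algebraMap (𝓞 K) K δ * algebraMap (𝓞 K) K (X i) := by
      rw [← map_mul, ← map_mul, hXi]
    rw [hWi] at h3
    rw [hl]
    change algebraMap (𝓞 K) K (X i) = _
    field_simp
    linear_combination -h3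
  -- valuations
  have vlt : ∀ (Q : HeightOneSpectrum (𝓞 K)) (i j : Fin 3),
      (Q.valuation K (X i : K) < Q.valuation K (X j : K)) ↔
        (Q.valuation K (V i) < Q.valuation K (V j)) := by
    intro Q i j
    have v0 : Q.valuation K l ≠ 0 := by rwa [Valuation.ne_zero_iff]
    rw [tr, tr, map_mul, map_mul]
    exact mul_lt_mul_iff_of_pos_left (zero_lt_iff.mpr v0)
  have veq : ∀ (Q : HeightOneSpectrum (𝓞 K)) (i j : Fin 3),
      (Q.valuation K (X i : K) = Q.valuation K (X j : K)) ↔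
        (Q.valuation K (V i) = Q.valuation K (V j)) := by
    intro Q i j
    have v0 : Q.valuation K l ≠ 0 := by rwa [Valuation.ne_zero_iff]
    rw [tr, tr, map_mul, map_mul]
    exact ⟨fun h => mul_left_cancel₀ v0 h, fun h => by rw [h]⟩
  have w0 : ∀ Q : HeightOneSpectrum (𝓞 K), Q.valuation K (V 0) = Q.valuation K x ^ k := by
    intro Q; rw [hV0, map_pow]
  have w1 : ∀ Q : HeightOneSpectrum (𝓞 K), Q.valuation K (V 1) = Q.valuation K y ^ k := by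
    intro Q; rw [hV1, map_pow]
  have w2 : ∀ Q : HeightOneSpectrum (𝓞 K), Q.valuation K (V 2) = Q.valuation K z ^ k := by
    intro Q; rw [hV2, Valuation.map_neg, map_pow]
  have hcQ' : ∀ Q : HeightOneSpectrum (𝓞 K), ((r : 𝓞 K) ∈ Q.asIdeal ∨ (p : 𝓞 K) ∈ Q.asIdeal) →
      ∀ i j, i ≠ j → X i ∈ Q.asIdeal → X j ∉ Q.asIdeal := fun Q hQ => hcopr Q.asIdeal Q.isPrime hQ
  have i01 : ∀ Q : HeightOneSpectrum (𝓞 K), ((r : 𝓞 K) ∈ Q.asIdeal ∨ (p : 𝓞 K) ∈ Q.asIdeal) →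
      ((Q.valuation K x < Q.valuation K y) ↔ X 0 ∈ Q.asIdeal) := by
    intro Q hQ
    rw [← val_iff Q (hcQ' Q hQ) (i := 0) (j := 1) (by decide), vlt, w0, w1]
    exact (pow_lt_pow_iff_left₀ zero_le zero_le hk).symm
  have i12 : ∀ Q : HeightOneSpectrum (𝓞 K), ((r : 𝓞 K) ∈ Q.asIdeal ∨ (p : 𝓞 K) ∈ Q.asIdeal) →
      ((Q.valuation K y < Q.valuation K z) ↔ X 1 ∈ Q.asIdeal) := by
    intro Q hQ
    rw [← val_iff Q (hcQ' Q hQ) (i := 1) (j := 2) (by decide), vlt, w1, w2]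
    exact (pow_lt_pow_iff_left₀ zero_le zero_le hk).symm
  have i20 : ∀ Q : HeightOneSpectrum (𝓞 K), ((r : 𝓞 K) ∈ Q.asIdeal ∨ (p : 𝓞 K) ∈ Q.asIdeal) →
      ((Q.valuation K z < Q.valuation K x) ↔ X 2 ∈ Q.asIdeal) := by
    intro Q hQ
    rw [← val_iff Q (hcQ' Q hQ) (i := 2) (j := 0) (by decide), vlt, w2, w0]
    exact (pow_lt_pow_iff_left₀ zero_le zero_le hk).symm
  have iall : ∀ Q : HeightOneSpectrum (𝓞 K), ((r : 𝓞 K) ∈ Q.asIdeal ∨ (p : 𝓞 K) ∈ Q.asIdeal) →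
      (¬ (Q.valuation K x = Q.valuation K y ∧ Q.valuation K y = Q.valuation K z) ↔
        ∃ v, X v ∈ Q.asIdeal) := by
    intro Q hQ
    rw [← val_eq_iff Q (hcQ' Q hQ), veq, veq, w0, w1, w2, pow_left_inj₀ zero_le zero_le hk,
      pow_left_inj₀ zero_le zero_le hk]
  -- primes and the height one spectrum
  have toH : ∀ Q : Ideal (𝓞 K), Q.IsPrime → ((r : 𝓞 K) ∈ Q ∨ (p : 𝓞 K) ∈ Q) →
      ∃ Q' : HeightOneSpectrum (𝓞 K), Q'.asIdeal = Q := by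
    intro Q hQ h1
    refine ⟨⟨Q, hQ, ?_⟩, rfl⟩
    rintro rfl
    rcases h1 with h1 | h1
    · exact hrO h1
    · exact hpO h1
  have H' := hFNP K hK p h5 hW r hr hrp hWr X hXne hXs hcopr (by
    rcases H with ⟨h2, Q, hQ, hQ'⟩ | ⟨h1, h2⟩
    · left
      have h3 : (r : 𝓞 K) ∈ Q.asIdeal ∨ (p : 𝓞 K) ∈ Q.asIdeal := by
        apply Q.isPrime.mem_or_mem
        have h4 : ((2 * p : ℕ) : 𝓞 K) = (r : 𝓞 K) * (p : 𝓞 K) := by rw [h2]; push_cast; ring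
        rwa [← h4]
      exact ⟨h2, Q.asIdeal, Q.isPrime, h3, (iall Q h3).mp hQ'⟩
    · right
      refine ⟨fun Q hQ hrQ => ?_, ?_⟩
      · obtain ⟨Q', rfl⟩ := toH Q hQ (Or.inl hrQ)
        exact (iall Q' (Or.inl hrQ)).mp (h1 Q' hrQ)
      · rcases h2 with h2 | h2
        · exact Or.inl h2
        · right
          intro Q Q' hQ hQ' hrQ hrQ' v hv
          obtain ⟨R, rfl⟩ := toH Q hQ (Or.inl hrQ)
          obtain ⟨R', rfl⟩ := toH Q' hQ' (Or.inl hrQ')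
          obtain ⟨e1, e2, e3⟩ := h2 R R' hrQ hrQ'
          rw [i01 R (Or.inl hrQ), i01 R' (Or.inl hrQ')] at e1
          rw [i12 R (Or.inl hrQ), i12 R' (Or.inl hrQ')] at e2
          rw [i20 R (Or.inl hrQ), i20 R' (Or.inl hrQ')] at e3
          fin_cases v
          · exact e1 hv
          · exact e2 hv
          · exact e3 hv)
  obtain ⟨H1, H2⟩ := H'
  have fin : ∀ (v : Fin 3) (f : HeightOneSpectrum (𝓞 K) → Prop),
      (∀ Q : HeightOneSpectrum (𝓞 K), ((r : 𝓞 K) ∈ Q.asIdeal ∨ (p : 𝓞 K) ∈ Q.asIdeal) →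
        (f Q ↔ X v ∈ Q.asIdeal)) →
      ((∃ R : HeightOneSpectrum (𝓞 K), (r : 𝓞 K) ∈ R.asIdeal ∧ f R) ↔
        ∃ P : HeightOneSpectrum (𝓞 K), (p : 𝓞 K) ∈ P.asIdeal ∧ f P) := by
    intro v f hf
    constructor
    · rintro ⟨R, hR, hfR⟩
      obtain ⟨P, hP, hpP, hv⟩ := (H2 v).mp ⟨R.asIdeal, R.isPrime, hR, (hf R (Or.inl hR)).mp hfR⟩
      obtain ⟨P', rfl⟩ := toH P hP (Or.inr hpP)
      exact ⟨P', hpP, (hf P' (Or.inr hpP)).mpr hv⟩
    · rintro ⟨P, hP, hfP⟩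
      obtain ⟨R, hR, hrR, hv⟩ := (H2 v).mpr ⟨P.asIdeal, P.isPrime, hP, (hf P (Or.inr hP)).mp hfP⟩
      obtain ⟨R', rfl⟩ := toH R hR (Or.inl hrR)
      exact ⟨R', hrR, (hf R' (Or.inl hrR)).mpr hv⟩
  refine ⟨fun Q hQ => ?_, fin 0 _ i01, fin 1 _ i12, fin 2 _ i20⟩
  have h3 : (r : 𝓞 K) ∈ Q.asIdeal ∨ (p : 𝓞 K) ∈ Q.asIdeal := by
    apply Q.isPrime.mem_or_mem
    have h4 : ((r * p : ℕ) : 𝓞 K) = (r : 𝓞 K) * (p : 𝓞 K) := by push_cast; ring
    rwa [← h4]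
  exact (iall Q h3).mpr (H1 Q.asIdeal Q.isPrime h3)

end Pool.Agent.FCN
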