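import Pool.Agent.FCN.Targets
import Pool.Agent.FCW.PAD

/-!
# Comparison of the key equation modulo `(ζ - 1)²` for general elements (job FCN-PADG)
-/

open NumberField

namespace Pool.Agent.FCN

open Pool.Agent.FCW Pool.Agent.FCW.PAD_

namespace PADG_

variable {p : ℕ} [Fact p.Prime]

/-- The image of a conjugate of `β`, if `β` is `N + C (ζ - 1)` modulo `(ζ - 1)²`. -/
theorem mk_hom (c : ZMod p →+* Q p) (hc : ∀ n : ℤ, c (n : ZMod p) = (n : Q p)) {β : Oc p}
    {N C : ℤ} (h : (zt p - 1) ^ 2 ∣ β - ((N : Oc p) + C * (zt p - 1))) (F : Oc p →+* Oc p)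
    (a : ZMod p) (hF : F (zt p) = zv p a) :
    mk p (F β) = c (N : ZMod p) + c ((C : ZMod p) * a) * t p := by
  obtain ⟨δ, hδ⟩ := h
  have h1 : β = (N : Oc p) + C * (zt p - 1) + (zt p - 1) ^ 2 * δ := by
    linear_combination hδ
  have h2 : mk p (zv p a - 1) = c a * t p := by
    rw [map_sub, mk_zv (c := c), map_one]
    ring
  have h3 : mk p (F β) = (N : Q p) + (C : Q p) * mk p (zv p a - 1) +
      mk p (zv p a - 1) ^ 2 * mk p (F δ) := by
    rw [h1]
    simp only [map_add, map_mul, map_sub, map_pow, map_one, map_intCast, hF]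
  rw [h3, h2, map_mul, hc, hc]
  linear_combination (c a ^ 2 * mk p (F δ)) * tt p

theorem mk_st' (c : ZMod p →+* Q p) (hc : ∀ n : ℤ, c (n : ZMod p) = (n : Q p)) {β : Oc p}
    {N C : ℤ} (h : (zt p - 1) ^ 2 ∣ β - ((N : Oc p) + C * (zt p - 1)))
    (hN : (N : ZMod p) ≠ 0) :
    mk p (st p β) = c ((N : ZMod p) ^ (half p).card) *
      (1 + c ((C : ZMod p) * (N : ZMod p)⁻¹ * Hs p) * t p) ∧
    mk p (cc p (st p β)) = c ((N : ZMod p) ^ (half p).card) *
      (1 + c (-(C : ZMod p) * (N : ZMod p)⁻¹ * Hs p) * t p) := by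
  constructor
  · unfold st Hs
    rw [← prod_t c _ _ hN, map_prod]
    refine Finset.prod_congr rfl fun u _ => ?_
    exact mk_hom c hc h (sg p u⁻¹ : Oc p →+* Oc p) _ (sg_zt p u⁻¹)
  · unfold st Hs
    rw [← prod_t c _ _ hN, map_prod, map_prod]
    refine Finset.prod_congr rfl fun u _ => ?_
    have h1 := mk_hom c hc h ((cc p : Oc p →+* Oc p).comp (sg p u⁻¹ : Oc p →+* Oc p))
      (-((u⁻¹ : (ZMod p)ˣ) : ZMod p)) (by
        change cc p (sg p u⁻¹ (zt p)) = _
        rw [sg_zt, cc_zv])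
    have h2 : mk p (cc p (sg p u⁻¹ β)) = c (N : ZMod p) +
        c ((C : ZMod p) * -((u⁻¹ : (ZMod p)ˣ) : ZMod p)) * t p := h1
    rw [h2]
    congr 3
    ring

end PADG_

open PADG_ in
theorem p_PADG : T_PADG := by
  intro p _ hp β N C hN hβ γ n i e ⟨hn, hγ, he, hkey⟩
  have hp3 : 3 ≤ p := by omega
  obtain ⟨c, hc⟩ := exists_c p hp3
  have hN' : ((N : ℤ) : ZMod p) ≠ 0 := fun h =>
    hN ((ZMod.intCast_zmod_eq_zero_iff_dvd _ p).1 h)
  obtain ⟨h1, h2⟩ := mk_st' c hc hβ hN'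
  obtain ⟨a, b, h3, h4⟩ := repr c hc γ
  have h5 : mk p (γ ^ p) = c a := by
    rw [map_pow, h3, pow_p hp3]
  have h6 : mk p (cc p γ ^ p) = c a := by
    rw [map_pow, h4, sub_eq_add_neg, ← neg_mul, pow_p hp3]
  have ha : a ≠ 0 := by
    intro h0
    have h7 := congrArg (mk p) hγ
    rw [map_mul, h3, h4, map_natCast, h0, map_zero] at h7
    have h8 : c ((n : ℤ) : ZMod p) + c 0 * t p = 0 := by
      rw [hc, map_zero, zero_mul, add_zero, Int.cast_natCast, ← h7]
      linear_combination (-(c b) * c b) * tt p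
    have h9 := (inj hc h8).1
    rw [Int.cast_natCast, ZMod.natCast_eq_zero_iff] at h9
    have h10 : p ∣ 1 := by
      have h11 : Nat.Coprime p n := (Nat.Coprime.coprime_mul_left_right hn).symm
      have := Nat.dvd_gcd (dvd_refl p) h9
      rwa [h11] at this
    exact (Fact.out : p.Prime).one_lt.ne' (Nat.dvd_one.1 h10)
  set M := ((N : ℤ) : ZMod p) with hMdef
  set D := ((C : ℤ) : ZMod p) with hDdef
  set k := (half p).card
  have hkey2 := congrArg (mk p) hkey
  rw [map_mul, map_mul, map_mul, map_mul, h1, h2, h5, h6, mk_zt_pow, map_intCast] at hkey2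
  have u1 : c (M ^ k) * c (M ^ k)⁻¹ = 1 := by
    rw [← map_mul, mul_inv_cancel₀ (pow_ne_zero _ hN'), map_one]
  have u2 : c a * c a⁻¹ = 1 := by rw [← map_mul, mul_inv_cancel₀ ha, map_one]
  set S := D * M⁻¹ * Hs p with hS
  have hS' : -D * M⁻¹ * Hs p = -S := by rw [hS]; ring
  rw [hS', map_neg] at hkey2
  have h7 : 1 + c S * t p = (e : Q p) * (1 + (i : Q p) * t p) * (1 - c S * t p) := by
    have h8 : (c (M ^ k) * c (M ^ k)⁻¹) * (c a * c a⁻¹) * (1 + c S * t p) =
        (c (M ^ k) * c (M ^ k)⁻¹) * (c a * c a⁻¹) *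
          ((e : Q p) * (1 + (i : Q p) * t p) * (1 - c S * t p)) := by
      linear_combination (c (M ^ k)⁻¹ * c a⁻¹) * hkey2
    rwa [u1, u2, one_mul, one_mul, one_mul] at h8
  have hi : c ((i : ℕ) : ZMod p) = (i : Q p) := map_natCast c i
  have c2 : c 2 = 2 := map_ofNat c 2
  rcases he with he | he
  · rw [he, Int.cast_one, one_mul] at h7
    have h8 : c 0 + c (2 * S - (i : ZMod p)) * t p = 0 := by
      rw [map_zero, map_sub, map_mul, hi, c2]
      linear_combination h7 - (i : Q p) * c S * tt p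
    have h9 := (inj hc h8).2
    have h10 : (i : ZMod p) = 2 * S := (sub_eq_zero.1 h9).symm
    rw [h10, hS]
    field_simp
  · exfalso
    rw [he, Int.cast_neg, Int.cast_one] at h7
    have h8 : c 2 + c (i : ZMod p) * t p = 0 := by
      rw [hi, c2]
      linear_combination h7 + (i : Q p) * c S * tt p
    have h9 := (inj hc h8).1
    have h10 : ((2 : ℕ) : ZMod p) = 0 := by exact_mod_cast h9
    rw [ZMod.natCast_eq_zero_iff] at h10
    have := Nat.le_of_dvd (by norm_num) h10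
    omega

end Pool.Agent.FCN
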