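import Pool.Agent.FCN.Targets
import Pool.Agent.FCW.POW
import Pool.Agent.FCW.EIA

/-!
# `A + T ζ + B ζ²` divided by `1 - ζ` generates the `p`-th power of an ideal
-/

open NumberField Polynomial

namespace Pool.Agent.FCN

open Pool.Agent.FCW

namespace POWX_

section Dedekind

variable {R : Type*} [CommRing R] [IsDedekindDomain R]

open Classical in
/-- the part of `J` away from `p` -/
noncomputable def V (p : ℕ) (J : Ideal R) : Ideal R :=
  ((UniqueFactorizationMonoid.normalizedFactors J).filter (fun Q => (p : R) ∉ Q)).prod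

theorem V_mul (p : ℕ) {J J' : Ideal R} (h : J ≠ 0) (h' : J' ≠ 0) :
    V p (J * J') = V p J * V p J' := by
  classical
  unfold V
  rw [UniqueFactorizationMonoid.normalizedFactors_mul h h', Multiset.filter_add,
    Multiset.prod_add]

theorem V_one (p : ℕ) : V p (1 : Ideal R) = 1 := by
  classical
  unfold V
  rw [UniqueFactorizationMonoid.normalizedFactors_one, Multiset.filter_zero,
    Multiset.prod_zero]

theorem V_pow (p : ℕ) {J : Ideal R} (h : J ≠ 0) (n : ℕ) : V p (J ^ n) = V p J ^ n := by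
  induction n with
  | zero => rw [pow_zero, pow_zero, V_one]
  | succ n ih => rw [pow_succ, pow_succ, V_mul p (pow_ne_zero n h) h, ih]

theorem V_prod (p : ℕ) {ι : Type*} (s : Finset ι) (J : ι → Ideal R) (h : ∀ i ∈ s, J i ≠ 0) :
    V p (∏ i ∈ s, J i) = ∏ i ∈ s, V p (J i) := by
  classical
  induction s using Finset.induction_on with
  | empty => rw [Finset.prod_empty, Finset.prod_empty, V_one]
  | insert i s hi ih =>
    have h1 : ∀ j ∈ s, J j ≠ 0 := fun j hj => h j (Finset.mem_insert_of_mem hj)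
    rw [Finset.prod_insert hi, Finset.prod_insert hi,
      V_mul p (h i (Finset.mem_insert_self i s)) (Finset.prod_ne_zero_iff.2 h1), ih h1]

theorem V_le (p : ℕ) {J : Ideal R} (h : J ≠ 0) : J ≤ V p J := by
  classical
  have h1 : V p J ∣ J := by
    unfold V
    conv_rhs => rw [← Ideal.prod_normalizedFactors_eq_self h]
    exact Multiset.prod_dvd_prod_of_le (Multiset.filter_le _ _)
  exact Ideal.le_of_dvd h1

theorem V_mem (p : ℕ) {J P : Ideal R} (h : J ≠ 0) (hP : P.IsPrime) (hle : V p J ≤ P) :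
    (p : R) ∉ P ∧ J ≤ P := by
  classical
  refine ⟨?_, (V_le p h).trans hle⟩
  unfold V at hle
  obtain ⟨Q, hQ, hQP⟩ := hP.multiset_prod_le.1 hle
  rw [Multiset.mem_filter] at hQ
  have hQ1 := UniqueFactorizationMonoid.prime_of_normalized_factor Q hQ.1
  have hQ2 : Q.IsMaximal := (Ideal.isPrime_of_prime hQ1).isMaximal hQ1.ne_zero
  have h2 : Q = P := hQ2.eq_of_le hP.ne_top hQP
  rw [← h2]
  exact hQ.2

theorem V_self (p : ℕ) {J : Ideal R} (h : J ≠ 0)
    (hJ : ∀ Q : Ideal R, Q.IsPrime → J ≤ Q → (p : R) ∉ Q) : V p J = J := by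
  classical
  unfold V
  have h1 : ∀ Q ∈ UniqueFactorizationMonoid.normalizedFactors J, (p : R) ∉ Q := by
    intro Q hQ
    refine hJ Q (Ideal.isPrime_of_prime
      (UniqueFactorizationMonoid.prime_of_normalized_factor Q hQ)) ?_
    exact Ideal.le_of_dvd (UniqueFactorizationMonoid.dvd_of_mem_normalizedFactors hQ)
  rw [Multiset.filter_eq_self.2 h1, Ideal.prod_normalizedFactors_eq_self h]

theorem V_eq_one (p : ℕ) {J : Ideal R}
    (hJ : ∀ Q : Ideal R, Q.IsPrime → J ≤ Q → (p : R) ∈ Q) : V p J = 1 := by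
  classical
  unfold V
  have h1 : ∀ Q ∈ UniqueFactorizationMonoid.normalizedFactors J, ¬ ((p : R) ∉ Q) := by
    intro Q hQ
    rw [not_not]
    refine hJ Q (Ideal.isPrime_of_prime
      (UniqueFactorizationMonoid.prime_of_normalized_factor Q hQ)) ?_
    exact Ideal.le_of_dvd (UniqueFactorizationMonoid.dvd_of_mem_normalizedFactors hQ)
  rw [Multiset.filter_eq_nil.2 h1, Multiset.prod_zero]

theorem cyc_ideal {p : ℕ} (hp : p.Prime) (hodd : Odd p) {ζ : R} (hζ : IsPrimitiveRoot ζ p)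
    (x y z : R) (hI : Ideal.span {x, y} ≠ ⊥) (h : x ^ p + y ^ p + z ^ p = 0) (hz : z ≠ 0) :
    ∃ J a : Ideal R, Ideal.span {x + ζ * y} = Ideal.span {x, y} * J ∧ J ≠ 0 ∧
      V p J = a ^ p := by
  classical
  set I : Ideal R := Ideal.span {x, y} with hIdef
  have hx : x ∈ I := Ideal.subset_span (by simp)
  have hy : y ∈ I := Ideal.subset_span (by simp)
  have hI0 : I ≠ 0 := hI
  have hdvd : ∀ η : R, ∃ J : Ideal R, Ideal.span {x + η * y} = I * J := fun η =>
    Ideal.dvd_span_singleton.mpr (I.add_mem hx (I.mul_mem_left _ hy))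
  choose J hJ using hdvd
  have hprod := hζ.pow_add_pow_eq_prod_add_mul (x := x) (y := y) hodd
  have hzp : Ideal.span {z} ^ p = I ^ p * ∏ η ∈ nthRootsFinset p (1 : R), J η := by
    have h1 : z ^ p = -∏ η ∈ nthRootsFinset p (1 : R), (x + η * y) := by
      rw [← hprod]
      linear_combination h
    rw [Ideal.span_singleton_pow, h1, Ideal.span_singleton_neg, ← Ideal.prod_span_singleton,
      Finset.prod_congr rfl (fun η _ => hJ η), Finset.prod_mul_distrib, Finset.prod_const,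
      hζ.card_nthRootsFinset]
  obtain ⟨Z, hZ⟩ : I ∣ Ideal.span {z} :=
    (UniqueFactorizationMonoid.pow_dvd_pow_iff_dvd hp.ne_zero).1 ⟨_, hzp⟩
  have hZ0 : Z ≠ 0 := by
    rintro rfl
    rw [mul_zero, Ideal.zero_eq_bot, Ideal.span_singleton_eq_bot] at hZ
    exact hz hZ
  have hJZ : ∏ η ∈ nthRootsFinset p (1 : R), J η = Z ^ p := by
    rw [hZ, mul_pow] at hzp
    exact (mul_left_cancel₀ (pow_ne_zero p hI0) hzp).symm
  have hJ0 : ∀ η ∈ nthRootsFinset p (1 : R), J η ≠ 0 := by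
    apply Finset.prod_ne_zero_iff.1
    rw [hJZ]
    exact pow_ne_zero p hZ0
  have hcop : ∀ η ∈ nthRootsFinset p (1 : R), ∀ η' ∈ nthRootsFinset p (1 : R), η ≠ η' →
      IsCoprime (V p (J η)) (V p (J η')) := by
    intro η hη η' hη' hne
    have hn := hJ0 η hη
    have hn' := hJ0 η' hη'
    rw [Polynomial.mem_nthRootsFinset hp.pos] at hη hη'
    rw [Ideal.isCoprime_iff_sup_eq]
    by_contra hcon
    obtain ⟨P, hPmax, hP⟩ := Ideal.exists_le_maximal _ hcon
    obtain ⟨hPp, hP1⟩ := V_mem p hn hPmax.isPrime (le_sup_left.trans hP)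
    obtain ⟨_, hP2⟩ := V_mem p hn' hPmax.isPrime (le_sup_right.trans hP)
    have h1 : x + η * y ∈ P * I := by
      have h2 : Ideal.span {x + η * y} ≤ P * I := by
        rw [hJ η, mul_comm]
        exact Ideal.mul_mono_left hP1
      exact h2 (Ideal.mem_span_singleton_self _)
    have h1' : x + η' * y ∈ P * I := by
      have h2 : Ideal.span {x + η' * y} ≤ P * I := by
        rw [hJ η', mul_comm]
        exact Ideal.mul_mono_left hP2
      exact h2 (Ideal.mem_span_singleton_self _)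
    have h3 : Ideal.span {η - η'} * I ≤ P * I := by
      rw [Ideal.span_singleton_mul_le_iff]
      intro w hw
      obtain ⟨a, b, rfl⟩ := Ideal.mem_span_pair.1 hw
      have h4 : (η - η') * (a * x + b * y) =
          (b - a * η') * (x + η * y) + (a * η - b) * (x + η' * y) := by ring
      rw [h4]
      exact (P * I).add_mem ((P * I).mul_mem_left _ h1) ((P * I).mul_mem_left _ h1')
    have h5 : P ∣ Ideal.span {η - η'} := by
      rw [← Ideal.dvd_iff_le] at h3
      exact (mul_dvd_mul_iff_right hI0).1 h3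
    have h6 : η - η' ∈ P := Ideal.dvd_span_singleton.1 h5
    exact hPp (FCW.POW_.mem_of_root hp P hη hη' hne h6)
  have hVZ : ∏ η ∈ nthRootsFinset p (1 : R), V p (J η) = V p Z ^ p := by
    rw [← V_prod p _ _ hJ0, hJZ, V_pow p hZ0]
  have hmem := hζ.mem_nthRootsFinset hp.pos
  obtain ⟨a, ha⟩ := Finset.exists_eq_pow_of_mul_eq_pow_of_coprime hcop hVZ ζ hmem
  exact ⟨J ζ, a, hJ ζ, hJ0 ζ hmem, ha⟩

end Dedekind

section Root

theorem root_one (K : Type) [Field K] [NumberField K] (hK : Module.finrank ℚ K = 2) (p : ℕ)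
    (hp : p.Prime) (hp5 : 5 ≤ p) (w : K) (hw : w ^ p = 1) : w = 1 := by
  by_contra hne
  haveI : Fact p.Prime := ⟨hp⟩
  have h1 : orderOf w = p := orderOf_eq_prime hw hne
  have h2 : IsPrimitiveRoot w p := by
    have := IsPrimitiveRoot.orderOf w
    rwa [h1] at this
  have h3 := h2.totient_le_degree_minpoly
  rw [Nat.totient_prime hp] at h3
  have h4 : IsIntegral ℤ w := h2.isIntegral hp.pos
  have h5 := minpoly.isIntegrallyClosed_eq_field_fractions' ℚ h4
  have h6 : (minpoly ℚ w).natDegree = (minpoly ℤ w).natDegree := by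
    rw [h5]
    exact Polynomial.natDegree_map_eq_of_injective (algebraMap ℤ ℚ).injective_int _
  have h7 := minpoly.natDegree_le (A := ℚ) w
  rw [hK, h6] at h7
  omega

end Root

section Local

variable (p : ℕ) [Fact p.Prime]

open FCW.EIA_ in
theorem p_dvd_pow : (p : Oc p) ∣ (1 - zt p) ^ p := by
  have h1 : fr p (1 - zt p) = 0 := by
    rw [map_sub, map_one, fr_apply, ← map_pow, zt_pow, map_one, sub_self]
  rw [fr_apply, ← map_pow, ← map_zero (red p), red_eq, sub_zero] at h1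
  exact h1

theorem exists_p' (hp5 : 5 ≤ p) : ∃ q : Oc p, (p : Oc p) = (1 - zt p) * q ∧ 1 - zt p ∣ q := by
  obtain ⟨m, hm⟩ : ∃ m, p = (m + 2) + 1 := ⟨p - 3, by omega⟩
  have hz : IsPrimitiveRoot (zt p) ((m + 2) + 1) := by
    rw [← hm]
    exact zt_prim p
  have h1 := hz.prod_one_sub_pow_eq_order
  have h2 : ((m + 2 : ℕ) : Oc p) + 1 = (p : Oc p) := by
    have h3 : ((m + 2 + 1 : ℕ) : Oc p) = (p : Oc p) := congrArg Nat.cast hm.symm
    rw [← h3]
    push_cast
    ring
  rw [h2, Finset.prod_range_succ', zero_add, pow_one, Finset.prod_range_succ'] at h1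
  refine ⟨(∏ k ∈ Finset.range m, (1 - zt p ^ (k + 1 + 1 + 1))) * (1 - zt p ^ (0 + 1 + 1)), ?_, ?_⟩
  · rw [← h1]
    ring
  · refine Dvd.dvd.mul_left ?_ _
    have h3 := sub_dvd_pow_sub_pow (1 : Oc p) (zt p) (0 + 1 + 1)
    rwa [one_pow] at h3

end Local

end POWX_

open POWX_ in
theorem p_POWX : T_POWX := by
  intro K _ _ hK τ hτ p _ hp5 x y z hx hy h g A T B hg hNF hpd hnd
  have hp : p.Prime := Fact.out
  have hodd : Odd p := hp.odd_of_ne_two (by omega)
  -- the number `z` is not zero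
  have hz : z ≠ 0 := by
    rintro rfl
    rw [zero_pow hp.ne_zero, add_zero] at h
    have hy' : (y : K) ≠ 0 := by
      intro h0
      exact hy (NumberField.RingOfIntegers.ext h0)
    have h1 : ((x : K) / (-(y : K))) ^ p = 1 := by
      have h2 : (x : K) ^ p + (y : K) ^ p = 0 := by
        have := congrArg (algebraMap (𝓞 K) K) h
        simpa using this
      rw [div_pow, hodd.neg_pow, eq_neg_of_add_eq_zero_left h2]
      exact div_self (neg_ne_zero.2 (pow_ne_zero p hy'))
    have h2 := root_one K hK p hp hp5 _ h1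
    rw [div_eq_one_iff_eq (neg_ne_zero.2 hy')] at h2
    have h3 : x = -y := by
      apply NumberField.RingOfIntegers.ext
      rw [h2]
      simp
    subst h3
    have e2 := hNF.hT
    have e3 := hNF.hB
    rw [map_neg] at e2
    have h4 : (g : 𝓞 K) * ((T + 2 * B : ℤ) : 𝓞 K) = 0 := by
      push_cast
      linear_combination -e2 - 2 * e3
    have hg' : (g : 𝓞 K) ≠ 0 := by exact_mod_cast hg
    have h5 := (mul_eq_zero.1 h4).resolve_left hg'
    have h6 : T + 2 * B = 0 := by exact_mod_cast h5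
    exact hnd (h6 ▸ dvd_zero _)
  obtain ⟨f⟩ := FCW.POW_.exists_hom p K
  let M := CyclotomicField p K
  letI : Algebra (Cy p) M := f.toAlgebra
  let φ : 𝓞 K →+* 𝓞 M := algebraMap (𝓞 K) (𝓞 M)
  let ψ : Oc p →+* 𝓞 M := algebraMap (Oc p) (𝓞 M)
  have hφ : Function.Injective φ := FaithfulSMul.algebraMap_injective (𝓞 K) (𝓞 M)
  have hψ : Function.Injective ψ := FaithfulSMul.algebraMap_injective (Oc p) (𝓞 M)
  have hζ : IsPrimitiveRoot (ψ (zt p)) p := (zt_prim p).map_of_injective hψ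
  have key : ∀ x y z : 𝓞 K, x ≠ 0 → x ^ p + y ^ p + z ^ p = 0 → z ≠ 0 →
      ∃ J a : Ideal (𝓞 M), Ideal.span {φ x + ψ (zt p) * φ y} =
        (Ideal.span {x, y}).map φ * J ∧ J ≠ 0 ∧ V p J = a ^ p := by
    intro x y z hx h hz
    have h1 : (Ideal.span {x, y}).map φ = Ideal.span {φ x, φ y} := by
      rw [Ideal.map_span, Set.image_pair]
    rw [h1]
    refine cyc_ideal hp hodd hζ (φ x) (φ y) (φ z) ?_ ?_ ?_
    · intro h0
      have h2 : φ x ∈ Ideal.span {φ x, φ y} := Ideal.subset_span (by simp)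
      rw [h0, Ideal.mem_bot] at h2
      exact hx ((map_eq_zero_iff φ hφ).1 h2)
    · rw [← map_pow, ← map_pow, ← map_pow, ← map_add, ← map_add, h, map_zero]
    · exact (map_ne_zero_iff φ hφ).2 hz
  obtain ⟨J, a, hJ, hJ0, ha⟩ := key x y z hx h hz
  obtain ⟨J', a', hJ', hJ0', ha'⟩ := key (τ x) (τ y) (τ z)
    ((map_ne_zero_iff τ τ.injective).2 hx)
    (by rw [← map_pow, ← map_pow, ← map_pow, ← map_add, ← map_add, h, map_zero])
    ((map_ne_zero_iff τ τ.injective).2 hz)
  have h1 : Ideal.span {(g : 𝓞 M)} * Ideal.span {ψ (Fz p A T B)} =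
      Ideal.span {(g : 𝓞 M)} * (J * J') := by
    have h2 : (φ x + ψ (zt p) * φ y) * (φ (τ x) + ψ (zt p) * φ (τ y)) =
        (g : 𝓞 M) * ψ (Fz p A T B) := by
      have e1 := congrArg φ hNF.hA
      have e2 := congrArg φ hNF.hT
      have e3 := congrArg φ hNF.hB
      simp only [map_mul, map_add, map_intCast] at e1 e2 e3
      unfold Fz
      simp only [map_mul, map_add, map_intCast, map_pow]
      linear_combination e1 + ψ (zt p) * e2 + ψ (zt p) ^ 2 * e3
    have h3 : (Ideal.span {x, y}).map φ * (Ideal.span {τ x, τ y}).map φ =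
        Ideal.span {(g : 𝓞 M)} := by
      have h4 : (Ideal.span {x, y}).map (τ : 𝓞 K →+* 𝓞 K) = Ideal.span {τ x, τ y} := by
        rw [Ideal.map_span, Set.image_pair]
        rfl
      rw [← h4, ← Ideal.map_mul, hNF.ideal, Ideal.map_span, Set.image_singleton, map_intCast]
    rw [Ideal.span_singleton_mul_span_singleton, ← h2,
      ← Ideal.span_singleton_mul_span_singleton, hJ, hJ', ← h3]
    ring
  have hg' : Ideal.span {(g : 𝓞 M)} ≠ 0 := by
    rw [Ne, Ideal.zero_eq_bot, Ideal.span_singleton_eq_bot]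
    exact_mod_cast hg
  have h2 : Ideal.span {ψ (Fz p A T B)} = J * J' := mul_left_cancel₀ hg' h1
  -- the element `β₁`
  obtain ⟨k, hk⟩ := hpd
  obtain ⟨q, hq, hq'⟩ := exists_p' p hp5
  set β₁ : Oc p := q * k - ((T + 2 * B : ℤ) : Oc p) + (B : Oc p) * (1 - zt p) with hβ
  have hF : (1 - zt p) * β₁ = Fz p A T B := by
    have h3 : ((A + T + B : ℤ) : Oc p) = ((p : ℤ) * k : ℤ) := by rw [hk]
    push_cast at h3
    rw [hβ]
    unfold Fz
    push_cast
    linear_combination -h3 - (k : Oc p) * hq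
  have hloc : ∀ Q : Ideal (Oc p), Q.IsPrime → (p : Oc p) ∈ Q → β₁ ∉ Q := by
    intro Q hQ hpQ hbQ
    have h3 : 1 - zt p ∈ Q := hQ.mem_of_pow_mem p (Q.mem_of_dvd (p_dvd_pow p) hpQ)
    have h4 : q ∈ Q := Q.mem_of_dvd hq' h3
    have h5 : ((T + 2 * B : ℤ) : Oc p) ∈ Q := by
      have h6 : ((T + 2 * B : ℤ) : Oc p) = q * k + (B : Oc p) * (1 - zt p) - β₁ := by
        rw [hβ]
        ring
      rw [h6]
      exact Q.sub_mem (Q.add_mem (Q.mul_mem_right _ h4) (Q.mul_mem_left _ h3)) hbQ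
    have h7 : IsCoprime (p : ℤ) (T + 2 * B) := by
      rw [Prime.coprime_iff_not_dvd (Nat.prime_iff_prime_int.mp hp)]
      exact hnd
    obtain ⟨u, v, huv⟩ := h7
    apply hQ.ne_top
    rw [Ideal.eq_top_iff_one]
    have h8 : (1 : Oc p) = (u : Oc p) * (p : Oc p) + (v : Oc p) * ((T + 2 * B : ℤ) : Oc p) := by
      have := congrArg (fun n : ℤ => (n : Oc p)) huv
      push_cast at this
      push_cast
      exact this.symm
    rw [h8]
    exact Q.add_mem (Q.mul_mem_left _ hpQ) (Q.mul_mem_left _ h5)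
  have hFz : Ideal.span {ψ (Fz p A T B)} = Ideal.span {ψ (1 - zt p)} * Ideal.span {ψ β₁} := by
    rw [Ideal.span_singleton_mul_span_singleton, ← map_mul, hF]
  have hne : Ideal.span {ψ (1 - zt p)} * Ideal.span {ψ β₁} ≠ 0 := by
    rw [← hFz, h2]
    exact mul_ne_zero hJ0 hJ0'
  have hne1 := left_ne_zero_of_mul hne
  have hne2 := right_ne_zero_of_mul hne
  have hV1 : V p (Ideal.span {ψ (1 - zt p)}) = 1 := by
    apply V_eq_one
    intro Q hQ hle
    have h3 : ψ (1 - zt p) ∈ Q := hle (Ideal.mem_span_singleton_self _)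
    have h4 : (p : 𝓞 M) = ψ (1 - zt p) * ψ q := by
      rw [← map_mul, ← hq, map_natCast]
    rw [h4]
    exact Q.mul_mem_right _ h3
  have hV2 : V p (Ideal.span {ψ β₁}) = Ideal.span {ψ β₁} := by
    apply V_self p hne2
    intro Q hQ hle hpQ
    have h3 : ψ β₁ ∈ Q := hle (Ideal.mem_span_singleton_self _)
    haveI := hQ
    refine hloc (Q.comap ψ) (Ideal.comap_isPrime ψ Q) ?_ ?_
    · rw [Ideal.mem_comap, map_natCast]
      exact hpQ
    · rw [Ideal.mem_comap]
      exact h3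
  have h3 : Ideal.span {ψ β₁} = (a * a') ^ p := by
    rw [mul_pow, ← ha, ← ha', ← V_mul p hJ0 hJ0', ← h2, hFz, V_mul p hne1 hne2, hV1, hV2,
      one_mul]
  refine ⟨β₁, ?_⟩
  have h3' : (Ideal.span {β₁}).map (algebraMap (Oc p) (𝓞 M)) = (a * a') ^ p := by
    rw [← h3, Ideal.map_span, Set.image_singleton]
  have h4 := Ideal.relNorm_algebraMap (𝓞 M) (Ideal.span {β₁})
  rw [h3', map_pow] at h4
  rcases FCW.POW_.finrank_le_two p K hK with h5 | h5
  · exact ⟨_, hF, by rw [h4, h5, pow_one]⟩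
  · rw [h5] at h4
    obtain ⟨b, hb⟩ := FCW.POW_.root_two hodd _ _ h4.symm
    exact ⟨b, hF, hb⟩

end Pool.Agent.FCN
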