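import Pool.Agent.FCN.Targets
import Pool.Agent.FCW.PRM

/-!
# Furtwängler's theorem over quadratic fields: primes dividing `A + T ζ + B ζ²`, away from `p`
-/

open NumberField

namespace Pool.Agent.FCN

open Pool.Agent.FCW

open Pool.Agent.FCW.PRM_ in
theorem p_PRMX : T_PRMX := by
  intro p hp A T B hprim l hl hF q hq hqp hql
  have := hl
  have : Fact q.Prime := ⟨hq⟩
  have hpp : p.Prime := hp.out
  have : IsDomain (Oc p ⧸ l) := Ideal.Quotient.isDomain l
  have hq0 : ((q : ℕ) : Oc p ⧸ l) = 0 := by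
    have h1 := Ideal.Quotient.eq_zero_iff_mem.mpr hql
    rw [map_natCast] at h1
    exact h1
  have hch : CharP (Oc p ⧸ l) q :=
    ringChar.of_eq (CharP.ringChar_of_prime_eq_zero hq hq0)
  set z : Oc p ⧸ l := Ideal.Quotient.mk l (zt p) with hz
  have hzp : z ^ p = 1 := by
    rw [hz, ← map_pow, zt_pow, map_one]
  have hF0 : (A : Oc p ⧸ l) + T * z + B * z ^ 2 = 0 := by
    have h1 := Ideal.Quotient.eq_zero_iff_mem.mpr hF
    unfold Fz at h1
    rw [map_add, map_add, map_mul, map_mul, map_intCast, map_intCast, map_intCast, map_pow] at h1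
    exact h1
  -- `z ≠ 1`
  have hz1 : z ≠ 1 := by
    intro hz1
    have h1 := (zt_prim p).geom_sum_eq_zero hpp.one_lt
    have h2 := congrArg (Ideal.Quotient.mk l) h1
    rw [map_sum, map_zero] at h2
    have h3 : ((p : ℕ) : Oc p ⧸ l) = 0 := by
      rw [← h2]
      simp only [map_pow, ← hz, hz1, one_pow, Finset.sum_const, Finset.card_range,
        nsmul_eq_mul, mul_one]
    rw [CharP.cast_eq_zero_iff (Oc p ⧸ l) q] at h3
    exact hqp ((Nat.prime_dvd_prime_iff_eq hq hpp).mp h3)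
  have hord : orderOf z = p := orderOf_eq_prime hzp hz1
  have h2 := frob_fix q A T B z (hprim q hq) hF0
  have hz0 : z ≠ 0 := by
    intro h0
    rw [h0, zero_pow hpp.ne_zero] at hzp
    exact zero_ne_one hzp
  have h3 : z ^ (q ^ 2 - 1) = 1 := by
    have h4 : z ^ (q ^ 2 - 1) * z = 1 * z := by
      rw [← pow_succ, one_mul, Nat.sub_add_cancel (Nat.one_le_pow _ _ hq.pos)]
      exact h2
    exact mul_right_cancel₀ hz0 h4
  have h4 : p ∣ q ^ 2 - 1 := by
    rw [← hord]
    exact orderOf_dvd_of_pow_eq_one h3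
  have h5 : ((q : ZMod p) - 1) * ((q : ZMod p) + 1) = 0 := by
    have h6 : ((q ^ 2 - 1 : ℕ) : ZMod p) = 0 := (ZMod.natCast_eq_zero_iff _ _).mpr h4
    rw [Nat.cast_sub (Nat.one_le_pow _ _ hq.pos)] at h6
    push_cast at h6
    linear_combination h6
  rcases mul_eq_zero.mp h5 with h6 | h6
  · exact Or.inl (sub_eq_zero.mp h6)
  · exact Or.inr (eq_neg_of_add_eq_zero_left h6)

end Pool.Agent.FCN
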