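import Pool.Agent.FCN.Targets

/-!
# FCN-TWOR: comparison modulo a prime over `r`
-/

open NumberField

namespace Pool.Agent.FCN

open Pool.Agent.FCW

namespace TWOR_

variable (p : ℕ)

theorem r_ne_top (r : ℕ) (hr : r.Prime) : Ideal.span {(r : Oc p)} ≠ ⊤ := by
  rw [Ne, Ideal.span_singleton_eq_top]
  intro h
  have h1 := h.map (Algebra.norm ℤ)
  have h2 : Algebra.norm ℤ (r : Oc p) = (r : ℤ) ^ Module.finrank ℤ (Oc p) := by
    have := Algebra.norm_algebraMap (S := Oc p) (r : ℤ)
    simpa using this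
  rw [h2, isUnit_pow_iff (Module.finrank_pos).ne'] at h1
  have := hr.two_le
  rcases Int.isUnit_iff.1 h1 with h3 | h3 <;> omega

theorem sum_zv [Fact p.Prime] (s : Finset (ZMod p)ˣ) (f : (ZMod p)ˣ → ZMod p) :
    ∏ u ∈ s, zv p (f u) = zv p (∑ u ∈ s, f u) := by
  classical
  induction s using Finset.induction_on with
  | empty => simp [zv_zero]
  | insert a s ha ih => rw [Finset.prod_insert ha, Finset.sum_insert ha, zv_add, ih]

end TWOR_

open TWOR_ in
theorem p_TWOR : T_TWOR := by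
  classical
  intro p _ hp5 r hr hrp β M s hs hM hβ γ n i e hkey hrn
  have hp : p.Prime := Fact.out
  obtain ⟨hn, hγ, he, hK⟩ := hkey
  obtain ⟨l, hl, hle⟩ := Ideal.exists_le_maximal _ (r_ne_top p r hr)
  have h2l : (r : Oc p) ∈ l := hle (Ideal.mem_span_singleton_self _)
  let _ : Field (Oc p ⧸ l) := Ideal.Quotient.field l
  set φ : Oc p →+* (Oc p ⧸ l) := Ideal.Quotient.mk l with hφ
  have hφ0 : ∀ x, φ x = 0 ↔ x ∈ l := fun x => Ideal.Quotient.eq_zero_iff_mem
  have h20 : (r : Oc p ⧸ l) = 0 := by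
    have := (hφ0 (r : Oc p)).2 h2l
    rwa [map_natCast] at this
  have hchar : CharP (Oc p ⧸ l) r := (CharP.charP_iff_prime_eq_zero hr).2 h20
  have : Fact (Nat.Prime r) := ⟨hr⟩
  -- `β` and its conjugates are not in `l`
  have hsg : ∀ v : (ZMod p)ˣ, φ (sg p v β) ≠ 0 := by
    intro v hv
    rw [hφ0] at hv
    have h1 : (l.comap (sg p v : Oc p →+* Oc p)).IsPrime := by
      have := hl.isPrime
      exact Ideal.comap_isPrime _ _
    refine hβ _ h1 ?_ hv
    rw [Ideal.mem_comap]
    have : (sg p v : Oc p →+* Oc p) (r : Oc p) = (r : Oc p) := map_natCast _ r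
    rwa [this]
  -- the congruence modulo r
  have hcong : ∀ u : (ZMod p)ˣ, φ (sg p u⁻¹ β) =
      φ (s : Oc p) * (φ (zv p ((M : ZMod p) * ((u⁻¹ : (ZMod p)ˣ) : ZMod p))) *
        φ (cc p (sg p u⁻¹ β))) := by
    intro u
    obtain ⟨y, hy⟩ := hM
    have h1 := congrArg (sg p u⁻¹) hy
    rw [map_sub, map_mul, map_mul, map_mul, map_pow, sg_zt, zv_pow, map_natCast, map_intCast,
      ← cc_sg] at h1
    have h2 := congrArg φ h1
    rw [map_sub, map_mul, map_mul, map_mul, map_natCast, h20, zero_mul, sub_eq_zero,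
      mul_assoc] at h2
    exact h2
  obtain ⟨s', hs', hst⟩ : ∃ s' : Oc p ⧸ l, s' ^ 2 = 1 ∧ φ (st p β) =
      s' * (φ (zv p ((M : ZMod p) * Hs p)) * φ (cc p (st p β))) := by
    refine ⟨∏ _u ∈ half p, φ (s : Oc p), ?_, ?_⟩
    · rw [← Finset.prod_pow]
      refine Finset.prod_eq_one fun u _ => ?_
      rcases hs with rfl | rfl <;> simp
    · unfold st
      rw [map_prod, map_prod, map_prod]
      rw [Finset.prod_congr rfl fun u _ => hcong u, Finset.prod_mul_distrib,
        Finset.prod_mul_distrib, ← map_prod, ← map_prod, sum_zv]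
      congr 4
      unfold Hs
      rw [Finset.mul_sum]
  have hst0 : φ (cc p (st p β)) ≠ 0 := by
    unfold st
    rw [map_prod, map_prod, Finset.prod_ne_zero_iff]
    intro u _
    unfold cc
    rw [← sg_mul]
    exact hsg _
  -- `γ`
  have hγ0 : φ γ * φ (cc p γ) ≠ 0 := by
    rw [← map_mul, hγ, map_natCast]
    intro h0
    exact hrn ((CharP.cast_eq_zero_iff (Oc p ⧸ l) r n).1 h0)
  have hγ1 : φ γ ≠ 0 := left_ne_zero_of_mul hγ0
  have hγ2 : φ (cc p γ) ≠ 0 := right_ne_zero_of_mul hγ0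
  have he1 : φ (e : Oc p) ^ 2 = 1 := by
    rcases he with rfl | rfl <;> simp
  have hK2 := congrArg φ hK
  have hzi : zt p ^ i = zv p (i : ZMod p) := (zv_natCast p i).symm
  rw [hzi, map_mul, map_mul, map_mul, map_mul, hst, map_pow, map_pow] at hK2
  have hmain : s' * φ (zv p ((M : ZMod p) * Hs p)) * φ (cc p γ) ^ p =
      φ (e : Oc p) * φ (zv p (i : ZMod p)) * φ γ ^ p := by
    refine mul_right_cancel₀ hst0 ?_
    linear_combination hK2
  by_cases hi : (i : ZMod p) = (M : ZMod p) * Hs p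
  · exact Or.inl hi
  right
  set a : ZMod p := (M : ZMod p) * Hs p - i with ha
  have ha0 : a ≠ 0 := by
    intro h
    apply hi
    rw [ha, sub_eq_zero] at h
    exact h.symm
  have ha2 : a + a ≠ 0 := by
    intro h
    have h2 : (2 : ZMod p) * a = 0 := by rw [two_mul]; exact h
    rcases mul_eq_zero.1 h2 with h3 | h3
    · have h4 : ((2 : ℕ) : ZMod p) = 0 := by exact_mod_cast h3
      rw [ZMod.natCast_eq_zero_iff] at h4
      have := Nat.le_of_dvd (by norm_num) h4
      omega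
    · exact ha0 h3
  set w : Oc p ⧸ l := (φ γ / φ (cc p γ)) ^ 2 with hw
  have hw0 : w ≠ 0 := pow_ne_zero _ (div_ne_zero hγ1 hγ2)
  have hwp : w ^ p = φ (zv p (a + a)) := by
    have h1 : φ (zv p ((M : ZMod p) * Hs p)) = φ (zv p (i : ZMod p)) * φ (zv p a) := by
      rw [← map_mul, ← zv_add]
      congr 2
      rw [ha]; ring
    have h2 : φ (zv p (i : ZMod p)) ≠ 0 := by
      intro h
      have h3 : φ (zv p (i : ZMod p)) * φ (zv p (-(i : ZMod p))) = 1 := by
        rw [← map_mul, ← zv_add, add_neg_cancel, zv_zero, map_one]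
      rw [h, zero_mul] at h3
      exact zero_ne_one h3
    have h3 : s' * φ (zv p a) * φ (cc p γ) ^ p = φ (e : Oc p) * φ γ ^ p := by
      refine mul_left_cancel₀ h2 ?_
      rw [h1] at hmain
      linear_combination hmain
    have h4 : (φ γ ^ p) ^ 2 = φ (zv p (a + a)) * (φ (cc p γ) ^ p) ^ 2 := by
      have h5 := congrArg (· ^ 2) h3
      simp only [mul_pow] at h5
      rw [hs', he1, one_mul, one_mul] at h5
      rw [zv_add, map_mul]
      linear_combination -h5
    rw [hw, ← pow_mul, mul_comm 2 p, pow_mul, div_pow, div_pow,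
      div_eq_iff (pow_ne_zero _ (pow_ne_zero _ hγ2))]
    exact h4
  -- the root of unity in the residue field
  have hz1 : φ (zt p) ≠ 1 := by
    intro h
    have h1 : zt p - 1 ∈ l := by
      rw [← hφ0, map_sub, map_one, h, sub_self]
    have h2 : (p : Oc p) ∈ l := by
      have h3 : zt p - 1 ∣ (p : Oc p) :=
        (IsCyclotomicExtension.zeta_spec p ℚ (Cy p)).toInteger_sub_one_dvd_prime'
      exact l.mem_of_dvd h3 h1
    have h3 : (p : Oc p ⧸ l) = 0 := by
      have := (hφ0 (p : Oc p)).2 h2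
      rwa [map_natCast] at this
    have h4 := (CharP.cast_eq_zero_iff (Oc p ⧸ l) r p).1 h3
    exact hrp ((Nat.prime_dvd_prime_iff_eq hr hp).1 h4)
  have hzp : φ (zt p) ^ p = 1 := by rw [← map_pow, zt_pow, map_one]
  have hzord : orderOf (φ (zt p)) = p := orderOf_eq_prime hzp hz1
  have hwp1 : w ^ p ≠ 1 := by
    rw [hwp]
    unfold zv
    rw [map_pow]
    intro h
    have h1 := orderOf_dvd_of_pow_eq_one h
    rw [hzord] at h1
    have h2 := Nat.eq_zero_of_dvd_of_lt h1 (ZMod.val_lt (a + a))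
    rw [ZMod.val_eq_zero] at h2
    exact ha2 h2
  have hwpp : w ^ p ^ (1 + 1) = 1 := by
    have : p ^ (1 + 1) = p * p := by ring
    rw [this, pow_mul, hwp, ← map_pow, zv_pow]
    simp [zv_zero]
  have hord : orderOf w = p ^ (1 + 1) := orderOf_eq_prime_pow (by rwa [pow_one]) hwpp
  -- Frobenius
  have hfr : ∀ y : Oc p ⧸ l, y ^ r ^ (p - 1) = y := by
    have h1 : (iterateFrobenius (Oc p ⧸ l) r (p - 1)).comp φ = φ := by
      apply hom_ext
      rw [RingHom.comp_apply, iterateFrobenius_def]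
      have hcop : Nat.Coprime r p := (Nat.coprime_primes hr hp).2 hrp
      have h2 : r ^ (p - 1) ≡ 1 [MOD p] := by
        have h3 := Nat.ModEq.pow_totient hcop
        rwa [Nat.totient_prime hp] at h3
      have h1r : 1 ≤ r ^ (p - 1) := Nat.one_le_pow _ _ hr.pos
      obtain ⟨c, hc⟩ := (Nat.modEq_iff_dvd' h1r).1 h2.symm
      have h4 : r ^ (p - 1) = p * c + 1 := by omega
      rw [h4, pow_succ, pow_mul, hzp, one_pow, one_mul]
    intro y
    obtain ⟨x, rfl⟩ := Ideal.Quotient.mk_surjective y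
    have := RingHom.congr_fun h1 x
    rwa [RingHom.comp_apply, iterateFrobenius_def] at this
  have hw1 : w ^ (r ^ (p - 1) - 1) = 1 := by
    have h1 : 1 ≤ r ^ (p - 1) := Nat.one_le_pow _ _ hr.pos
    refine mul_right_cancel₀ hw0 ?_
    rw [← pow_succ, Nat.sub_add_cancel h1, hfr, one_mul]
  have := orderOf_dvd_of_pow_eq_one hw1
  rwa [hord] at this

end Pool.Agent.FCN
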