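import Pool.Agent.FCN.KEYR
import Pool.Agent.FCN.TWOR
import Pool.Agent.FCN.PADG
import Pool.Agent.FCN.PRMX
import Pool.Agent.FCN.POWX
import Pool.Agent.FCN.Final

/-!
# Furtwängler's theorem over quadratic fields: assembly
-/

open NumberField IsDedekindDomain

namespace Pool.Agent.FCN

open Pool.Agent.FCW Pool.Agent.FCM

theorem all_FNP : T_FNP := p_FNP (p_KEYR (p_JAC p_CHAR p_DIST) p_SELF) p_TWOR p_PADG p_PRMX p_POWX

end Pool.Agent.FCN
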