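import Pool.Agent.FCN.PAT

/-!
# Furtwängler's theorem over quadratic fields: comparison of the two sides
-/

open NumberField

namespace Pool.Agent.FCN

open Pool.Agent.FCW

/-- all primes above `q` divide the variable `v` -/
def S1 (q : ℕ) (N : Fin 3 → ℤ) (T : Fin 3 → Fin 3 → ℤ) (v : Fin 3) : Prop :=
  (q : ℤ) ∣ N v ∧ ∀ u, u ≠ v → ¬ (q : ℤ) ∣ N u ∧ (q : ℤ) ∣ T u v

/-- one prime above `q` divides one variable, the other one divides another variable, none of them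
divides `u` -/
def S2 (q : ℕ) (N : Fin 3 → ℤ) (T : Fin 3 → Fin 3 → ℤ) (u : Fin 3) : Prop :=
  ¬ (q : ℤ) ∣ N u ∧ ∀ v, v ≠ u → (q : ℤ) ∣ N v ∧ (q : ℤ) ∣ T u v + N u ∧
    ∀ w, w ≠ u → w ≠ v → (q : ℤ) ∣ T v w - N u

/-- no prime above `q` divides a variable -/
def S0 (q : ℕ) (N : Fin 3 → ℤ) (T : Fin 3 → Fin 3 → ℤ) : Prop :=
  ∀ u v, u ≠ v → ¬ (q : ℤ) ∣ N u ∧ (q : ℤ) ∣ N u - N v ∧ (q : ℤ) ∣ T u v + N u

/-- the relation for an ordinary pair -/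
def Rl (p : ℕ) [Fact p.Prime] (r : ℕ) (N : Fin 3 → ℤ) (T : Fin 3 → Fin 3 → ℤ) (i j : Fin 3) :
    Prop :=
  ∀ (M : ℕ) (s : ℤ), Pat p r (Fz p (N i) (T i j) (N j)) M s →
    (p : ℤ) ∣ M * (N i + T i j + N j) - 2 * (T i j + 2 * N j)

/-- the relation for an extended pair -/
def RlX (p : ℕ) [Fact p.Prime] (r : ℕ) (N : Fin 3 → ℤ) (T : Fin 3 → Fin 3 → ℤ) (i j : Fin 3) :
    Prop :=
  ∀ (M : ℕ) (s : ℤ), Pat p r (Fz p (N i) (T i j) (N j)) M s → (p : ℤ) ∣ M - 1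

namespace CMP_

theorem third : ∀ u v : Fin 3, u ≠ v → ∃ w, w ≠ u ∧ w ≠ v := by decide

theorem other : ∀ u : Fin 3, ∃ w, w ≠ u := by decide

variable {p : ℕ} [Fact p.Prime] {r : ℕ} {N : Fin 3 → ℤ} {T : Fin 3 → Fin 3 → ℤ}

theorem contra {n k : ℤ} {m : ℕ} (h0 : 0 < m) (hm : m < p) (hn : ¬ (p : ℤ) ∣ n)
    (h : (p : ℤ) ∣ k) (hk : k = m * n) : False :=
  hn (Fin_.dvd_of_mul h0 hm h hk)

/-- an integer not divisible by `q`, up to a multiple of `q` -/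
theorem not_dvd {q : ℕ} {m n : ℤ} (h : (q : ℤ) ∣ m - n) (hn : ¬ (q : ℤ) ∣ n) : ¬ (q : ℤ) ∣ m := by
  intro hm
  apply hn
  have h1 := dvd_sub hm h
  have h2 : m - (m - n) = n := by ring
  rwa [h2] at h1

theorem cmp1 (h5 : 5 ≤ p) (hr : r.Prime) (hrp : r ≠ p) (hT : ∀ i j, T i j = T j i) {v : Fin 3}
    (hp : S1 p N T v) (hR : ∀ u, u ≠ v → Rl p r N T u v) :
    (∀ v', S1 r N T v' → v' = v) ∧ (∀ u, ¬ S2 r N T u) ∧ ¬ S0 r N T := by
  refine ⟨fun v' h => ?_, fun u h => ?_, fun h => ?_⟩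
  · by_contra hne
    obtain ⟨a, ha⟩ := hp.1
    obtain ⟨h1, b, hb⟩ := hp.2 v' hne
    have h2 := h.2 v (Ne.symm hne)
    obtain ⟨c, hc⟩ := hR v' hne 4 1 (PAT_.pat4 hr h.1 (by rw [hT]; exact h2.2) h2.1)
    refine contra (m := 4) (k := 4 * N v') (by norm_num) (by omega) h1 ⟨c - 2 * b, ?_⟩ (by simp)
    push_cast at hc
    linear_combination hc - 2 * hb
  · by_cases huv : u = v
    · subst huv
      obtain ⟨w, hw⟩ := other u
      obtain ⟨a, ha⟩ := hp.1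
      obtain ⟨h1, b, hb⟩ := hp.2 w hw
      obtain ⟨h2, h3, h4⟩ := h.2 w hw
      obtain ⟨c, hc⟩ := hR w hw 3 (-1) (PAT_.pat3 hr hrp h2 (by rw [hT]; exact h3) h.1)
      refine contra (m := 3) (k := 3 * N w) (by norm_num) (by omega) h1 ⟨c - b + a, ?_⟩ (by simp)
      push_cast at hc
      linear_combination hc - hb + ha
    · obtain ⟨w, hwu, hwv⟩ := third u v huv
      obtain ⟨a, ha⟩ := hp.1
      obtain ⟨h1, b, hb⟩ := hp.2 w hwv
      obtain ⟨h2, h3, h4⟩ := h.2 w hwu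
      obtain ⟨h5', h6, h7⟩ := h.2 v (Ne.symm huv)
      have h8 := h4 v (Ne.symm huv) (Ne.symm hwv)
      obtain ⟨c, hc⟩ := hR w hwv 2 1 (PAT_.pat2 hr h2 (not_dvd h8 h.1) h5')
      refine contra (m := 2) (k := 2 * N w) (by norm_num) (by omega) h1 ⟨c + 2 * a, ?_⟩ (by simp)
      push_cast at hc
      linear_combination hc + 2 * ha
  · obtain ⟨w, hw⟩ := other v
    obtain ⟨a, ha⟩ := hp.1
    obtain ⟨h1, b, hb⟩ := hp.2 w hw
    obtain ⟨h2, h3, h4⟩ := h w v hw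
    obtain ⟨c, hc⟩ := hR w hw 2 1 (PAT_.pat2' hr hrp h5 h2 h3 h4)
    refine contra (m := 2) (k := 2 * N w) (by norm_num) (by omega) h1 ⟨c + 2 * a, ?_⟩ (by simp)
    push_cast at hc
    linear_combination hc + 2 * ha

theorem small (h5 : 5 ≤ p) {n : ℤ} {m : ℕ} (h0 : 0 < m) (hm : m < 5) (hn : n = m)
    (h : (p : ℤ) ∣ n) : False := by
  rw [hn] at h
  have := Nat.le_of_dvd h0 (Int.natCast_dvd_natCast.mp h)
  omega

theorem cmp2 (h5 : 5 ≤ p) (hr : r.Prime) (hrp : r ≠ p) (hT : ∀ i j, T i j = T j i) {u : Fin 3}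
    (hp : S2 p N T u) (hR : ∀ v w, v ≠ u → w ≠ u → v ≠ w → Rl p r N T v w)
    (hX : ∀ v, v ≠ u → RlX p r N T u v) :
    (∀ v, ¬ S1 r N T v) ∧ (∀ u', S2 r N T u' → u' = u) ∧ ¬ S0 r N T := by
  refine ⟨fun v h => ?_, fun u' h => ?_, fun h => ?_⟩
  · by_cases hvu : v = u
    · subst hvu
      obtain ⟨w, hw⟩ := other v
      obtain ⟨h1, h2⟩ := h.2 w hw
      have h3 := hX w hw 4 1 (PAT_.pat4 hr h.1 (by rw [hT]; exact h2) h1)
      exact small h5 (m := 3) (by norm_num) (by norm_num) (by norm_num) h3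
    · obtain ⟨w, hwu, hwv⟩ := third u v (Ne.symm hvu)
      obtain ⟨⟨a, ha⟩, _, h3⟩ := hp.2 v hvu
      obtain ⟨b, hb⟩ := h3 w hwu hwv
      obtain ⟨h1, h2⟩ := h.2 w hwv
      obtain ⟨c, hc⟩ := hR w v hwu hvu hwv 0 1 (PAT_.pat0 hr h1 h2 h.1)
      rw [hT w v] at hc
      refine contra (m := 2) (k := 2 * N u) (by norm_num) (by omega) hp.1
        ⟨-c - 2 * b - 4 * a, ?_⟩ (by simp)
      push_cast at hc
      linear_combination -hc - 2 * hb - 4 * ha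
  · by_contra hne
    obtain ⟨w, hwu, hwu'⟩ := third u u' (Ne.symm hne)
    obtain ⟨h1, _, h2⟩ := h.2 u (Ne.symm hne)
    have h3 := h2 w hwu' hwu
    obtain ⟨h4, _, _⟩ := h.2 w hwu'
    have h6 := hX w hwu 2 1 (PAT_.pat2 hr h1 (not_dvd h3 h.1) h4)
    exact small h5 (m := 1) (by norm_num) (by norm_num) (by norm_num) h6
  · obtain ⟨w, hw⟩ := other u
    obtain ⟨h2, h3, h4⟩ := h u w (Ne.symm hw)
    have h6 := hX w hw 2 1 (PAT_.pat2' hr hrp h5 h2 h3 h4)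
    exact small h5 (m := 1) (by norm_num) (by norm_num) (by norm_num) h6

theorem cmp0 (h5 : 5 ≤ p) (hr : r.Prime) (hrp : r ≠ p)
    (hp : S0 p N T) (hR : ∀ u v, u ≠ v → Rl p r N T u v) :
    (∀ v, ¬ S1 r N T v) ∧ (∀ u, ¬ S2 r N T u) := by
  refine ⟨fun v h => ?_, fun u h => ?_⟩
  · obtain ⟨w, hw⟩ := other v
    obtain ⟨h1, ⟨a, ha⟩, b, hb⟩ := hp w v hw
    obtain ⟨h3, h4⟩ := h.2 w hw
    obtain ⟨c, hc⟩ := hR w v hw 0 1 (PAT_.pat0 hr h3 h4 h.1)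
    refine contra (m := 2) (k := 2 * N w) (by norm_num) (by omega) h1
      ⟨-c - 2 * b + 4 * a, ?_⟩ (by simp)
    push_cast at hc
    linear_combination -hc - 2 * hb + 4 * ha
  · obtain ⟨w, hw⟩ := other u
    obtain ⟨h1, ⟨a, ha⟩, b, hb⟩ := hp u w (Ne.symm hw)
    obtain ⟨h3, h4, _⟩ := h.2 w hw
    obtain ⟨c, hc⟩ := hR u w (Ne.symm hw) 1 (-1) (PAT_.pat1 hr hrp h.1 h4 h3)
    refine contra (m := 1) (k := N u) (by norm_num) (by omega) h1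
      ⟨-c - b + 3 * a, ?_⟩ (by simp)
    push_cast at hc
    linear_combination -hc - hb + 3 * ha

end CMP_

end Pool.Agent.FCN
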