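import Pool.Agent.FCN.SID

/-!
# Furtwängler's theorem over quadratic fields: integral solutions
-/

open NumberField

namespace Pool.Agent.FCN

open Pool.Agent.FCW Pool.Agent.FCM

variable {K : Type} [Field K] [NumberField K]
variable {τ : 𝓞 K ≃+* 𝓞 K} {p : ℕ} {X : Fin 3 → 𝓞 K} {g : ℤ} {N : Fin 3 → ℤ}
  {T : Fin 3 → Fin 3 → ℤ}

/-- the possible configurations of the types at `P` and its conjugate -/
def Side (τ : 𝓞 K ≃+* 𝓞 K) (q : ℕ) (X : Fin 3 → 𝓞 K) (N : Fin 3 → ℤ) (T : Fin 3 → Fin 3 → ℤ)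
    (P : Ideal (𝓞 K)) : Prop :=
  (∃ v, X v ∈ P ∧ τ (X v) ∈ P ∧ S1 q N T v) ∨
  (∃ u v w, u ≠ v ∧ u ≠ w ∧ v ≠ w ∧ X v ∈ P ∧ τ (X w) ∈ P ∧ S2 q N T u) ∨
  ((∀ i, X i ∉ P) ∧ (∀ i, τ (X i) ∉ P) ∧ S0 q N T)

namespace CORE_

theorem side (hτ : IsConj K τ) (hp : p.Prime) (h2 : p ≠ 2) {q : ℕ} (hq : q.Prime)
    (hD : Dat τ p X g N T) {P : Ideal (𝓞 K)} (hP : Pl τ q X P)
    (hqp : (q = p ∨ ¬ p ∣ q - 1) ∨ ∀ v w, X v ∈ P → τ (X w) ∈ P → v = w)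
    (h0 : (∀ i, X i ∉ P) → (∀ i, τ (X i) ∉ P) ∧ S0 q N T)
    (h0' : (∀ i, τ (X i) ∉ P) → ∀ i, X i ∉ P) : Side τ q X N T P := by
  by_cases h1 : ∀ i, X i ∉ P
  · exact Or.inr (Or.inr ⟨h1, h0 h1⟩)
  have h3 : ¬ ∀ i, τ (X i) ∉ P := fun h => h1 (h0' h)
  push Not at h1 h3
  obtain ⟨v, hv⟩ := h1
  obtain ⟨w, hw⟩ := h3
  by_cases hvw : v = w
  · subst hvw
    exact Or.inl ⟨v, hv, hw, LOC_.ls1 hq hD hP hv hw⟩
  · rcases hqp with hqp | hqp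
    · obtain ⟨u, huv, huw⟩ := CMP_.third v w hvw
      exact Or.inr (Or.inl ⟨u, v, w, huv, huw, hvw, hv, hw,
        LOC_.ls2 hτ hp h2 hq hqp hD hP huv huw hvw hv hw⟩)
    · exact absurd (hqp v w hv hw) hvw

theorem pl_comap (hτ : IsConj K τ) {q : ℕ} {P : Ideal (𝓞 K)} (hP : Pl τ q X P) :
    Pl τ q X (P.comap (τ : 𝓞 K →+* 𝓞 K)) := by
  have hpr := hP.pr
  refine ⟨Ideal.comap_isPrime _ _, ?_, ?_, ?_⟩
  · rw [Ideal.mem_comap, map_natCast]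
    exact hP.mem
  · intro i j hij hi hj
    exact hP.cop' i j hij hi hj
  · intro i j hij hi hj
    rw [Ideal.mem_comap] at hi hj
    have e : ∀ t : 𝓞 K, (τ : 𝓞 K →+* 𝓞 K) (τ t) = t := hτ.invol
    rw [e] at hi hj
    exact hP.cop i j hij hi hj

/-- the primes above `q` -/
theorem two_primes (hτ : IsConj K τ) {q : ℕ} (hq : q.Prime) {P : Ideal (𝓞 K)} (hP : P.IsPrime)
    (hqP : (q : 𝓞 K) ∈ P) {Q : Ideal (𝓞 K)} (hQ : Q.IsPrime) (hqQ : (q : 𝓞 K) ∈ Q) :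
    Q = P ∨ Q = P.comap (τ : 𝓞 K →+* 𝓞 K) := by
  have : Fact q.Prime := ⟨hq⟩
  have hne : ∀ R : Ideal (𝓞 K), (q : 𝓞 K) ∈ R → R ≠ ⊥ := by
    intro R hR h0
    rw [h0, Ideal.mem_bot] at hR
    exact hq.ne_zero (by exact_mod_cast hR)
  have hQm : Q.IsMaximal := hQ.isMaximal (hne Q hqQ)
  have h1 : (Q : Set (𝓞 K)) ⊆ P ∪ (P.comap (τ : 𝓞 K →+* 𝓞 K) : Ideal (𝓞 K)) := by
    intro w hw
    rcases EP_.primes_over hτ hP hqP hQ hqQ hw with h | h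
    · exact Or.inl h
    · exact Or.inr h
  rcases Ideal.subset_union.mp h1 with h | h
  · exact Or.inl (hQm.eq_of_le hP.ne_top h)
  · exact Or.inr (hQm.eq_of_le (Ideal.comap_isPrime (τ : 𝓞 K →+* 𝓞 K) P).ne_top h)

/-- the comparison of the primes above `p` and above `r` -/
theorem compare [Fact p.Prime] (hKEY : T_KEYR) (hTWO : T_TWOR) (hPAD : T_PADG)
    (hPRM : T_PRMX) (hPOW : T_POWX)
    (hK : Module.finrank ℚ K = 2) (hτ : IsConj K τ)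
    (h5 : 5 ≤ p) (hW : ¬ p ^ 2 ∣ 2 ^ (p - 1) - 1) {r : ℕ} (hr : r.Prime) (hrp : r ≠ p)
    (hWr : ¬ p ^ 2 ∣ r ^ (p - 1) - 1) (hD : Dat τ p X g N T) {P R : Ideal (𝓞 K)}
    (hP : Pl τ p X P) (sP : Side τ p X N T P) (sR : Side τ r X N T R) :
    (∃ v, X v ∈ P ∧ τ (X v) ∈ P ∧ X v ∈ R ∧ τ (X v) ∈ R) ∨
    (∃ u v w v' w', u ≠ v ∧ u ≠ w ∧ v ≠ w ∧ u ≠ v' ∧ u ≠ w' ∧ v' ≠ w' ∧ X v ∈ P ∧
      τ (X w) ∈ P ∧ X v' ∈ R ∧ τ (X w') ∈ R) ∨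
    ((∀ i, X i ∉ P) ∧ (∀ i, τ (X i) ∉ P) ∧ (∀ i, X i ∉ R) ∧ (∀ i, τ (X i) ∉ R)) := by
  have hp : p.Prime := Fact.out
  have rel := fun {i j k : Fin 3} (hij : i ≠ j) (hik : i ≠ k) (hjk : j ≠ k) (h1 : X k ∉ P)
    (h2 : τ (X k) ∉ P) (h3 : ¬ (p : ℤ) ∣ N i + T i j + N j) =>
    SID_.rl hKEY hTWO hK hτ h5 hW hr hrp hWr hD hP hij hik hjk h1 h2 h3
  have relx := fun {i j k : Fin 3} (hij : i ≠ j) (hik : i ≠ k) (hjk : j ≠ k)
    (h1 : (p : ℤ) ∣ N i + T i j + N j) (h2 : (p : ℤ) ∣ N j) (h3 : ¬ (p : ℤ) ∣ T i j + 2 * N j) =>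
    SID_.rlx hKEY hTWO hPAD hPRM hPOW hK hτ h5 hW hr hrp hWr hD hij hik hjk h1 h2 h3
  rcases sP with ⟨v, hv, hv', s1⟩ | ⟨u, v, w, huv, huw, hvw, hv, hw, s2⟩ | ⟨h0, h0', s0⟩
  · obtain ⟨c1, c2, c3⟩ := CMP_.cmp1 h5 hr hrp hD.sym s1 (by
      intro u huv
      obtain ⟨k, hku, hkv⟩ := CMP_.third u v huv
      refine rel huv (Ne.symm hku) (Ne.symm hkv) (hP.cop v k (Ne.symm hkv) hv)
        (hP.cop' v k (Ne.symm hkv) hv') ?_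
      obtain ⟨e1, e2⟩ := s1.2 u huv
      exact CMP_.not_dvd (n := N u) (by
        have : N u + T u v + N v - N u = T u v + N v := by ring
        rw [this]
        exact dvd_add e2 s1.1) e1)
    rcases sR with ⟨v', hr1, hr2, t1⟩ | ⟨u', _, _, _, _, _, _, _, t2⟩ | ⟨_, _, t0⟩
    · have := c1 v' t1
      subst this
      exact Or.inl ⟨v', hv, hv', hr1, hr2⟩
    · exact absurd t2 (c2 u')
    · exact absurd t0 c3
  · obtain ⟨c1, c2, c3⟩ := CMP_.cmp2 h5 hr hrp hD.sym s2 (by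
      intro v1 w1 hv1 hw1 hvw1
      refine rel hvw1 hv1 hw1 (hP.cop v u (Ne.symm huv) hv) (hP.cop' w u (Ne.symm huw) hw) ?_
      obtain ⟨e1, e2, e3⟩ := s2.2 v1 hv1
      obtain ⟨e4, _, _⟩ := s2.2 w1 hw1
      exact CMP_.not_dvd (n := N u) (by
        have : N v1 + T v1 w1 + N w1 - N u = N v1 + (T v1 w1 - N u) + N w1 := by ring
        rw [this]
        exact dvd_add (dvd_add e1 (e3 w1 hw1 (Ne.symm hvw1))) e4) s2.1) (by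
      intro v1 hv1
      obtain ⟨k, hku, hkv⟩ := CMP_.third u v1 (Ne.symm hv1)
      obtain ⟨e1, e2, e3⟩ := s2.2 v1 hv1
      refine relx (Ne.symm hv1) (Ne.symm hku) (Ne.symm hkv) ?_ e1 ?_
      · have : N u + T u v1 + N v1 = (T u v1 + N u) + N v1 := by ring
        rw [this]
        exact dvd_add e2 e1
      · exact CMP_.not_dvd (n := -N u) (by
          have : T u v1 + 2 * N v1 - -N u = (T u v1 + N u) + 2 * N v1 := by ring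
          rw [this]
          exact dvd_add e2 (Dvd.dvd.mul_left e1 2)) (by rw [dvd_neg]; exact s2.1))
    rcases sR with ⟨v', _, _, t1⟩ | ⟨u', v', w', huv', huw', hvw', hr1, hr2, t2⟩ | ⟨_, _, t0⟩
    · exact absurd t1 (c1 v')
    · have := c2 u' t2
      subst this
      exact Or.inr (Or.inl ⟨u', v, w, v', w', huv, huw, hvw, huv', huw', hvw', hv, hw, hr1, hr2⟩)
    · exact absurd t0 c3
  · obtain ⟨c1, c2⟩ := CMP_.cmp0 h5 hr hrp s0 (by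
      intro u v huv
      obtain ⟨k, hku, hkv⟩ := CMP_.third u v huv
      refine rel huv (Ne.symm hku) (Ne.symm hkv) (h0 k) (h0' k) ?_
      obtain ⟨e1, e2, e3⟩ := s0 u v huv
      exact CMP_.not_dvd (n := N u) (by
        have : N u + T u v + N v - N u = (T u v + N u) - (N u - N v) := by ring
        rw [this]
        exact dvd_sub e3 e2) e1)
    rcases sR with ⟨v', _, _, t1⟩ | ⟨u', _, _, _, _, _, _, _, t2⟩ | ⟨h3, h3', _⟩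
    · exact absurd t1 (c1 v')
    · exact absurd t2 (c2 u')
    · exact Or.inr (Or.inr ⟨h0, h0', h3, h3'⟩)

/-- Furtwängler's theorem for integral solutions that are coprime at the primes above `r p` -/
theorem main [Fact p.Prime] (hKEY : T_KEYR) (hTWO : T_TWOR) (hPAD : T_PADG)
    (hPRM : T_PRMX) (hPOW : T_POWX)
    (hK : Module.finrank ℚ K = 2) (hτ : IsConj K τ)
    (h5 : 5 ≤ p) (hW : ¬ p ^ 2 ∣ 2 ^ (p - 1) - 1) {r : ℕ} (hr : r.Prime) (hrp : r ≠ p)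
    (hWr : ¬ p ^ 2 ∣ r ^ (p - 1) - 1) (hD : Dat τ p X g N T)
    (hcop : ∀ Q : Ideal (𝓞 K), Q.IsPrime → ((r : 𝓞 K) ∈ Q ∨ (p : 𝓞 K) ∈ Q) →
      ∀ i j, i ≠ j → X i ∈ Q → X j ∉ Q)
    (H : (r = 2 ∧ ∃ Q : Ideal (𝓞 K), Q.IsPrime ∧ ((r : 𝓞 K) ∈ Q ∨ (p : 𝓞 K) ∈ Q) ∧
        ∃ v, X v ∈ Q) ∨
      ((∀ Q : Ideal (𝓞 K), Q.IsPrime → (r : 𝓞 K) ∈ Q → ∃ v, X v ∈ Q) ∧ (¬ p ∣ r - 1 ∨
        ∀ Q Q' : Ideal (𝓞 K), Q.IsPrime → Q'.IsPrime → (r : 𝓞 K) ∈ Q → (r : 𝓞 K) ∈ Q' →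
          ∀ v, X v ∈ Q → X v ∈ Q'))) :
    (∀ Q : Ideal (𝓞 K), Q.IsPrime → ((r : 𝓞 K) ∈ Q ∨ (p : 𝓞 K) ∈ Q) → ∃ v, X v ∈ Q) ∧
    ∀ v, (∃ Q : Ideal (𝓞 K), Q.IsPrime ∧ (r : 𝓞 K) ∈ Q ∧ X v ∈ Q) ↔
      (∃ Q : Ideal (𝓞 K), Q.IsPrime ∧ (p : 𝓞 K) ∈ Q ∧ X v ∈ Q) := by
  have hp : p.Prime := Fact.out
  have exi : ∀ q : ℕ, q.Prime → ∃ Q : Ideal (𝓞 K), Q.IsPrime ∧ (q : 𝓞 K) ∈ Q := by
    intro q hq
    have h1 : ¬ IsUnit ((q : ℕ) : 𝓞 K) := by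
      intro hu
      have h1 : IsUnit (Algebra.norm ℤ ((q : ℕ) : 𝓞 K)) := hu.map (Algebra.norm ℤ)
      have h2 : ((q : ℕ) : 𝓞 K) = algebraMap ℤ (𝓞 K) (q : ℤ) := by simp
      rw [h2, Algebra.norm_algebraMap, RingOfIntegers.rank, hK] at h1
      have h3 : IsUnit (q : ℤ) := (isUnit_pow_iff two_ne_zero).mp h1
      rw [Int.isUnit_iff] at h3
      have := hq.two_le
      omega
    obtain ⟨l, hl, hrl⟩ := exists_max_ideal_of_mem_nonunits h1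
    exact ⟨l, hl.isPrime, hrl⟩
  have mkPl : ∀ q : ℕ, (q = r ∨ q = p) → ∀ Q : Ideal (𝓞 K), Q.IsPrime → (q : 𝓞 K) ∈ Q →
      Pl τ q X Q := by
    intro q hqq Q hQ hqQ
    have h1 : ∀ Q' : Ideal (𝓞 K), (q : 𝓞 K) ∈ Q' → ((r : 𝓞 K) ∈ Q' ∨ (p : 𝓞 K) ∈ Q') := by
      intro Q' h
      rcases hqq with rfl | rfl
      · exact Or.inl h
      · exact Or.inr h
    refine ⟨hQ, hqQ, hcop Q hQ (h1 Q hqQ), ?_⟩
    intro i j hij hi hj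
    have h2 : (q : 𝓞 K) ∈ Q.comap (τ : 𝓞 K →+* 𝓞 K) := by
      rw [Ideal.mem_comap, map_natCast]
      exact hqQ
    exact hcop (Q.comap (τ : 𝓞 K →+* 𝓞 K)) (Ideal.comap_isPrime _ _) (h1 _ h2) i j hij hi hj
  obtain ⟨P, hPp, hpP⟩ := exi p hp
  obtain ⟨R, hRp, hrR⟩ := exi r hr
  have hP := mkPl p (Or.inr rfl) P hPp hpP
  have hR := mkPl r (Or.inl rfl) R hRp hrR
  have back : ∀ (q : ℕ) (Q : Ideal (𝓞 K)), Pl τ q X Q →
      ((∀ Q : Ideal (𝓞 K), Pl τ q X Q → (∀ i, X i ∉ Q) → ∀ i, τ (X i) ∉ Q)) →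
      (∀ i, τ (X i) ∉ Q) → ∀ i, X i ∉ Q := by
    intro q Q hQ h h1 i hi
    refine h _ (pl_comap hτ hQ) h1 i ?_
    rw [Ideal.mem_comap]
    have e : (τ : 𝓞 K →+* 𝓞 K) (τ (X i)) = X i := hτ.invol _
    rw [e]
    exact hi
  have sP : Side τ p X N T P := side hτ hp (by omega) hp hD hP (Or.inl (Or.inl rfl))
    (fun h => SID_.ls0_p hK hτ h5 hW hD hP h)
    (back p P hP fun Q hQ h => (SID_.ls0_p hK hτ h5 hW hD hQ h).1)
  have sR : Side τ r X N T R := by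
    rcases H with ⟨h2, -⟩ | ⟨h1, h2⟩
    · subst h2
      refine side hτ hp (by omega) hr hD hR (Or.inl (Or.inr ?_))
        (fun h => LOC_.ls0_two p_PAR hτ hp h5 hD hR h)
        (back 2 R hR fun Q hQ h => (LOC_.ls0_two p_PAR hτ hp h5 hD hQ h).1)
      intro h
      have := Nat.le_of_dvd (by norm_num) h
      omega
    · have h3 : ∃ v, X v ∈ R := h1 R hRp hrR
      have hR' := pl_comap hτ hR
      have h4 : ∃ v, τ (X v) ∈ R := h1 _ hR'.pr hR'.mem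
      refine side hτ hp (by omega) hr hD hR ?_ (fun h => ?_) (fun h => ?_)
      · rcases h2 with h2 | h2
        · exact Or.inl (Or.inr h2)
        · right
          intro v w hv hw
          by_contra hvw
          exact hR.cop v w hvw hv (h2 _ R hR'.pr hRp hR'.mem hrR w hw)
      · exact absurd h3.choose_spec (h _)
      · exact absurd h4.choose_spec (h _)
  have cmp := compare hKEY hTWO hPAD hPRM hPOW hK hτ h5 hW hr hrp hWr hD hP sP sR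
  -- translation
  have ov : ∀ (q : ℕ) (hq : q.Prime) (S : Ideal (𝓞 K)), Pl τ q X S → ∀ v,
      (∃ Q : Ideal (𝓞 K), Q.IsPrime ∧ (q : 𝓞 K) ∈ Q ∧ X v ∈ Q) ↔ (X v ∈ S ∨ τ (X v) ∈ S) := by
    intro q hq S hS v
    constructor
    · rintro ⟨Q, hQ, hqQ, hv⟩
      rcases two_primes hτ hq hS.pr hS.mem hQ hqQ with rfl | rfl
      · exact Or.inl hv
      · exact Or.inr hv
    · rintro (h | h)
      · exact ⟨S, hS.pr, hS.mem, h⟩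
      · exact ⟨_, (pl_comap hτ hS).pr, (pl_comap hτ hS).mem, h⟩
  have al : ∀ (q : ℕ) (hq : q.Prime) (S : Ideal (𝓞 K)), Pl τ q X S → (∃ v, X v ∈ S) →
      (∃ v, τ (X v) ∈ S) → ∀ Q : Ideal (𝓞 K), Q.IsPrime → (q : 𝓞 K) ∈ Q → ∃ v, X v ∈ Q := by
    intro q hq S hS h1 h2 Q hQ hqQ
    rcases two_primes hτ hq hS.pr hS.mem hQ hqQ with rfl | rfl
    · exact h1
    · exact h2
  have goal : (∃ v, X v ∈ P) → (∃ v, τ (X v) ∈ P) → (∃ v, X v ∈ R) → (∃ v, τ (X v) ∈ R) →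
      (∀ v, (X v ∈ R ∨ τ (X v) ∈ R) ↔ (X v ∈ P ∨ τ (X v) ∈ P)) →
      (∀ Q : Ideal (𝓞 K), Q.IsPrime → ((r : 𝓞 K) ∈ Q ∨ (p : 𝓞 K) ∈ Q) → ∃ v, X v ∈ Q) ∧
      ∀ v, (∃ Q : Ideal (𝓞 K), Q.IsPrime ∧ (r : 𝓞 K) ∈ Q ∧ X v ∈ Q) ↔
        (∃ Q : Ideal (𝓞 K), Q.IsPrime ∧ (p : 𝓞 K) ∈ Q ∧ X v ∈ Q) := by
    intro g1 g2 g3 g4 g5
    refine ⟨fun Q hQ h => ?_, fun v => ?_⟩
    · rcases h with h | h
      · exact al r hr R hR g3 g4 Q hQ h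
      · exact al p hp P hP g1 g2 Q hQ h
    · rw [ov r hr R hR, ov p hp P hP]
      exact g5 v
  rcases cmp with ⟨v, a1, a2, a3, a4⟩ |
    ⟨u, v, w, v', w', huv, huw, hvw, huv', huw', hvw', a1, a2, a3, a4⟩ | ⟨a1, a2, a3, a4⟩
  · refine goal ⟨v, a1⟩ ⟨v, a2⟩ ⟨v, a3⟩ ⟨v, a4⟩ fun i => ?_
    by_cases hi : i = v
    · subst hi
      exact ⟨fun _ => Or.inl a1, fun _ => Or.inl a3⟩
    · have hi' := Ne.symm hi
      constructor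
      · rintro (h | h)
        · exact absurd h (hR.cop v i hi' a3)
        · exact absurd h (hR.cop' v i hi' a4)
      · rintro (h | h)
        · exact absurd h (hP.cop v i hi' a1)
        · exact absurd h (hP.cop' v i hi' a2)
  · have key : ∀ (q : ℕ) (S : Ideal (𝓞 K)), Pl τ q X S → ∀ v w : Fin 3, u ≠ v → u ≠ w → v ≠ w →
        X v ∈ S → τ (X w) ∈ S → ∀ i, (X i ∈ S ∨ τ (X i) ∈ S) ↔ i ≠ u := by
      intro q S hS v w huv huw hvw h1 h2 i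
      constructor
      · rintro (h | h) rfl
        · exact hS.cop v i (Ne.symm huv) h1 h
        · exact hS.cop' w i (Ne.symm huw) h2 h
      · intro hi
        rcases LOC_.two_of u v w i huv huw hvw hi with rfl | rfl
        · exact Or.inl h1
        · exact Or.inr h2
    refine goal ⟨v, a1⟩ ⟨w, a2⟩ ⟨v', a3⟩ ⟨w', a4⟩ fun i => ?_
    rw [key r R hR v' w' huv' huw' hvw' a3 a4, key p P hP v w huv huw hvw a1 a2]
  · exfalso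
    rcases H with ⟨h2, Q, hQ, hq, v, hv⟩ | ⟨h1, h2⟩
    · have no : ∀ (q : ℕ) (hq : q.Prime) (S : Ideal (𝓞 K)), Pl τ q X S → (∀ i, X i ∉ S) →
          (∀ i, τ (X i) ∉ S) → (q : 𝓞 K) ∈ Q → False := by
        intro q hq S hS h1 h2 hqQ
        rcases (ov q hq S hS v).mp ⟨Q, hQ, hqQ, hv⟩ with h | h
        · exact h1 v h
        · exact h2 v h
      rcases hq with hq | hq
      · exact no r hr R hR a3 a4 hq
      · exact no p hp P hP a1 a2 hq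
    · obtain ⟨v, hv⟩ := h1 R hRp hrR
      exact a3 v hv

end CORE_

end Pool.Agent.FCN
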