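import Pool.Agent.FCN.Targets
import Pool.Agent.FCW.ANN
import Pool.Agent.FCW.KEY

/-!
# FCN-KEYR: the key equation with a number prime to `r`
-/

set_option autoImplicit false

open NumberField

namespace Pool.Agent.FCN

open Pool.Agent.FCW

namespace KEYR_

open Pool.Agent.FCW.ANN_ in
/-- annihilation of ideals with a number prime to `r` -/
theorem annr (h1 : T_JAC) (h2 : T_SELF) (p : ℕ) [Fact p.Prime] (h5 : 5 ≤ p) (r : ℕ)
    (hr : r.Prime) (b : Ideal (Oc p)) : b ≠ ⊥ → PM p b →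
    (∀ l : Ideal (Oc p), l.IsPrime → (r : Oc p) ∈ l → ¬ b ≤ l) →
    ∃ (γ : Oc p) (n : ℕ), n.Coprime (2 * p) ∧ γ * cc p γ = (n : Oc p) ∧
    stI p b * Ideal.span {cc p γ} = stI p (b.map (cc p : Oc p →+* Oc p)) * Ideal.span {γ} ∧
    ¬ r ∣ n := by
  induction b using UniqueFactorizationMonoid.induction_on_prime with
  | h₁ => intro h; exact absurd rfl h
  | h₂ x hx =>
    intro _ _ _
    have hx' : x = ⊤ := Ideal.isUnit_iff.1 hx
    subst hx'
    refine ⟨1, 1, Nat.coprime_one_left _, ?_, ?_, fun hd => hr.one_lt.ne (Nat.dvd_one.1 hd).symm⟩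
    · rw [map_one, mul_one, Nat.cast_one]
    · rw [map_one, Ideal.map_top]
  | h₃ a l ha hl ih =>
    intro hla hPM hrb
    have hlp : l.IsPrime := Ideal.isPrime_of_prime hl
    have hl0 : l ≠ ⊥ := hl.ne_zero
    obtain ⟨γa, na, hna, hga, hea, hra⟩ := ih ha
      (fun l' hl' hal q hq hql => hPM l' hl' (Ideal.mul_le_right.trans hal) q hq hql)
      (fun l' hl' hrl hal => hrb l' hl' hrl (Ideal.mul_le_right.trans hal))
    have hN : Ideal.absNorm l ≠ 0 := by
      rw [Ne, Ideal.absNorm_eq_zero_iff]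
      exact hl0
    obtain ⟨q, hq, hql⟩ := exists_prime p l hlp _ hN (Ideal.absNorm_mem l)
    obtain ⟨γl, nl, hnl, hgl, hel, hrl⟩ : ∃ (γ : Oc p) (n : ℕ), n.Coprime (2 * p) ∧
        γ * cc p γ = (n : Oc p) ∧
        stI p l * Ideal.span {cc p γ} =
          stI p (l.map (cc p : Oc p →+* Oc p)) * Ideal.span {γ} ∧ ¬ r ∣ n := by
      rcases hPM l hlp Ideal.mul_le_left q hq hql with h | h
      · obtain ⟨J, hJ, hst⟩ := h1 p (by omega) l q hq hlp hql h
        refine ⟨J, q, coprime_of_one p h5 q hq h, hJ, ?_, ?_⟩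
        · rw [stI_cc, hst, Ideal.map_span, Set.image_singleton]
          exact mul_comm _ _
        · intro hd
          have hrq : r = q := (Nat.prime_dvd_prime_iff_eq hr hq).1 hd
          subst hrq
          exact hrb l hlp hql Ideal.mul_le_left
      · refine ⟨1, 1, Nat.coprime_one_left _, ?_, ?_, fun hd => hr.one_lt.ne (Nat.dvd_one.1 hd).symm⟩
        · rw [map_one, mul_one, Nat.cast_one]
        · rw [h2 p l q hq hlp hql h, map_one]
    refine ⟨γl * γa, nl * na, Nat.Coprime.mul_left hnl hna, ?_, ?_, ?_⟩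
    · rw [map_mul, Nat.cast_mul, ← hgl, ← hga]
      ring
    · rw [map_mul, Ideal.map_mul, stI_mul, stI_mul, ← Ideal.span_singleton_mul_span_singleton,
        ← Ideal.span_singleton_mul_span_singleton, mul_mul_mul_comm, hel, hea,
        mul_mul_mul_comm]
    · intro hd
      rcases hr.dvd_mul.1 hd with h | h
      · exact hrl h
      · exact hra h

end KEYR_

open KEYR_ Pool.Agent.FCW.KEY_ in
/-- KEYR -/
theorem p_KEYR (h1 : T_JAC) (h2 : T_SELF) : T_KEYR := by
  intro p _ hp β b hβ hb hPM r hr hrβ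
  have hpp : p.Prime := Fact.out
  have hb0 : b ≠ ⊥ := by
    rintro rfl
    rw [← Ideal.zero_eq_bot, zero_pow hpp.ne_zero, Ideal.zero_eq_bot,
      Ideal.span_singleton_eq_bot] at hb
    exact hβ hb
  obtain ⟨γ, n, hn, hγ, hI, hrn⟩ := annr h1 h2 p hp r hr b hb0 hPM (by
    intro l hl hrl hbl
    apply hrβ l hl hrl
    have h3 : Ideal.span {β} ≤ l := by
      rw [hb]
      exact (Ideal.pow_le_self hpp.ne_zero).trans hbl
    exact h3 (Ideal.mem_span_singleton_self β))
  have hn0 : n ≠ 0 := by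
    rintro rfl
    rw [Nat.coprime_zero_left] at hn
    omega
  have hγ0 : γ ≠ 0 := by
    rintro rfl
    rw [zero_mul] at hγ
    exact hn0 (by exact_mod_cast hγ.symm)
  have hcγ0 : cc p γ ≠ 0 := fun h1 => hγ0 ((map_eq_zero_iff _ (cc p).injective).1 h1)
  have hst0 := st_ne p hβ
  -- the ideal equation
  have h1 : Ideal.span {st p β * cc p γ ^ p} = Ideal.span {cc p (st p β) * γ ^ p} := by
    have h2 := congrArg (· ^ p) hI
    simp only [mul_pow] at h2
    rw [← stI_pow, ← stI_pow, ← Ideal.map_pow, ← hb, Ideal.map_span, Set.image_singleton,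
      Ideal.span_singleton_pow, Ideal.span_singleton_pow, stI_span, stI_span,
      Ideal.span_singleton_mul_span_singleton, Ideal.span_singleton_mul_span_singleton] at h2
    have h3 : st p ((cc p : Oc p →+* Oc p) β) = cc p (st p β) := st_cc p β
    rw [h3] at h2
    exact h2
  rw [Ideal.span_singleton_eq_span_singleton] at h1
  obtain ⟨w, hw⟩ := h1.symm
  have hroot := unit_root p (by omega) (w : Oc p) (by
    intro φ
    have h2 := congrArg (fun x => ‖(φ.comp (algebraMap (Oc p) (Cy p))) x‖) hw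
    simp only [map_mul, map_pow, norm_mul, norm_pow] at h2
    rw [norm_cc, norm_cc] at h2
    have hφ : Function.Injective (φ.comp (algebraMap (Oc p) (Cy p))) :=
      φ.injective.comp (FaithfulSMul.algebraMap_injective (Oc p) (Cy p))
    have h3 : ‖(φ.comp (algebraMap (Oc p) (Cy p))) (st p β)‖ *
        ‖(φ.comp (algebraMap (Oc p) (Cy p))) γ‖ ^ p ≠ 0 := by
      refine mul_ne_zero ?_ (pow_ne_zero _ ?_)
      · rw [norm_ne_zero_iff]
        exact fun h4 => hst0 ((map_eq_zero_iff _ hφ).1 h4)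
      · rw [norm_ne_zero_iff]
        exact fun h4 => hγ0 ((map_eq_zero_iff _ hφ).1 h4)
    have h4 : ‖(φ.comp (algebraMap (Oc p) (Cy p))) (w : Oc p)‖ = 1 :=
      mul_left_cancel₀ h3 (h2.trans (mul_one _).symm)
    exact h4)
  obtain ⟨i, s, hs, hi⟩ := hroot
  refine ⟨γ, n, i, s, ⟨hn, hγ, hs, ?_⟩, hrn⟩
  rw [← hw, hi]
  ring

end Pool.Agent.FCN
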