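import Pool.Agent.FCN.CMP
import Pool.Agent.FCM.Final

/-!
# Furtwängler's theorem over quadratic fields: congruences at one prime
-/

open NumberField

namespace Pool.Agent.FCN

open Pool.Agent.FCW

variable {K : Type} [Field K] [NumberField K]

/-- a solution and its norm quotients -/
structure Dat (τ : 𝓞 K ≃+* 𝓞 K) (p : ℕ) (X : Fin 3 → 𝓞 K) (g : ℤ) (N : Fin 3 → ℤ)
    (T : Fin 3 → Fin 3 → ℤ) : Prop where
  sum : ∀ i j k, i ≠ j → i ≠ k → j ≠ k → X i ^ p + X j ^ p + X k ^ p = 0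
  ne : ∀ i, X i ≠ 0
  g0 : g ≠ 0
  nf : ∀ i j, i ≠ j → NF K τ (X i) (X j) g (N i) (T i j) (N j)
  sym : ∀ i j, T i j = T j i

/-- a prime above `q` at which the variables are coprime -/
structure Pl (τ : 𝓞 K ≃+* 𝓞 K) (q : ℕ) (X : Fin 3 → 𝓞 K) (P : Ideal (𝓞 K)) : Prop where
  pr : P.IsPrime
  mem : (q : 𝓞 K) ∈ P
  cop : ∀ i j, i ≠ j → X i ∈ P → X j ∉ P
  cop' : ∀ i j, i ≠ j → τ (X i) ∈ P → τ (X j) ∉ P

namespace LOC_

theorem two_of : ∀ u v w v' : Fin 3, u ≠ v → u ≠ w → v ≠ w → v' ≠ u → v' = v ∨ v' = w := by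
  decide

variable {τ : 𝓞 K ≃+* 𝓞 K} {p : ℕ} {X : Fin 3 → 𝓞 K} {g : ℤ} {N : Fin 3 → ℤ}
  {T : Fin 3 → Fin 3 → ℤ} {q : ℕ} {P : Ideal (𝓞 K)}

/-- the factor `g` is a unit at `P` -/
theorem unit_g (hD : Dat τ p X g N T) (hP : Pl τ q X P) {u : Fin 3} (hu : X u ∉ P)
    (hu' : τ (X u) ∉ P) : (g : 𝓞 K) ∉ P ∧ ((N u : ℤ) : 𝓞 K) ∉ P := by
  obtain ⟨w, hw⟩ := CMP_.other u
  have h1 := (hD.nf u w (Ne.symm hw)).hA
  have h2 : (g : 𝓞 K) * (N u : 𝓞 K) ∉ P := by
    rw [← h1]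
    intro h
    rcases hP.pr.mem_or_mem h with h | h
    · exact hu h
    · exact hu' h
  exact ⟨fun h => h2 (P.mul_mem_right _ h), fun h => h2 (P.mul_mem_left _ h)⟩

theorem int_of (hq : q.Prime) (hP : Pl τ q X P) (hg : (g : 𝓞 K) ∉ P) {n : ℤ}
    (h : (g : 𝓞 K) * (n : 𝓞 K) ∈ P) : (q : ℤ) ∣ n := by
  rcases hP.pr.mem_or_mem h with h | h
  · exact absurd h hg
  · exact (LOCP_.int_mem hq hP.pr hP.mem).mp h

theorem ls1 (hq : q.Prime) (hD : Dat τ p X g N T) (hP : Pl τ q X P) {v : Fin 3} (h1 : X v ∈ P)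
    (h2 : τ (X v) ∈ P) : S1 q N T v := by
  obtain ⟨w, hw⟩ := CMP_.other v
  have hu : ∀ u, u ≠ v → X u ∉ P := fun u hu => hP.cop v u (Ne.symm hu) h1
  have hu' : ∀ u, u ≠ v → τ (X u) ∉ P := fun u hu => hP.cop' v u (Ne.symm hu) h2
  have hg := (unit_g hD hP (hu w hw) (hu' w hw)).1
  refine ⟨int_of hq hP hg ?_, fun u huv => ⟨fun h => ?_, int_of hq hP hg ?_⟩⟩
  · rw [← (hD.nf v w (Ne.symm hw)).hA]
    exact P.mul_mem_right _ h1
  · exact (unit_g hD hP (hu u huv) (hu' u huv)).2 ((LOCP_.int_mem hq hP.pr hP.mem).mpr h)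
  · rw [← (hD.nf u v huv).hT]
    exact P.add_mem (P.mul_mem_left _ h2) (P.mul_mem_right _ h1)

/-- `p`-th roots of unity in a residue field which is a prime field -/
theorem lin (hτ : IsConj K τ) (hp : p.Prime) (h2 : p ≠ 2) (hq : q.Prime) (hqp : q = p ∨ ¬ p ∣ q - 1)
    (hP : P.IsPrime) (hqP : (q : 𝓞 K) ∈ P) {δ : 𝓞 K} (hδ : δ ∈ P) (hδ' : τ δ ∉ P) {x y : 𝓞 K}
    (hxy : x ^ p + y ^ p ∈ P) (hy : y ∉ P) : x + y ∈ P := by
  rcases hqp with rfl | hqp
  · apply hP.mem_of_pow_mem q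
    obtain ⟨r, hr⟩ := exists_add_pow_prime_eq hp x y
    rw [hr]
    exact P.add_mem hxy (P.mul_mem_right _ (P.mul_mem_right _ (P.mul_mem_right _ hqP)))
  · have hP0 : P ≠ ⊥ := by
      intro h0
      rw [h0, Ideal.mem_bot] at hqP
      exact hq.ne_zero (by exact_mod_cast hqP)
    have hmax : P.IsMaximal := hP.isMaximal hP0
    let _ : Field (𝓞 K ⧸ P) := Ideal.Quotient.field P
    let π : 𝓞 K →+* 𝓞 K ⧸ P := Ideal.Quotient.mk P
    have hπ : ∀ a, π a = 0 ↔ a ∈ P := fun a => Ideal.Quotient.eq_zero_iff_mem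
    have hchar : CharP (𝓞 K ⧸ P) q := by
      have h1 : ((q : ℕ) : 𝓞 K ⧸ P) = 0 := by
        rw [← map_natCast π]
        exact (hπ _).mpr hqP
      exact (CharP.charP_iff_prime_eq_zero hq).mpr h1
    have : Fact q.Prime := ⟨hq⟩
    -- integers are fixed by Frobenius
    have hint : ∀ n : ℤ, ((n : ℤ) : 𝓞 K ⧸ P) ^ q = n := by
      intro n
      have h3 := map_intCast (frobenius (𝓞 K ⧸ P) q) n
      rwa [frobenius_def] at h3
    obtain ⟨n, hn⟩ := hτ.fix (δ + τ δ) (by rw [map_add, hτ.invol, add_comm])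
    have hnP : π (n : 𝓞 K) ≠ 0 := by
      rw [← hn, map_add, (hπ δ).mpr hδ, zero_add]
      exact fun h => hδ' ((hπ _).mp h)
    have hfr : ∀ α : 𝓞 K, π α ^ q = π α := by
      intro α
      obtain ⟨m, hm⟩ := hτ.fix (α * τ δ + τ α * δ) (by
        rw [map_add, map_mul, map_mul, hτ.invol, hτ.invol, add_comm])
      have h3 : π α * π (n : 𝓞 K) = π (m : 𝓞 K) := by
        rw [← hn, ← hm, map_add, map_add, map_mul, map_mul, (hπ δ).mpr hδ, mul_zero, add_zero,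
          zero_add]
      have h4 := congrArg (· ^ q) h3
      simp only [mul_pow] at h4
      rw [map_intCast, map_intCast, hint, hint] at h4
      rw [map_intCast] at hnP h3
      rw [map_intCast] at h3
      exact mul_right_cancel₀ hnP (h4.trans h3.symm)
    have hy0 : π y ≠ 0 := fun h => hy ((hπ _).mp h)
    have hodd : Odd p := hp.odd_of_ne_two h2
    have e1 : π x ^ p = -(π y ^ p) := by
      have h3 := (hπ _).mpr hxy
      rw [map_add, map_pow, map_pow] at h3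
      linear_combination h3
    obtain ⟨ρ, hρ⟩ : ∃ ρ, ρ = -(π x / π y) := ⟨_, rfl⟩
    have e2 : ρ ^ p = 1 := by
      rw [hρ, hodd.neg_pow, div_pow, e1]
      field_simp
    have hρ0 : ρ ≠ 0 := by
      rintro rfl
      rw [zero_pow hp.ne_zero] at e2
      exact zero_ne_one e2
    have e3 : ρ ^ (q - 1) = 1 := by
      apply mul_right_cancel₀ hρ0
      rw [← pow_succ, Nat.sub_add_cancel hq.one_le, one_mul, hρ]
      by_cases hq2 : q = 2
      · subst hq2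
        have h5 : (2 : 𝓞 K ⧸ P) = 0 := by
          have := CharP.cast_eq_zero (𝓞 K ⧸ P) 2
          exact_mod_cast this
        have h6 : ∀ t : 𝓞 K ⧸ P, -t = t := fun t => by linear_combination -t * h5
        rw [h6, div_pow, hfr, hfr]
      · rw [(hq.odd_of_ne_two hq2).neg_pow, div_pow, hfr, hfr]
    have hcop : Nat.Coprime p (q - 1) := (Nat.Prime.coprime_iff_not_dvd hp).mpr hqp
    have h5 := Nat.dvd_gcd (orderOf_dvd_of_pow_eq_one e2) (orderOf_dvd_of_pow_eq_one e3)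
    rw [hcop.gcd_eq_one, Nat.dvd_one, orderOf_eq_one_iff] at h5
    rw [← hπ, map_add]
    rw [h5] at hρ
    field_simp at hρ
    linear_combination hρ

theorem ls2 (hτ : IsConj K τ) (hp : p.Prime) (h2 : p ≠ 2) (hq : q.Prime)
    (hqp : q = p ∨ ¬ p ∣ q - 1) (hD : Dat τ p X g N T) (hP : Pl τ q X P) {u v w : Fin 3}
    (huv : u ≠ v) (huw : u ≠ w) (hvw : v ≠ w) (h1 : X v ∈ P) (h3 : τ (X w) ∈ P) :
    S2 q N T u := by
  have a1 : X u ∉ P := hP.cop v u (Ne.symm huv) h1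
  have a2 : X w ∉ P := hP.cop v w hvw h1
  have a3 : τ (X u) ∉ P := hP.cop' w u (Ne.symm huw) h3
  have a4 : τ (X v) ∉ P := hP.cop' w v (Ne.symm hvw) h3
  have hp0 : p ≠ 0 := hp.ne_zero
  have l1 : X u + X w ∈ P := by
    refine lin hτ hp h2 hq hqp hP.pr hP.mem h1 a4 ?_ a2
    have h4 := hD.sum u w v huw huv (Ne.symm hvw)
    have h5 : X u ^ p + X w ^ p = -(X v ^ p) := by linear_combination h4
    rw [h5]
    exact P.neg_mem (P.pow_mem_of_mem h1 p hp.pos)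
  have l2 : τ (X u) + τ (X v) ∈ P := by
    refine lin hτ hp h2 hq hqp hP.pr hP.mem h3 (by rwa [hτ.invol]) ?_ a4
    have h4 := congrArg τ (hD.sum u v w huv huw hvw)
    rw [map_add, map_add, map_pow, map_pow, map_pow, map_zero] at h4
    have h5 : τ (X u) ^ p + τ (X v) ^ p = -(τ (X w) ^ p) := by linear_combination h4
    rw [h5]
    exact P.neg_mem (P.pow_mem_of_mem h3 p hp.pos)
  obtain ⟨hg, hN⟩ := unit_g hD hP a1 a3
  have nu := hD.nf u v huv
  have nw := hD.nf u w huw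
  have nv := hD.nf v w hvw
  have tvw : (q : ℤ) ∣ T v w - N u := by
    apply int_of hq hP hg
    have h4 : (g : 𝓞 K) * ((T v w - N u : ℤ) : 𝓞 K) = X v * τ (X w) +
        (X u + X w) * τ (X v) - X u * (τ (X u) + τ (X v)) := by
      push_cast
      linear_combination -nv.hT + nu.hA
    rw [h4]
    exact P.sub_mem (P.add_mem (P.mul_mem_right _ h1) (P.mul_mem_right _ l1))
      (P.mul_mem_left _ l2)
  refine ⟨fun h => hN ((LOCP_.int_mem hq hP.pr hP.mem).mpr h), fun v' hv' => ?_⟩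
  rcases two_of u v w v' huv huw hvw hv' with rfl | rfl
  · refine ⟨int_of hq hP hg ?_, int_of hq hP hg ?_, fun w' h4 h5 => ?_⟩
    · rw [← nu.hB]
      exact P.mul_mem_right _ h1
    · have h4 : (g : 𝓞 K) * ((T u v' + N u : ℤ) : 𝓞 K) = X u * (τ (X u) + τ (X v')) +
          X v' * τ (X u) := by
        push_cast
        linear_combination -nu.hT - nu.hA
      rw [h4]
      exact P.add_mem (P.mul_mem_left _ l2) (P.mul_mem_right _ h1)
    · rcases two_of u v' w w' huv huw hvw h4 with rfl | rfl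
      · exact absurd rfl h5
      · exact tvw
  · refine ⟨int_of hq hP hg ?_, int_of hq hP hg ?_, fun w' h4 h5 => ?_⟩
    · rw [← nw.hB]
      exact P.mul_mem_left _ h3
    · have h4 : (g : 𝓞 K) * ((T u v' + N u : ℤ) : 𝓞 K) = X u * τ (X v') +
          (X u + X v') * τ (X u) := by
        push_cast
        linear_combination -nw.hT - nw.hA
      rw [h4]
      exact P.add_mem (P.mul_mem_left _ h3) (P.mul_mem_right _ l1)
    · rcases two_of u v v' w' huv huw hvw h4 with rfl | rfl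
      · rw [hD.sym]
        exact tvw
      · exact absurd rfl h5

theorem ls0_two (hPAR : T_PAR) (hτ : IsConj K τ) (hp : p.Prime) (h5 : 5 ≤ p)
    (hD : Dat τ p X g N T) (hP : Pl τ 2 X P) (h1 : ∀ i, X i ∉ P) :
    (∀ i, τ (X i) ∉ P) ∧ S0 2 N T := by
  have hmem2 : ∀ n : ℤ, (n : 𝓞 K) ∈ P ↔ ((2 : ℕ) : ℤ) ∣ n :=
    fun n => LOCP_.int_mem Nat.prime_two hP.pr hP.mem
  have par : ∀ i j k, i ≠ j → i ≠ k → j ≠ k → (2 : ℤ) ∣ N i + N j + N k + T i j := by
    intro i j k hij hik hjk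
    exact hPAR K τ hτ p hp h5 (X i) (X j) (X k) (hD.sum i j k hij hik hjk) g _ _ _ _ hD.g0
      (hD.nf i j hij) (hD.nf i k hik).hB
  have hn : ∀ i, τ (X i) ∉ P := by
    intro v hv
    obtain ⟨u, huv⟩ := CMP_.other v
    obtain ⟨w, hwv, hwu⟩ := CMP_.third v u (Ne.symm huv)
    have hu := hP.cop' v u (Ne.symm huv) hv
    have hw := hP.cop' v w (Ne.symm hwv) hv
    obtain ⟨hg, hNu⟩ := unit_g hD hP (h1 u) hu
    obtain ⟨_, hNw⟩ := unit_g hD hP (h1 w) hw
    rw [hmem2] at hNu hNw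
    have hNv : (2 : ℤ) ∣ N v := by
      have := int_of (n := N v) Nat.prime_two hP hg (by
        rw [← (hD.nf v u (Ne.symm huv)).hA]
        exact P.mul_mem_left _ hv)
      exact_mod_cast this
    have hT : ¬ (2 : ℤ) ∣ T u v := by
      intro h
      have h3 : (g : 𝓞 K) * (T u v : 𝓞 K) ∈ P :=
        P.mul_mem_left _ ((hmem2 _).mpr (by exact_mod_cast h))
      rw [← (hD.nf u v huv).hT] at h3
      have h4 : X v * τ (X u) ∈ P := by
        have h6 : X v * τ (X u) = (X u * τ (X v) + X v * τ (X u)) - X u * τ (X v) := by ring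
        rw [h6]
        exact P.sub_mem h3 (P.mul_mem_left _ hv)
      rcases hP.pr.mem_or_mem h4 with h | h
      · exact h1 v h
      · exact hu h
    have h3 := par u v w huv (Ne.symm hwu) (Ne.symm hwv)
    push_cast at hNu hNw
    omega
  refine ⟨hn, fun u v huv => ?_⟩
  obtain ⟨w, hwu, hwv⟩ := CMP_.third u v huv
  obtain ⟨hg, hNu⟩ := unit_g hD hP (h1 u) (hn u)
  obtain ⟨_, hNw⟩ := unit_g hD hP (h1 w) (hn w)
  obtain ⟨_, hNv⟩ := unit_g hD hP (h1 v) (hn v)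
  rw [hmem2] at hNu hNv hNw
  have h3 := par u v w huv (Ne.symm hwu) (Ne.symm hwv)
  push_cast at hNu hNw hNv ⊢
  refine ⟨hNu, ?_, ?_⟩ <;> omega

end LOC_

end Pool.Agent.FCN
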