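import Pool.Agent.FCN.REC
import Pool.Agent.FCW.Fin

/-!
# Furtwängler's theorem over quadratic fields: the patterns modulo `r`
-/

open NumberField

namespace Pool.Agent.FCN

open Pool.Agent.FCW

namespace PAT_

variable {p : ℕ} [Fact p.Prime] {r : ℕ}

theorem zcc : zt p * cc p (zt p) = 1 := by
  have h1 := cc_zv p 1
  rw [zv_one] at h1
  rw [h1, ← zv_one p, ← zv_add, add_neg_cancel, zv_zero]

theorem cc_Fz' (A T B : ℤ) : cc p (Fz p A T B) = A + T * cc p (zt p) + B * cc p (zt p) ^ 2 := by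
  unfold Fz
  rw [map_add, map_add, map_mul, map_mul, map_pow, map_intCast, map_intCast, map_intCast]

theorem int_notMem (hr : r.Prime) {l : Ideal (Oc p)} (hl : l.IsPrime) (hrl : (r : Oc p) ∈ l)
    {n : ℤ} (hn : ¬ (r : ℤ) ∣ n) : (n : Oc p) ∉ l := by
  intro h
  have hcop : IsCoprime (r : ℤ) n :=
    (Int.isCoprime_iff_gcd_eq_one.mpr (((Nat.Prime.coprime_iff_not_dvd hr).mpr (by
      intro h1
      exact hn (Int.natCast_dvd.mpr h1)))))
  obtain ⟨u, v, huv⟩ := hcop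
  apply hl.ne_top
  rw [Ideal.eq_top_iff_one]
  have h1 : (1 : Oc p) = (u : Oc p) * (r : Oc p) + (v : Oc p) * (n : Oc p) := by
    have := congrArg (fun t : ℤ => (t : Oc p)) huv
    push_cast at this
    exact this.symm
  rw [h1]
  exact l.add_mem (l.mul_mem_left _ hrl) (l.mul_mem_left _ h)

theorem int_mem {l : Ideal (Oc p)} (hrl : (r : Oc p) ∈ l) {n : ℤ} (hn : (r : ℤ) ∣ n) :
    (n : Oc p) ∈ l := by
  obtain ⟨k, rfl⟩ := hn
  push_cast
  exact l.mul_mem_right _ hrl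

theorem cast_dvd {n : ℤ} (hn : (r : ℤ) ∣ n) : (r : Oc p) ∣ (n : Oc p) := by
  obtain ⟨k, rfl⟩ := hn
  push_cast
  exact Dvd.intro _ rfl

theorem zt_notMem {l : Ideal (Oc p)} (hl : l.IsPrime) : zt p ∉ l := by
  intro h
  apply hl.ne_top
  rw [Ideal.eq_top_iff_one, ← zcc (p := p)]
  exact l.mul_mem_right _ h

/-- powers of `ζ` are not congruent to `1` -/
theorem zt_pow_notMem (hr : r.Prime) (hrp : r ≠ p) {l : Ideal (Oc p)} (hl : l.IsPrime)
    (hrl : (r : Oc p) ∈ l) {m : ℕ} (hm : ¬ p ∣ m) : zt p ^ m - 1 ∉ l := by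
  have hp : p.Prime := Fact.out
  intro h
  have hcop : Nat.Coprime p m := (Nat.Prime.coprime_iff_not_dvd hp).mpr hm
  have h1 : zt p - 1 ∈ l := by
    let φ : Oc p →+* (Oc p ⧸ l) := Ideal.Quotient.mk l
    have hφ : ∀ x, φ x = 0 ↔ x ∈ l := fun x => Ideal.Quotient.eq_zero_iff_mem
    have e1 : φ (zt p) ^ m = 1 := by
      have := (hφ _).mpr h
      rw [map_sub, map_pow, map_one, sub_eq_zero] at this
      exact this
    have e2 : φ (zt p) ^ p = 1 := by rw [← map_pow, zt_pow, map_one]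
    have h2 := Nat.dvd_gcd (orderOf_dvd_of_pow_eq_one e2) (orderOf_dvd_of_pow_eq_one e1)
    rw [hcop.gcd_eq_one, Nat.dvd_one, orderOf_eq_one_iff] at h2
    rw [← hφ, map_sub, map_one, h2, sub_self]
  obtain ⟨u, v, huv⟩ := inv_mod p hr hrp
  apply hl.ne_top
  rw [Ideal.eq_top_iff_one, ← huv]
  refine l.add_mem (l.mul_mem_left _ ?_) (l.mul_mem_left _ hrl)
  have : (1 - zt p) = -(zt p - 1) := by ring
  rw [this]
  exact l.neg_mem h1

theorem pat0 (hr : r.Prime) {A T B : ℤ} (hA : ¬ (r : ℤ) ∣ A) (hT : (r : ℤ) ∣ T)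
    (hB : (r : ℤ) ∣ B) : Pat p r (Fz p A T B) 0 1 := by
  refine ⟨Or.inl rfl, ?_, fun l hl hrl h => ?_⟩
  · have h1 : Fz p A T B - ((1 : ℤ) : Oc p) * zt p ^ 0 * cc p (Fz p A T B) =
        (T : Oc p) * (zt p - cc p (zt p)) + (B : Oc p) * (zt p ^ 2 - cc p (zt p) ^ 2) := by
      rw [cc_Fz']
      unfold Fz
      push_cast
      ring
    rw [h1]
    exact dvd_add (Dvd.dvd.mul_right (cast_dvd hT) _) (Dvd.dvd.mul_right (cast_dvd hB) _)
  · apply int_notMem hr hl hrl hA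
    have h1 : (A : Oc p) = Fz p A T B - (T * zt p + B * zt p ^ 2) := by
      unfold Fz
      ring
    rw [h1]
    exact l.sub_mem h (l.add_mem (l.mul_mem_right _ (int_mem hrl hT))
      (l.mul_mem_right _ (int_mem hrl hB)))

theorem pat4 (hr : r.Prime) {A T B : ℤ} (hA : (r : ℤ) ∣ A) (hT : (r : ℤ) ∣ T)
    (hB : ¬ (r : ℤ) ∣ B) : Pat p r (Fz p A T B) 4 1 := by
  refine ⟨Or.inl rfl, ?_, fun l hl hrl h => ?_⟩
  · have h1 : Fz p A T B - ((1 : ℤ) : Oc p) * zt p ^ 4 * cc p (Fz p A T B) =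
        (A : Oc p) * (1 - zt p ^ 4) + (T : Oc p) * (zt p - zt p ^ 3) := by
      rw [cc_Fz']
      unfold Fz
      push_cast
      have hz := zcc (p := p)
      linear_combination (-(T : Oc p) * zt p ^ 3 - (B : Oc p) * zt p ^ 2 *
        (zt p * cc p (zt p) + 1)) * hz
    rw [h1]
    exact dvd_add (Dvd.dvd.mul_right (cast_dvd hA) _) (Dvd.dvd.mul_right (cast_dvd hT) _)
  · have h1 : (B : Oc p) * zt p ^ 2 = Fz p A T B - (A + T * zt p) := by
      unfold Fz
      ring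
    have h2 : (B : Oc p) * zt p ^ 2 ∈ l := by
      rw [h1]
      exact l.sub_mem h (l.add_mem (int_mem hrl hA) (l.mul_mem_right _ (int_mem hrl hT)))
    rcases hl.mem_or_mem h2 with h3 | h3
    · exact int_notMem hr hl hrl hB h3
    · exact zt_notMem hl (hl.mem_of_pow_mem _ h3)

theorem pat2_dv {A T B : ℤ} (h : (r : ℤ) ∣ A - B) :
    (r : Oc p) ∣ Fz p A T B - ((1 : ℤ) : Oc p) * zt p ^ 2 * cc p (Fz p A T B) := by
  have h1 : Fz p A T B - ((1 : ℤ) : Oc p) * zt p ^ 2 * cc p (Fz p A T B) =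
      ((A - B : ℤ) : Oc p) * (1 - zt p ^ 2) := by
    rw [cc_Fz']
    unfold Fz
    push_cast
    have hz := zcc (p := p)
    linear_combination (-(T : Oc p) * zt p - (B : Oc p) *
        (zt p * cc p (zt p) + 1)) * hz
  rw [h1]
  exact Dvd.dvd.mul_right (cast_dvd h) _

theorem pat2 (hr : r.Prime) {A T B : ℤ} (hA : (r : ℤ) ∣ A) (hT : ¬ (r : ℤ) ∣ T)
    (hB : (r : ℤ) ∣ B) : Pat p r (Fz p A T B) 2 1 := by
  refine ⟨Or.inl rfl, pat2_dv (dvd_sub hA hB), fun l hl hrl h => ?_⟩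
  have h1 : (T : Oc p) * zt p = Fz p A T B - (A + B * zt p ^ 2) := by
    unfold Fz
    ring
  have h2 : (T : Oc p) * zt p ∈ l := by
    rw [h1]
    exact l.sub_mem h (l.add_mem (int_mem hrl hA) (l.mul_mem_right _ (int_mem hrl hB)))
  rcases hl.mem_or_mem h2 with h3 | h3
  · exact int_notMem hr hl hrl hT h3
  · exact zt_notMem hl h3

theorem pat2' (hr : r.Prime) (hrp : r ≠ p) (h5 : 5 ≤ p) {A T B : ℤ} (hA : ¬ (r : ℤ) ∣ A)
    (hAB : (r : ℤ) ∣ A - B) (hT : (r : ℤ) ∣ T + A) : Pat p r (Fz p A T B) 2 1 := by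
  have hp : p.Prime := Fact.out
  refine ⟨Or.inl rfl, pat2_dv hAB, fun l hl hrl h => ?_⟩
  have h1 : (A : Oc p) * (1 - zt p + zt p ^ 2) = Fz p A T B - (((T + A : ℤ) : Oc p) * zt p -
      ((A - B : ℤ) : Oc p) * zt p ^ 2) := by
    unfold Fz
    push_cast
    ring
  have h2 : (A : Oc p) * (1 - zt p + zt p ^ 2) ∈ l := by
    rw [h1]
    exact l.sub_mem h (l.sub_mem (l.mul_mem_right _ (int_mem hrl hT))
      (l.mul_mem_right _ (int_mem hrl hAB)))
  rcases hl.mem_or_mem h2 with h3 | h3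
  · exact int_notMem hr hl hrl hA h3
  · have h6 : ¬ p ∣ 6 := by
      intro h6
      have h7 : p ∣ 2 * 3 := h6
      rcases (Nat.Prime.dvd_mul hp).mp h7 with h8 | h8
      · have := Nat.le_of_dvd (by norm_num) h8
        omega
      · have := Nat.le_of_dvd (by norm_num) h8
        omega
    apply zt_pow_notMem hr hrp hl hrl h6
    have h4 : zt p ^ 6 - 1 = (1 - zt p + zt p ^ 2) * ((1 + zt p) * (zt p ^ 3 - 1)) := by ring
    rw [h4]
    exact l.mul_mem_right _ h3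

theorem pat1 (hr : r.Prime) (hrp : r ≠ p) {A T B : ℤ} (hA : ¬ (r : ℤ) ∣ A)
    (hT : (r : ℤ) ∣ T + A) (hB : (r : ℤ) ∣ B) : Pat p r (Fz p A T B) 1 (-1) := by
  have hp : p.Prime := Fact.out
  refine ⟨Or.inr rfl, ?_, fun l hl hrl h => ?_⟩
  · have h1 : Fz p A T B - ((-1 : ℤ) : Oc p) * zt p ^ 1 * cc p (Fz p A T B) =
        ((T + A : ℤ) : Oc p) * (1 + zt p) + (B : Oc p) * (zt p ^ 2 + cc p (zt p)) := by
      rw [cc_Fz']
      unfold Fz
      push_cast
      have hz := zcc (p := p)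
      linear_combination ((T : Oc p) + (B : Oc p) * cc p (zt p)) * hz
    rw [h1]
    exact dvd_add (Dvd.dvd.mul_right (cast_dvd hT) _) (Dvd.dvd.mul_right (cast_dvd hB) _)
  · have h1 : (A : Oc p) * (zt p - 1) = -(Fz p A T B - (((T + A : ℤ) : Oc p) * zt p +
        (B : Oc p) * zt p ^ 2)) := by
      unfold Fz
      push_cast
      ring
    have h2 : (A : Oc p) * (zt p - 1) ∈ l := by
      rw [h1]
      exact l.neg_mem (l.sub_mem h (l.add_mem (l.mul_mem_right _ (int_mem hrl hT))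
        (l.mul_mem_right _ (int_mem hrl hB))))
    rcases hl.mem_or_mem h2 with h3 | h3
    · exact int_notMem hr hl hrl hA h3
    · have h4 : ¬ p ∣ 1 := by
        rw [Nat.dvd_one]
        exact hp.one_lt.ne'
      apply zt_pow_notMem hr hrp hl hrl h4
      rwa [pow_one]

theorem pat3 (hr : r.Prime) (hrp : r ≠ p) {A T B : ℤ} (hA : (r : ℤ) ∣ A)
    (hT : (r : ℤ) ∣ T + B) (hB : ¬ (r : ℤ) ∣ B) : Pat p r (Fz p A T B) 3 (-1) := by
  have hp : p.Prime := Fact.out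
  refine ⟨Or.inr rfl, ?_, fun l hl hrl h => ?_⟩
  · have h1 : Fz p A T B - ((-1 : ℤ) : Oc p) * zt p ^ 3 * cc p (Fz p A T B) =
        (A : Oc p) * (1 + zt p ^ 3) + ((T + B : ℤ) : Oc p) * (zt p + zt p ^ 2) := by
      rw [cc_Fz']
      unfold Fz
      push_cast
      have hz := zcc (p := p)
      linear_combination ((T : Oc p) * zt p ^ 2 + (B : Oc p) * zt p *
        (zt p * cc p (zt p) + 1)) * hz
    rw [h1]
    exact dvd_add (Dvd.dvd.mul_right (cast_dvd hA) _) (Dvd.dvd.mul_right (cast_dvd hT) _)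
  · have h1 : (B : Oc p) * (zt p * (zt p - 1)) = Fz p A T B - ((A : Oc p) +
        ((T + B : ℤ) : Oc p) * zt p) := by
      unfold Fz
      push_cast
      ring
    have h2 : (B : Oc p) * (zt p * (zt p - 1)) ∈ l := by
      rw [h1]
      exact l.sub_mem h (l.add_mem (int_mem hrl hA) (l.mul_mem_right _ (int_mem hrl hT)))
    rcases hl.mem_or_mem h2 with h3 | h3
    · exact int_notMem hr hl hrl hB h3
    · rcases hl.mem_or_mem h3 with h4 | h4
      · exact zt_notMem hl h4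
      · have h5 : ¬ p ∣ 1 := by
          rw [Nat.dvd_one]
          exact hp.one_lt.ne'
        apply zt_pow_notMem hr hrp hl hrl h5
        rwa [pow_one]

end PAT_

end Pool.Agent.FCN
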