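import Pool.Agent.FCN.Targets
import Pool.Agent.FCW.Rec

/-!
# Furtwängler's theorem over quadratic fields: the reciprocity laws
-/

open NumberField

namespace Pool.Agent.FCN

open Pool.Agent.FCW

/-- `β ≡ s ζ^M conj(β)` modulo `r`, and `β` is a unit modulo `r` -/
structure Pat (p r : ℕ) [Fact p.Prime] (β : Oc p) (M : ℕ) (s : ℤ) : Prop where
  hs : s = 1 ∨ s = -1
  dv : (r : Oc p) ∣ β - (s : Oc p) * zt p ^ M * cc p β
  nu : ∀ l : Ideal (Oc p), l.IsPrime → (r : Oc p) ∈ l → β ∉ l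

/-- the reciprocity law for a pair whose third variable is prime to `p` -/
theorem recr (hKEY : T_KEYR) (hTWO : T_TWOR) (hPAD : T_PAD) (hHARM : T_HARM) (hPRM : T_PRM)
    (p : ℕ) [Fact p.Prime] (h5 : 5 ≤ p) (hW : ¬ p ^ 2 ∣ 2 ^ (p - 1) - 1) (r : ℕ) (hr : r.Prime)
    (hrp : r ≠ p) (hWr : ¬ p ^ 2 ∣ r ^ (p - 1) - 1) {A T B : ℤ} (hprim : Prim A T B)
    (hN : ¬ (p : ℤ) ∣ A + T + B) (hb : ∃ b : Ideal (Oc p), Ideal.span {Fz p A T B} = b ^ p)
    {M : ℕ} {s : ℤ} (hM : Pat p r (Fz p A T B) M s) :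
    (p : ℤ) ∣ M * (A + T + B) - 2 * (T + 2 * B) := by
  have hp : p.Prime := Fact.out
  obtain ⟨b, hb⟩ := hb
  have hP := hPRM p A T B hprim hN
  have hβ0 : Fz p A T B ≠ 0 := Fz_ne_zero (by omega) hN
  have hPM : PM p b := by
    intro l hl hbl q hq hql
    refine hP l hl ?_ q hq hql
    have h1 : Fz p A T B ∈ b ^ p := by
      rw [← hb]
      exact Ideal.mem_span_singleton_self _
    exact hbl (Ideal.pow_le_self hp.ne_zero h1)
  obtain ⟨γ, n, i, e, hk, hrn⟩ := hKEY p h5 (Fz p A T B) b hβ0 hb hPM r hr hM.nu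
  have hpad := hPAD p h5 A T B hN γ n i e hk
  rcases hTWO p h5 r hr hrp (Fz p A T B) M s hM.hs hM.dv hM.nu γ n i e hk hrn with h3 | h3
  · have hH : Hs p ≠ 0 := fun h => hW (hHARM p (by omega) h)
    have h4 : ((M : ZMod p) * ((A + T + B : ℤ) : ZMod p) - 2 * ((T + 2 * B : ℤ) : ZMod p)) = 0 := by
      apply mul_right_cancel₀ hH
      rw [h3] at hpad
      linear_combination hpad
    rw [← ZMod.intCast_zmod_eq_zero_iff_dvd]
    push_cast at h4 ⊢
    exact h4
  · exact absurd h3 hWr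

/-- `1 - ζ` is invertible modulo `r` -/
theorem inv_mod (p : ℕ) [Fact p.Prime] {r : ℕ} (hr : r.Prime) (hrp : r ≠ p) :
    ∃ u v : Oc p, u * (1 - zt p) + v * (r : Oc p) = 1 := by
  have hp : p.Prime := Fact.out
  have h1 : IsCoprime (r : ℤ) (p : ℤ) := by
    rw [Nat.isCoprime_iff_coprime]
    exact (Nat.coprime_primes hr hp).mpr hrp
  obtain ⟨a, b, hab⟩ := h1
  obtain ⟨c, hc⟩ : zt p - 1 ∣ (p : Oc p) :=
    (IsCyclotomicExtension.zeta_spec p ℚ (Cy p)).toInteger_sub_one_dvd_prime'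
  refine ⟨-(b * c), a, ?_⟩
  have h2 : (a : Oc p) * (r : Oc p) + (b : Oc p) * (p : Oc p) = 1 := by
    have := congrArg (fun t : ℤ => (t : Oc p)) hab
    push_cast at this
    exact this
  rw [hc] at h2
  linear_combination h2

theorem dvd_of_mul (p : ℕ) [Fact p.Prime] {r : ℕ} (hr : r.Prime) (hrp : r ≠ p) {x : Oc p}
    (h : (r : Oc p) ∣ (1 - zt p) * x) : (r : Oc p) ∣ x := by
  obtain ⟨u, v, huv⟩ := inv_mod p hr hrp
  have h1 : x = u * ((1 - zt p) * x) + (r : Oc p) * (v * x) := by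
    linear_combination -x * huv
  rw [h1]
  exact dvd_add (Dvd.dvd.mul_left h u) (Dvd.intro _ rfl)

/-- the reciprocity law for an extended pair -/
theorem recx (hKEY : T_KEYR) (hTWO : T_TWOR) (hPAD : T_PADG) (hHARM : T_HARM) (hPRM : T_PRMX)
    (p : ℕ) [Fact p.Prime] (h5 : 5 ≤ p) (hW : ¬ p ^ 2 ∣ 2 ^ (p - 1) - 1) (r : ℕ) (hr : r.Prime)
    (hrp : r ≠ p) (hWr : ¬ p ^ 2 ∣ r ^ (p - 1) - 1) {A T B : ℤ} (hprim : Prim A T B)
    (hN : (p : ℤ) ∣ A + T + B) (hB : (p : ℤ) ∣ B) (hT : ¬ (p : ℤ) ∣ T + 2 * B)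
    (hb : ∃ (β₁ : Oc p) (b : Ideal (Oc p)), (1 - zt p) * β₁ = Fz p A T B ∧
      Ideal.span {β₁} = b ^ p)
    {M : ℕ} {s : ℤ} (hM : Pat p r (Fz p A T B) M s) :
    (p : ℤ) ∣ M - 1 := by
  have hp : p.Prime := Fact.out
  obtain ⟨β₁, b, hβ, hb⟩ := hb
  have hζ := IsCyclotomicExtension.zeta_spec p ℚ (Cy p)
  have hζ1 : (1 - zt p) ≠ 0 := by
    intro h
    have h1 := (zt_prim p).ne_one hp.one_lt
    exact h1 (by linear_combination -h)
  have hass : Associated ((zt p - 1) ^ (p - 1)) (p : Oc p) :=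
    IsCyclotomicExtension.Rat.associated_zeta_sub_one_pow_prime p hζ
  -- `p` is divisible by `(ζ - 1)³`
  obtain ⟨c, hc⟩ : (zt p - 1) ^ 3 ∣ (p : Oc p) := (pow_dvd_pow _ (by omega)).trans hass.dvd
  obtain ⟨f, hf⟩ := hN
  obtain ⟨b', hb'⟩ := hB
  have hβ1 : β₁ = -((T + 2 * B : ℤ) : Oc p) - (zt p - 1) ^ 2 * (f * c) -
      (zt p - 1) ^ 4 * (b' * c) := by
    apply mul_left_cancel₀ hζ1
    rw [hβ]
    have e1 : (A : Oc p) + T + B = p * f := by exact_mod_cast congrArg (Int.cast : ℤ → Oc p) hf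
    have e2 : (B : Oc p) = p * b' := by exact_mod_cast congrArg (Int.cast : ℤ → Oc p) hb'
    unfold Fz
    push_cast
    rw [hc] at e1 e2
    linear_combination e1 + (zt p - 1) ^ 2 * e2
  have hβ10 : β₁ ≠ 0 := by
    intro h0
    rw [h0, mul_zero] at hβ
    obtain ⟨Q, hQm, hQ⟩ : ∃ l : Ideal (Oc p), l.IsPrime ∧ (r : Oc p) ∈ l := by
      have h1 : ¬ IsUnit (r : Oc p) := by
        intro hu
        have h1 := hu.map (Algebra.norm ℤ)
        have h2 : Algebra.norm ℤ ((r : ℕ) : Oc p) = (r : ℤ) ^ Module.finrank ℤ (Oc p) := by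
          have := Algebra.norm_algebraMap (S := Oc p) (r : ℤ)
          simpa using this
        rw [h2, isUnit_pow_iff (Module.finrank_pos).ne'] at h1
        have := hr.two_le
        rcases Int.isUnit_iff.1 h1 with h3 | h3 <;> omega
      obtain ⟨l, hl, hrl⟩ := exists_max_ideal_of_mem_nonunits h1
      exact ⟨l, hl.isPrime, hrl⟩
    exact hM.nu Q hQm hQ (by rw [← hβ]; exact Q.zero_mem)
  have hmem : ∀ l : Ideal (Oc p), β₁ ∈ l → Fz p A T B ∈ l := by
    intro l h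
    rw [← hβ]
    exact l.mul_mem_left _ h
  have hPM : PM p b := by
    intro l hl hbl q hq hql
    have h1 : β₁ ∈ l := by
      have h1 : β₁ ∈ b ^ p := by
        rw [← hb]
        exact Ideal.mem_span_singleton_self _
      exact hbl (Ideal.pow_le_self hp.ne_zero h1)
    by_cases hqp : q = p
    · exfalso
      subst hqp
      have h2 : zt q - 1 ∈ l := by
        obtain ⟨u, hu⟩ := hass.symm
        apply hl.mem_of_pow_mem (q - 1)
        rw [← hu]
        exact l.mul_mem_right _ hql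
      have h3 : ((T + 2 * B : ℤ) : Oc q) ∈ l := by
        have h4 : ((T + 2 * B : ℤ) : Oc q) = -β₁ - (zt q - 1) * ((zt q - 1) * (f * c) +
            (zt q - 1) ^ 3 * (b' * c)) := by
          rw [hβ1]
          ring
        rw [h4]
        exact l.sub_mem (l.neg_mem h1) (l.mul_mem_right _ h2)
      have hcop : IsCoprime (q : ℤ) (T + 2 * B) :=
        (Int.isCoprime_iff_gcd_eq_one.mpr (((Nat.Prime.coprime_iff_not_dvd hp).mpr (by
          intro h1
          exact hT (Int.natCast_dvd.mpr h1)))))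
      obtain ⟨u, v, huv⟩ := hcop
      apply hl.ne_top
      rw [Ideal.eq_top_iff_one]
      have h5 : (1 : Oc q) = (u : Oc q) * (q : Oc q) + (v : Oc q) * ((T + 2 * B : ℤ) : Oc q) := by
        have := congrArg (fun t : ℤ => (t : Oc q)) huv
        push_cast at this ⊢
        exact this.symm
      rw [h5]
      exact l.add_mem (l.mul_mem_left _ hql) (l.mul_mem_left _ h3)
    · exact hPRM p A T B hprim l hl (hmem l h1) q hq hqp hql
  have hnu : ∀ l : Ideal (Oc p), l.IsPrime → (r : Oc p) ∈ l → β₁ ∉ l :=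
    fun l hl hrl h => hM.nu l hl hrl (hmem l h)
  obtain ⟨γ, n, i, e, hk, hrn⟩ := hKEY p h5 β₁ b hβ10 hb hPM r hr hnu
  have hpad := hPAD p h5 β₁ (-(T + 2 * B)) 0 (by rwa [dvd_neg]) (by
    rw [hβ1]
    refine ⟨-(f * c) - (zt p - 1) ^ 2 * (b' * c), ?_⟩
    push_cast
    ring) γ n i e hk
  have hzz : zt p * cc p (zt p) = 1 := by
    have h1 := cc_zv p 1
    rw [zv_one] at h1
    rw [h1, ← zv_one p, ← zv_add, add_neg_cancel, zv_zero]
  have hzp : zt p * zt p ^ (p - 1) = 1 := by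
    rw [← pow_succ', Nat.sub_add_cancel hp.one_le, zt_pow]
  have hccz : cc p (zt p) = zt p ^ (p - 1) := by
    have h1 : zt p ≠ 0 := left_ne_zero_of_mul_eq_one hzz
    exact mul_left_cancel₀ h1 (hzz.trans hzp.symm)
  have hdv : (r : Oc p) ∣ β₁ - ((-s : ℤ) : Oc p) * zt p ^ (M + (p - 1)) * cc p β₁ := by
    apply dvd_of_mul p hr hrp
    have h1 : (1 - zt p) * (β₁ - ((-s : ℤ) : Oc p) * zt p ^ (M + (p - 1)) * cc p β₁) =
        Fz p A T B - (s : Oc p) * zt p ^ M * cc p (Fz p A T B) := by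
      rw [← hβ, map_mul, map_sub, map_one, hccz, pow_add]
      push_cast
      linear_combination (-(s : Oc p) * zt p ^ M * cc p β₁) * hzp
    rw [h1]
    exact hM.dv
  have hs' : -s = 1 ∨ -s = -1 := by
    rcases hM.hs with h | h
    · right; rw [h]
    · left; rw [h]; norm_num
  rcases hTWO p h5 r hr hrp β₁ (M + (p - 1)) (-s) hs' hdv hnu γ n i e hk hrn with h3 | h3
  · have hH : Hs p ≠ 0 := fun h => hW (hHARM p (by omega) h)
    have hT' : ((T + 2 * B : ℤ) : ZMod p) ≠ 0 := by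
      rwa [Ne, ZMod.intCast_zmod_eq_zero_iff_dvd]
    rw [← ZMod.intCast_zmod_eq_zero_iff_dvd]
    have h5' : ((M + (p - 1) : ℕ) : ZMod p) = (M : ZMod p) - 1 := by
      rw [Nat.cast_add, Nat.cast_sub hp.one_le, ZMod.natCast_self]
      push_cast
      ring
    push_cast at hpad
    rw [mul_zero, zero_mul] at hpad
    have h6 : (i : ZMod p) = 0 := by
      rcases mul_eq_zero.mp hpad with h | h
      · exact h
      · exfalso
        apply hT'
        push_cast
        linear_combination -h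
    rw [h3, h5'] at h6
    rcases mul_eq_zero.mp h6 with h | h
    · push_cast
      exact h
    · exact absurd h hH
  · exact absurd h3 hWr

end Pool.Agent.FCN
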