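import Pool.Agent.FCN.LOC
import Pool.Agent.FCM.All

/-!
# Furtwängler's theorem over quadratic fields: the primes above `p`
-/

open NumberField

namespace Pool.Agent.FCN

open Pool.Agent.FCW Pool.Agent.FCM

namespace SID_

variable {K : Type} [Field K] [NumberField K]
variable {τ : 𝓞 K ≃+* 𝓞 K} {p : ℕ} [Fact p.Prime] {X : Fin 3 → 𝓞 K} {g : ℤ} {N : Fin 3 → ℤ}
  {T : Fin 3 → Fin 3 → ℤ} {P : Ideal (𝓞 K)}

/-- first case primes above `p` -/
theorem ls0_p (hK : Module.finrank ℚ K = 2) (hτ : IsConj K τ) (h5 : 5 ≤ p)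
    (hW : ¬ p ^ 2 ∣ 2 ^ (p - 1) - 1) (hD : Dat τ p X g N T) (hP : Pl τ p X P)
    (h1 : ∀ i, X i ∉ P) : (∀ i, τ (X i) ∉ P) ∧ S0 p N T := by
  have hp : p.Prime := Fact.out
  have mir : ∀ u v w, u ≠ v → u ≠ w → v ≠ w → τ (X u) ∉ P → τ (X w) ∉ P →
      (p : ℤ) ∣ T u v * (N u - N v) := by
    intro u v w huv huw hvw hu hw
    exact mirim p_POW p_SFQ all_MIR hK hτ h5 hW hP.pr hP.mem (hD.ne u) (hD.ne v)
      (hD.sum u v w huv huw hvw) (h1 u) hu (h1 w) hw hD.g0 (hD.nf u v huv)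
  have hn : ∀ i, τ (X i) ∉ P := by
    intro v hv
    obtain ⟨u, huv⟩ := CMP_.other v
    obtain ⟨w, hwv, hwu⟩ := CMP_.third v u (Ne.symm huv)
    have hu := hP.cop' v u (Ne.symm huv) hv
    have hw := hP.cop' v w (Ne.symm hwv) hv
    exact locp' hp hP.pr hP.mem (hD.nf u v huv) (h1 u) (h1 v) hu hv
      (mir u v w huv (Ne.symm hwu) (Ne.symm hwv) hu hw)
  refine ⟨hn, fun u v huv => ?_⟩
  obtain ⟨w, hwu, hwv⟩ := CMP_.third u v huv
  have huw := Ne.symm hwu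
  have hvw := Ne.symm hwv
  have cop : ∀ i j k, IsCoprime (X i * X j * X k) (p : 𝓞 K) := by
    intro i j k
    have h3 : ∀ f : 𝓞 K →+* 𝓞 K, (∀ i, f (X i) ∉ P) → f (X i * X j * X k) ∉ P := by
      intro f hf h
      rw [map_mul, map_mul] at h
      rcases hP.pr.mem_or_mem h with h | h
      · rcases hP.pr.mem_or_mem h with h | h
        · exact hf i h
        · exact hf j h
      · exact hf k h
    exact EP_.coprime_of hτ hP.pr hP.mem (h3 (RingHom.id _) h1) (h3 (τ : 𝓞 K →+* 𝓞 K) hn)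
  have md : ∀ i j k, i ≠ j → i ≠ k → j ≠ k →
      ¬ (p : ℤ) ∣ N i ∧ (p : ℤ) ∣ 2 * N i + T i j + T i k := by
    intro i j k hij hik hjk
    exact p_MODP K τ hτ p hp (X i) (X j) (X k) (hD.sum i j k hij hik hjk) (cop i j k) g (N i)
      (N j) (N k) _ _ hD.g0 (hD.nf i j hij).hA (hD.nf i j hij).hT (hD.nf i k hik).hT
  have cz : ∀ n : ℤ, (p : ℤ) ∣ n → ((n : ℤ) : ZMod p) = 0 := fun n h =>
    (ZMod.intCast_zmod_eq_zero_iff_dvd n p).mpr h
  have zc : ∀ n : ℤ, ((n : ℤ) : ZMod p) = 0 → (p : ℤ) ∣ n := fun n h =>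
    (ZMod.intCast_zmod_eq_zero_iff_dvd n p).mp h
  obtain ⟨A0, F₁⟩ := md u v w huv huw hvw
  obtain ⟨B0, F₂⟩ := md v u w (Ne.symm huv) hvw huw
  obtain ⟨C0, F₃⟩ := md w u v hwu hwv huv
  have M₁ := cz _ (mir u v w huv huw hvw (hn u) (hn w))
  have M₂ := cz _ (mir u w v huw huv (Ne.symm hvw) (hn u) (hn v))
  replace F₁ := cz _ F₁
  replace F₂ := cz _ F₂
  replace F₃ := cz _ F₃
  rw [hD.sym v u] at F₂
  rw [hD.sym w u, hD.sym w v] at F₃
  replace A0 : (N u : ZMod p) ≠ 0 := fun h => A0 (zc _ h)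
  replace B0 : (N v : ZMod p) ≠ 0 := fun h => B0 (zc _ h)
  replace C0 : (N w : ZMod p) ≠ 0 := fun h => C0 (zc _ h)
  push_cast at F₁ F₂ F₃ M₁ M₂
  have two : (2 : ZMod p) ≠ 0 := by
    have := Fin_.cast_ne (p := p) (n := 2) (by norm_num) (by omega)
    exact_mod_cast this
  have G₁ : (N u : ZMod p) + N v + T u v - N w = 0 := by
    apply mul_left_cancel₀ two
    linear_combination F₁ + F₂ - F₃
  have G₂ : (N u : ZMod p) + N w + T u w - N v = 0 := by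
    apply mul_left_cancel₀ two
    linear_combination F₁ + F₃ - F₂
  have hab : (N v : ZMod p) = N u ∧ (N w : ZMod p) = N u := by
    rcases mul_eq_zero.mp M₁ with h1 | h1
    · exfalso
      have h2 : (T u w : ZMod p) = -(2 * N u) := by linear_combination G₂ + G₁ - h1
      rw [h2] at M₂
      rcases mul_eq_zero.mp M₂ with h3 | h3
      · exact mul_ne_zero two A0 (neg_eq_zero.mp h3)
      · apply B0
        linear_combination G₁ - h1 - h3
    · have h2 : (N v : ZMod p) = N u := by linear_combination -h1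
      refine ⟨h2, ?_⟩
      have h3 : (T u w : ZMod p) = -N w := by linear_combination G₂ - h1
      rw [h3] at M₂
      rcases mul_eq_zero.mp M₂ with h4 | h4
      · exact absurd (neg_eq_zero.mp h4) C0
      · linear_combination -h4
  obtain ⟨hba, hca⟩ := hab
  refine ⟨fun h => A0 (cz _ h), zc _ ?_, zc _ ?_⟩
  · push_cast
    linear_combination -hba
  · push_cast
    linear_combination G₁ - hba + hca

/-- the relation for a pair whose third variable is prime to `p` -/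
theorem rl (hKEY : T_KEYR) (hTWO : T_TWOR) (hK : Module.finrank ℚ K = 2) (hτ : IsConj K τ)
    (h5 : 5 ≤ p) (hW : ¬ p ^ 2 ∣ 2 ^ (p - 1) - 1) {r : ℕ} (hr : r.Prime) (hrp : r ≠ p)
    (hWr : ¬ p ^ 2 ∣ r ^ (p - 1) - 1) (hD : Dat τ p X g N T) (hP : Pl τ p X P) {i j k : Fin 3}
    (hij : i ≠ j) (hik : i ≠ k) (hjk : j ≠ k) (h1 : X k ∉ P) (h2 : τ (X k) ∉ P)
    (h3 : ¬ (p : ℤ) ∣ N i + T i j + N j) : Rl p r N T i j := by
  intro M s hM
  exact recr hKEY hTWO p_PAD p_HARM p_PRM p h5 hW r hr hrp hWr (hD.nf i j hij).prim h3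
    (p_POW K hK τ hτ p h5 (X i) (X j) (X k) (hD.ne i) (hD.ne j) (hD.sum i j k hij hik hjk)
      (EP_.coprime_of hτ hP.pr hP.mem h1 h2) g _ _ _ hD.g0 (hD.nf i j hij)) hM

/-- the relation for an extended pair -/
theorem rlx (hKEY : T_KEYR) (hTWO : T_TWOR) (hPAD : T_PADG) (hPRM : T_PRMX) (hPOW : T_POWX)
    (hK : Module.finrank ℚ K = 2) (hτ : IsConj K τ)
    (h5 : 5 ≤ p) (hW : ¬ p ^ 2 ∣ 2 ^ (p - 1) - 1) {r : ℕ} (hr : r.Prime) (hrp : r ≠ p)
    (hWr : ¬ p ^ 2 ∣ r ^ (p - 1) - 1) (hD : Dat τ p X g N T) {i j k : Fin 3}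
    (hij : i ≠ j) (hik : i ≠ k) (hjk : j ≠ k)
    (h1 : (p : ℤ) ∣ N i + T i j + N j) (h2 : (p : ℤ) ∣ N j) (h3 : ¬ (p : ℤ) ∣ T i j + 2 * N j) :
    RlX p r N T i j := by
  intro M s hM
  exact recx hKEY hTWO hPAD p_HARM hPRM p h5 hW r hr hrp hWr (hD.nf i j hij).prim h1 h2 h3
    (hPOW K hK τ hτ p h5 (X i) (X j) (X k) (hD.ne i) (hD.ne j) (hD.sum i j k hij hik hjk)
      g _ _ _ hD.g0 (hD.nf i j hij) h1 h3) hM

end SID_

end Pool.Agent.FCN
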