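import Pool.Agent.FCN.Final
import Pool.Agent.FCN.All

/-!
# Even exponents: the third variable is prime to `2p`
-/

open NumberField IsDedekindDomain

namespace Pool.Agent.FCN

open Pool.Agent.FCW Pool.Agent.FCM

namespace TERJ_

variable {K : Type} [Field K] [NumberField K]

omit [NumberField K] in
/-- `-1` is not a square modulo `Q²` if `Q` is unramified over `2` -/
theorem unram {Q : Ideal (𝓞 K)} (hQ : Q.IsPrime) (hm : Q.IsMaximal) (h2 : (2 : 𝓞 K) ∈ Q)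
    (h2' : (2 : 𝓞 K) ∉ Q ^ 2) {X Y : 𝓞 K} (hY : Y ∉ Q) (h : X ^ 2 + Y ^ 2 ∈ Q ^ 2) : False := by
  have h1 : X - Y ∈ Q := by
    apply hQ.mem_of_pow_mem 2
    have e : (X - Y) ^ 2 = (X ^ 2 + Y ^ 2) - 2 * (X * Y) := by ring
    rw [e]
    exact Q.sub_mem (Ideal.pow_le_self two_ne_zero h) (Q.mul_mem_right _ h2)
  have hsq : ∀ a b : 𝓞 K, a ∈ Q → b ∈ Q → a * b ∈ Q ^ 2 := by
    intro a b ha hb
    rw [sq]
    exact Ideal.mul_mem_mul ha hb
  have h3 : 2 * Y ^ 2 ∈ Q ^ 2 := by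
    have e : 2 * Y ^ 2 = (X ^ 2 + Y ^ 2) - 2 * (X - Y) * Y - (X - Y) * (X - Y) := by ring
    rw [e]
    exact (Q ^ 2).sub_mem ((Q ^ 2).sub_mem h ((Q ^ 2).mul_mem_right _ (hsq _ _ h2 h1)))
      (hsq _ _ h1 h1)
  obtain ⟨t, q, hq, ht⟩ : ∃ t q : 𝓞 K, q ∈ Q ∧ t * Y ^ 2 + q = 1 := by
    have hY2 : Y ^ 2 ∉ Q := fun h => hY (hQ.mem_of_pow_mem _ h)
    obtain ⟨t, ht⟩ := hm.exists_inv hY2
    obtain ⟨q, hq, hqe⟩ := ht
    exact ⟨t, q, hq, hqe⟩
  apply h2'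
  have e : (2 : 𝓞 K) = t * (2 * Y ^ 2) + 2 * q := by linear_combination -2 * ht
  rw [e]
  exact (Q ^ 2).add_mem ((Q ^ 2).mul_mem_left _ h3) (hsq _ _ h2 hq)

/-- a ramified prime above `2` -/
theorem ram_eq (hK : Module.finrank ℚ K = 2) {Q : Ideal (𝓞 K)} (hQ : Q.IsPrime)
    (h2' : (2 : 𝓞 K) ∈ Q ^ 2) : Q ^ 2 = Ideal.span {(2 : 𝓞 K)} := by
  have hle : Ideal.span {(2 : 𝓞 K)} ≤ Q ^ 2 := (Ideal.span_singleton_le_iff_mem _).mpr h2'
  obtain ⟨J, hJ⟩ := Ideal.dvd_iff_le.mpr hle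
  have hn2 : Ideal.absNorm (Ideal.span {(2 : 𝓞 K)}) = 4 := by
    rw [Ideal.absNorm_span_singleton]
    have h1 : Algebra.norm ℤ (2 : 𝓞 K) = 2 ^ Module.finrank ℤ (𝓞 K) := by
      have := Algebra.norm_algebraMap (S := 𝓞 K) (2 : ℤ)
      simpa using this
    rw [h1, RingOfIntegers.rank, hK]
    rfl
  have hn := congrArg Ideal.absNorm hJ
  rw [hn2, map_mul, map_pow] at hn
  have hQ1 : Ideal.absNorm Q ≠ 1 := by
    rw [Ne, Ideal.absNorm_eq_one_iff]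
    exact hQ.ne_top
  have hQ0 : Ideal.absNorm Q ≠ 0 := by
    intro h
    rw [h] at hn
    norm_num at hn
  have hJ1 : Ideal.absNorm J = 1 := by
    have h3 : 2 ≤ Ideal.absNorm Q := by omega
    have h4 : 4 ≤ Ideal.absNorm Q ^ 2 := by nlinarith
    rcases Nat.lt_or_ge (Ideal.absNorm J) 2 with h5 | h5
    · interval_cases hj : Ideal.absNorm J
      · omega
      · rfl
    · nlinarith
  rw [Ideal.absNorm_eq_one_iff] at hJ1
  rw [hJ, hJ1, ← Ideal.one_eq_top, mul_one]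

/-- the arithmetic at a ramified prime above `2` -/
theorem arith2 {T N w E G r d : ℤ} (hd : Squarefree d) (hw : ¬ (2 : ℤ) ∣ w)
    (hN : ¬ (2 : ℤ) ∣ N) (h1 : T ^ 2 - 2 * N + 2 * w ^ 2 = 128 * E)
    (h2 : T ^ 2 * (T ^ 2 - 4 * N) = 16384 * G) (h3 : T ^ 2 - 4 * N = r ^ 2 * d) : d % 8 = 7 := by
  have hd4 : ¬ (4 : ℤ) ∣ d := by
    intro h
    have h4 := hd 2 (by simpa using h)
    rw [Int.isUnit_iff] at h4
    omega
  have hT : (2 : ℤ) ∣ T := by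
    apply Int.prime_two.dvd_of_dvd_pow (n := 2)
    exact ⟨64 * E + N - w ^ 2, by linear_combination h1⟩
  obtain ⟨u, rfl⟩ := hT
  have hr : (2 : ℤ) ∣ r := by
    by_contra hr
    apply hd4
    have h4 : (4 : ℤ) ∣ r ^ 2 * d := ⟨u ^ 2 - N, by linear_combination -h3⟩
    have h5 : r % 2 = 1 := by omega
    obtain ⟨m, hm⟩ : ∃ m, r = 2 * m + 1 := ⟨r / 2, by omega⟩
    obtain ⟨e, he⟩ := h4
    refine ⟨e - m ^ 2 * d - m * d, ?_⟩
    rw [hm] at he
    linear_combination he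
  obtain ⟨v, rfl⟩ := hr
  have e1 : u ^ 2 - N = v ^ 2 * d := by
    have : 4 * (u ^ 2 - N) = 4 * (v ^ 2 * d) := by linear_combination h3
    linarith
  have e2 : u ^ 2 + d * v ^ 2 + w ^ 2 = 64 * E := by
    have : 2 * (u ^ 2 + d * v ^ 2 + w ^ 2) = 2 * (64 * E) := by linear_combination h1 - 2 * e1
    linarith
  have e3 : (16 : ℤ) ∣ (u * v) ^ 2 * d := by
    have h4 : 16 * ((u * v) ^ 2 * d) = 16 * (1024 * G) := by
      linear_combination h2 - 16 * u ^ 2 * e1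
    exact ⟨64 * G, by linarith⟩
  have e4 : (4 : ℤ) ∣ u * v := by
    obtain ⟨k, hk⟩ : ∃ k, k = u * v := ⟨_, rfl⟩
    rw [← hk] at e3 ⊢
    by_contra hno
    apply hd4
    obtain ⟨e, he⟩ := e3
    rcases Int.even_or_odd' k with ⟨j, hj | hj⟩
    · rcases Int.even_or_odd' j with ⟨i, hi | hi⟩
      · exact absurd ⟨i, by rw [hj, hi]; ring⟩ hno
      · refine ⟨e - i ^ 2 * d - i * d, ?_⟩
        rw [hj, hi] at he
        have : 4 * d = 4 * (4 * (e - i ^ 2 * d - i * d)) := by linear_combination he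
        linarith
    · refine ⟨4 * e - j ^ 2 * d - j * d, ?_⟩
      rw [hj] at he
      linear_combination he
  obtain ⟨m, hm⟩ := e4
  -- modulo 8
  have key : ∀ u v d w m E : ZMod 8, (w = 1 ∨ w = 3 ∨ w = 5 ∨ w = 7) → u * v = 4 * m →
      u ^ 2 + d * v ^ 2 + w ^ 2 = 0 → d = 7 := by
    intro u v d w m _ hw h1 h2
    have h3 : w ^ 2 = 1 := by rcases hw with rfl | rfl | rfl | rfl <;> rfl
    rw [h3] at h2
    revert u v d m
    decide
  have hw8 : (w : ZMod 8) = 1 ∨ (w : ZMod 8) = 3 ∨ (w : ZMod 8) = 5 ∨ (w : ZMod 8) = 7 := by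
    have h4 : w % 8 = 1 ∨ w % 8 = 3 ∨ w % 8 = 5 ∨ w % 8 = 7 := by omega
    have h5 : ∀ c : ℤ, w % 8 = c → (w : ZMod 8) = (c : ZMod 8) := by
      intro c hc
      rw [← hc]
      exact ((ZMod.intCast_mod w 8).symm : _)
    rcases h4 with h | h | h | h
    · left; exact_mod_cast h5 1 h
    · right; left; exact_mod_cast h5 3 h
    · right; right; left; exact_mod_cast h5 5 h
    · right; right; right; exact_mod_cast h5 7 h
  have h6 := key u v d w m E hw8 (by exact_mod_cast congrArg (Int.cast : ℤ → ZMod 8) hm) (by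
    have h7 := congrArg (Int.cast : ℤ → ZMod 8) e2
    push_cast at h7
    rw [h7]
    have : (64 : ZMod 8) = 0 := rfl
    rw [this, zero_mul])
  have h7 : ((d : ℤ) : ZMod 8) = ((7 : ℤ) : ZMod 8) := by rw [h6]; rfl
  rw [ZMod.intCast_eq_intCast_iff] at h7
  have h8 : d % 8 = 7 % 8 := h7
  omega

/-- `-1` is not a square at a ramified prime above `2` unless `d ≡ 7 mod 8` -/
theorem ram (hK : Module.finrank ℚ K = 2) {τ : 𝓞 K ≃+* 𝓞 K} (hτ : IsConj K τ) {d : ℤ}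
    (hd : Squarefree d) {s : K} (hs : s ^ 2 = (d : K)) (hirr : ∀ r : ℚ, s ≠ (r : K))
    {Q : Ideal (𝓞 K)} (hQ : Q.IsPrime) (h2' : (2 : 𝓞 K) ∈ Q ^ 2) {X Y : 𝓞 K} (hX : X ∉ Q)
    (hY : Y ∉ Q) (h : X ^ 2 + Y ^ 2 ∈ Q ^ 14) : d % 8 = 7 := by
  have hQ2 := ram_eq hK hQ h2'
  have hstab : ∀ t, τ t ∈ Q → t ∈ Q := by
    intro t ht
    apply hQ.mem_of_pow_mem 2
    have h1 : (τ t) ^ 2 ∈ Q ^ 2 := Ideal.pow_mem_pow ht 2
    rw [hQ2, Ideal.mem_span_singleton] at h1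
    obtain ⟨e, he⟩ := h1
    have h3 := congrArg τ he
    rw [map_pow, map_mul, hτ.invol, map_ofNat] at h3
    rw [h3]
    exact Q.mul_mem_right _ (Ideal.pow_le_self two_ne_zero h2')
  have h14 : ∀ t : 𝓞 K, t ∈ Q ^ 14 → ∃ e, t = 128 * e := by
    intro t ht
    have h1 : Q ^ 14 = Ideal.span {(128 : 𝓞 K)} := by
      have h3 : Q ^ 14 = (Q ^ 2) ^ 7 := by rw [← pow_mul]
      rw [h3, hQ2, Ideal.span_singleton_pow]
      norm_num
    rw [h1, Ideal.mem_span_singleton] at ht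
    exact ht
  have h2Q : (2 : 𝓞 K) ∈ Q := Ideal.pow_le_self two_ne_zero h2'
  have im : ∀ n : ℤ, (n : 𝓞 K) ∉ Q → ¬ (2 : ℤ) ∣ n := by
    intro n hn h3
    apply hn
    obtain ⟨k, rfl⟩ := h3
    push_cast
    exact Q.mul_mem_right _ h2Q
  have inj : ∀ m n : ℤ, (m : 𝓞 K) = (n : 𝓞 K) → m = n := fun m n h => DISC_.intCast_inj h
  obtain ⟨α, hα⟩ : ∃ α, α = X * τ Y := ⟨_, rfl⟩
  have hαQ : α ∉ Q := by
    rw [hα]
    intro h3
    rcases hQ.mem_or_mem h3 with h3 | h3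
    · exact hX h3
    · exact hY (hstab _ h3)
  obtain ⟨w, hw⟩ := hτ.fix (Y * τ Y) (by rw [map_mul, hτ.invol, mul_comm])
  obtain ⟨N, hN⟩ := hτ.fix (α * τ α) (by rw [map_mul, hτ.invol, mul_comm])
  obtain ⟨T, hT⟩ := hτ.fix (α + τ α) (by rw [map_add, hτ.invol, add_comm])
  have hwo := im w (by
    rw [← hw]
    intro h3
    rcases hQ.mem_or_mem h3 with h3 | h3
    · exact hY h3
    · exact hY (hstab _ h3))
  have hNo := im N (by
    rw [← hN]
    intro h3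
    rcases hQ.mem_or_mem h3 with h3 | h3
    · exact hαQ h3
    · exact hαQ (hstab _ h3))
  obtain ⟨e, he⟩ := h14 ((τ Y) ^ 2 * (X ^ 2 + Y ^ 2)) ((Q ^ 14).mul_mem_left _ h)
  have he1 : α ^ 2 + (w : 𝓞 K) ^ 2 = 128 * e := by
    rw [← he, ← hw, hα]
    ring
  have he2 : (τ α) ^ 2 + (w : 𝓞 K) ^ 2 = 128 * τ e := by
    have h3 := congrArg τ he1
    rwa [map_add, map_pow, map_pow, map_intCast, map_mul, map_ofNat] at h3
  obtain ⟨E, hE⟩ := hτ.fix (e + τ e) (by rw [map_add, hτ.invol, add_comm])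
  obtain ⟨F, hF⟩ := hτ.fix (e * τ e) (by rw [map_mul, hτ.invol, mul_comm])
  have a1 : T ^ 2 - 2 * N + 2 * w ^ 2 = 128 * E := by
    apply inj
    push_cast
    rw [← hT, ← hN, ← hE]
    linear_combination he1 + he2
  have a2 : T ^ 2 * (T ^ 2 - 4 * N) = 16384 * (E ^ 2 - 4 * F) := by
    apply inj
    push_cast
    rw [← hT, ← hN, ← hE, ← hF]
    have h3 : (α + τ α) * (α - τ α) = 128 * (e - τ e) := by linear_combination he1 - he2
    have h4 : ((α + τ α) * (α - τ α)) ^ 2 = (128 * (e - τ e)) ^ 2 := by rw [h3]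
    linear_combination h4
  have hNF : NF K τ 1 α 1 1 T N := by
    refine p_NFI K τ hτ 1 α 1 1 T N one_ne_zero ?_ ?_ ?_ ?_
    · rw [map_one]; push_cast; ring
    · rw [map_one, ← hT]; push_cast; ring
    · rw [hN]; push_cast; ring
    · intro q hq h1 _ _
      have h3 : (q : ℤ) ≤ 1 := Int.le_of_dvd one_pos h1
      have := hq.two_le
      omega
  obtain ⟨r, hr⟩ := p_DISC K τ hτ d hd s hs hirr 1 α 1 1 T N one_ne_zero hNF
  exact arith2 (r := r) hd hwo hNo a1 a2 (by linear_combination hr)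

/-- `-1` is not a square at a prime above `p ≡ 3 mod 4` of degree one -/
theorem atp {p : ℕ} [Fact p.Prime] (hp4 : p % 4 = 3) {τ : 𝓞 K ≃+* 𝓞 K} (hτ : IsConj K τ) {d : ℤ}
    (hd : Squarefree d) {s : K} (hs : s ^ 2 = (d : K)) (hirr : ∀ r : ℚ, s ≠ (r : K))
    (hleg : legendreSym p d ≠ -1) {P : Ideal (𝓞 K)} (hP : P.IsPrime) (hpP : (p : 𝓞 K) ∈ P)
    {X Y : 𝓞 K} (hY : Y ∉ P) (h : X ^ 2 + Y ^ 2 ∈ P) : False := by
  have hp : p.Prime := Fact.out
  have hP0 : P ≠ ⊥ := by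
    intro h0
    rw [h0, Ideal.mem_bot] at hpP
    exact hp.ne_zero (by exact_mod_cast hpP)
  have hmax : P.IsMaximal := hP.isMaximal hP0
  let _ : Field (𝓞 K ⧸ P) := Ideal.Quotient.field P
  let π : 𝓞 K →+* 𝓞 K ⧸ P := Ideal.Quotient.mk P
  have hπ : ∀ a, π a = 0 ↔ a ∈ P := fun a => Ideal.Quotient.eq_zero_iff_mem
  have hchar : CharP (𝓞 K ⧸ P) p := by
    have h1 : ((p : ℕ) : 𝓞 K ⧸ P) = 0 := by
      rw [← map_natCast π]
      exact (hπ _).mpr hpP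
    exact (CharP.charP_iff_prime_eq_zero hp).mpr h1
  have hint : ∀ n : ℤ, ((n : ℤ) : 𝓞 K ⧸ P) ^ p = n := by
    intro n
    have h3 := map_intCast (frobenius (𝓞 K ⧸ P) p) n
    rwa [frobenius_def] at h3
  obtain ⟨S, hS, -⟩ := DISC_.exists_S hτ hs hirr
  -- the square root of `d` lies in the prime field
  obtain ⟨c, hc⟩ : ∃ c : ℤ, π S = (c : 𝓞 K ⧸ P) := by
    have hc : ∃ c : ℤ, (p : ℤ) ∣ d - c ^ 2 := by
      by_cases h0 : (d : ZMod p) = 0
      · exact ⟨0, by rw [← ZMod.intCast_zmod_eq_zero_iff_dvd]; push_cast; rw [h0]; ring⟩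
      · have h1 : IsSquare ((d : ℤ) : ZMod p) := by
          rcases legendreSym.eq_one_or_neg_one p h0 with h1 | h1
          · exact (legendreSym.eq_one_iff p h0).mp h1
          · exact absurd h1 hleg
        obtain ⟨a, ha⟩ := h1
        refine ⟨a.val, ?_⟩
        rw [← ZMod.intCast_zmod_eq_zero_iff_dvd]
        push_cast
        rw [ZMod.natCast_zmod_val, ha]
        ring
    obtain ⟨c, e, he⟩ := hc
    have h1 : π S ^ 2 = (c : 𝓞 K ⧸ P) ^ 2 := by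
      have h3 : (d : 𝓞 K) = (c : 𝓞 K) ^ 2 + (p : 𝓞 K) * (e : 𝓞 K) := by
        have := congrArg (Int.cast : ℤ → 𝓞 K) he
        push_cast at this
        linear_combination this
      rw [← map_pow, hS, h3, map_add, map_mul, (hπ (p : 𝓞 K)).mpr hpP, zero_mul, add_zero,
        map_pow, map_intCast]
    rcases sq_eq_sq_iff_eq_or_eq_neg.mp h1 with h3 | h3
    · exact ⟨c, h3⟩
    · exact ⟨-c, by rw [h3]; push_cast; ring⟩
  have h2p : (2 : 𝓞 K ⧸ P) ≠ 0 := by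
    intro h0
    have h1 : ((2 : ℕ) : 𝓞 K ⧸ P) = 0 := by exact_mod_cast h0
    rw [CharP.cast_eq_zero_iff (𝓞 K ⧸ P) p] at h1
    have := Nat.le_of_dvd (by norm_num) h1
    omega
  have hfr : ∀ α : 𝓞 K, π α ^ p = π α := by
    intro α
    obtain ⟨N, hN⟩ := hτ.fix (α * τ α) (by rw [map_mul, hτ.invol, mul_comm])
    obtain ⟨T, hT⟩ := hτ.fix (α + τ α) (by rw [map_add, hτ.invol, add_comm])
    have hNF : NF K τ 1 α 1 1 T N := by
      refine p_NFI K τ hτ 1 α 1 1 T N one_ne_zero ?_ ?_ ?_ ?_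
      · rw [map_one]; push_cast; ring
      · rw [map_one, ← hT]; push_cast; ring
      · rw [hN]; push_cast; ring
      · intro q hq h1 _ _
        have h3 : (q : ℤ) ≤ 1 := Int.le_of_dvd one_pos h1
        have := hq.two_le
        omega
    obtain ⟨r, hr⟩ := p_DISC K τ hτ d hd s hs hirr 1 α 1 1 T N one_ne_zero hNF
    have h1 : (α - τ α) ^ 2 = ((r : 𝓞 K) * S) ^ 2 := by
      have h3 := congrArg (Int.cast : ℤ → 𝓞 K) hr
      push_cast at h3
      rw [← hT] at h3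
      rw [mul_pow, hS]
      linear_combination h3 - 4 * hN
    have h3 : ∃ m : ℤ, (2 : 𝓞 K ⧸ P) * π α = (m : 𝓞 K ⧸ P) := by
      have h4 : (2 : 𝓞 K ⧸ P) * π α = π (α + τ α) + π (α - τ α) := by
        rw [map_add, map_sub]
        ring
      rcases sq_eq_sq_iff_eq_or_eq_neg.mp h1 with h5 | h5
      · refine ⟨T + r * c, ?_⟩
        rw [h4, hT, h5, map_mul, hc, map_intCast, map_intCast]
        push_cast
        ring
      · refine ⟨T - r * c, ?_⟩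
        rw [h4, hT, h5, map_neg, map_mul, hc, map_intCast, map_intCast]
        push_cast
        ring
    obtain ⟨m, hm⟩ := h3
    have h4 := congrArg (· ^ p) hm
    simp only [mul_pow] at h4
    rw [hint] at h4
    have h5 : (2 : 𝓞 K ⧸ P) ^ p = 2 := by
      have := hint 2
      push_cast at this
      exact this
    rw [h5, ← hm] at h4
    exact mul_left_cancel₀ h2p h4
  have hY0 : π Y ≠ 0 := fun h1 => hY ((hπ _).mp h1)
  obtain ⟨ρ, hρ⟩ : ∃ ρ, ρ = π X / π Y := ⟨_, rfl⟩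
  have e1 : ρ ^ 2 = -1 := by
    have h1 := (hπ _).mpr h
    rw [map_add, map_pow, map_pow] at h1
    rw [hρ, div_pow]
    field_simp
    linear_combination h1
  have e2 : ρ ^ p = ρ := by rw [hρ, div_pow, hfr, hfr]
  have hρ0 : ρ ≠ 0 := by
    rintro rfl
    norm_num at e1
  have e3 : ρ ^ (p - 1) = 1 := by
    apply mul_right_cancel₀ hρ0
    rw [← pow_succ, Nat.sub_add_cancel hp.one_le, one_mul, e2]
  obtain ⟨j, hj⟩ : ∃ j, p = 4 * j + 3 := ⟨p / 4, by omega⟩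
  have e4 : ρ ^ (p - 1) = -1 := by
    have h1 : p - 1 = 2 * (2 * j + 1) := by omega
    rw [h1, pow_mul, e1, pow_succ, pow_mul]
    norm_num
  rw [e3] at e4
  apply h2p
  linear_combination e4

/-- integral representatives at a prime which divides the third variable -/
theorem rep {n : ℕ} (hn : n ≠ 0) {x y z : K} (hx : x ≠ 0) (h : x ^ n + y ^ n = z ^ n)
    {q : 𝓞 K} (hq0 : q ≠ 0) (Q : HeightOneSpectrum (𝓞 K)) (hqQ : q ∈ Q.asIdeal)
    (hv : Q.valuation K z < Q.valuation K x) :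
    ∃ X Y Z : 𝓞 K, X ∉ Q.asIdeal ∧ Y ∉ Q.asIdeal ∧ Z ∈ Q.asIdeal ∧ X ^ n + Y ^ n = Z ^ n := by
  classical
  obtain ⟨b, hb⟩ := IsLocalization.exist_integer_multiples_of_finset
    (nonZeroDivisors (𝓞 K)) ({x, y, z} : Finset K)
  have hb0 : (b : 𝓞 K) ≠ 0 := nonZeroDivisors.ne_zero b.2
  obtain ⟨X, hX⟩ := hb x (by simp)
  obtain ⟨Y, hY⟩ := hb y (by simp)
  obtain ⟨Z, hZ⟩ := hb z (by simp)
  rw [Algebra.smul_def] at hX hY hZ
  have hbK : algebraMap (𝓞 K) K b ≠ 0 := by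
    rw [Ne, FaithfulSMul.algebraMap_eq_zero_iff]
    exact hb0
  have hX0 : X ≠ 0 := by
    rintro rfl
    rw [map_zero] at hX
    exact mul_ne_zero hbK hx hX.symm
  have hXYZ : X ^ n + Y ^ n = Z ^ n := by
    apply FaithfulSMul.algebraMap_injective (𝓞 K) K
    rw [map_add, map_pow, map_pow, map_pow, hX, hY, hZ, mul_pow, mul_pow, mul_pow, ← h]
    ring
  have hqu : ¬ IsUnit q := fun hu => Q.isPrime.ne_top (Ideal.eq_top_of_isUnit_mem _ hqQ hu)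
  obtain ⟨δ, c, hδ, hall, hcQ, hcop⟩ := EPK_.scale hq0 hqu (y := Y) hX0
  obtain ⟨X', hX'⟩ := hall X (Ideal.subset_span (by simp))
  obtain ⟨Y', hY'⟩ := hall Y (Ideal.subset_span (by simp))
  obtain ⟨Z', hZ'⟩ := hall Z (EPK_.mem_of_pow hn (by
    rw [← hXYZ]
    exact Ideal.add_mem _ (Ideal.pow_mem_pow (Ideal.subset_span (by simp)) _)
      (Ideal.pow_mem_pow (Ideal.subset_span (by simp)) _)))
  have h' : X' ^ n + Y' ^ n = Z' ^ n := by
    apply mul_left_cancel₀ (pow_ne_zero n hδ)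
    rw [mul_add, ← mul_pow, ← mul_pow, ← mul_pow, ← hX', ← hY', ← hZ', mul_pow, mul_pow,
      mul_pow, ← hXYZ]
    ring
  have hcop' := hcop X' Y' hX' hY' Q.asIdeal Q.isPrime hqQ
  have vc : Q.valuation K (algebraMap (𝓞 K) K c) = 1 := by
    rw [HeightOneSpectrum.valuation_eq_one_iff_notMem]
    exact hcQ Q.asIdeal Q.isPrime hqQ
  have vδ : Q.valuation K (algebraMap (𝓞 K) K δ) ≠ 0 := by
    rw [Valuation.ne_zero_iff, Ne, FaithfulSMul.algebraMap_eq_zero_iff]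
    exact hδ
  have vb : Q.valuation K (algebraMap (𝓞 K) K b) ≠ 0 := by
    rw [Valuation.ne_zero_iff]
    exact hbK
  have tr : ∀ (w : K) (W W' : 𝓞 K), algebraMap (𝓞 K) K W = algebraMap (𝓞 K) K b * w →
      c * W = δ * W' → Q.valuation K (algebraMap (𝓞 K) K b) * Q.valuation K w =
        Q.valuation K (algebraMap (𝓞 K) K δ) * Q.valuation K (algebraMap (𝓞 K) K W') := by
    intro w W W' h1 h2
    rw [← map_mul, ← h1, ← map_mul, ← map_mul, ← h2, map_mul, map_mul, vc, one_mul]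
  have t1 := tr x X X' hX hX'
  have t3 := tr z Z Z' hZ hZ'
  have hlt : Q.valuation K (algebraMap (𝓞 K) K Z') < Q.valuation K (algebraMap (𝓞 K) K X') := by
    have h1 : Q.valuation K (algebraMap (𝓞 K) K δ) * Q.valuation K (algebraMap (𝓞 K) K Z') <
        Q.valuation K (algebraMap (𝓞 K) K δ) * Q.valuation K (algebraMap (𝓞 K) K X') := by
      rw [← t1, ← t3]
      exact (mul_lt_mul_iff_of_pos_left (zero_lt_iff.mpr vb)).mpr hv
    exact (mul_lt_mul_iff_of_pos_left (zero_lt_iff.mpr vδ)).mp h1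
  have hZQ : Z' ∈ Q.asIdeal := (HeightOneSpectrum.valuation_lt_one_iff_mem Q _).mp
    (hlt.trans_le (HeightOneSpectrum.valuation_le_one Q _))
  have hpos : 0 < n := Nat.pos_of_ne_zero hn
  have hXQ : X' ∉ Q.asIdeal := by
    intro h1
    refine hcop' h1 ?_
    apply Q.isPrime.mem_of_pow_mem n
    have e : Y' ^ n = Z' ^ n - X' ^ n := by linear_combination h'
    rw [e]
    exact Q.asIdeal.sub_mem (Q.asIdeal.pow_mem_of_mem hZQ n hpos)
      (Q.asIdeal.pow_mem_of_mem h1 n hpos)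
  have hYQ : Y' ∉ Q.asIdeal := by
    intro h1
    apply hXQ
    apply Q.isPrime.mem_of_pow_mem n
    have e : X' ^ n = Z' ^ n - Y' ^ n := by linear_combination h'
    rw [e]
    exact Q.asIdeal.sub_mem (Q.asIdeal.pow_mem_of_mem hZQ n hpos)
      (Q.asIdeal.pow_mem_of_mem h1 n hpos)
  exact ⟨X', Y', Z', hXQ, hYQ, hZQ, h'⟩

end TERJ_

open TERJ_ in
/-- Terjanian's theorem over quadratic fields. -/
theorem final_T (K : Type) [Field K] [NumberField K] (hK : Module.finrank ℚ K = 2) (d : ℤ)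
    (hd : Squarefree d) (hd1 : d ≠ 1) (s : K) (hs : s ^ 2 = (d : K)) (p : ℕ) [Fact p.Prime]
    (h7 : 7 ≤ p) (hW : ¬ p ^ 2 ∣ 2 ^ (p - 1) - 1) (n : ℕ) (hn : 2 * p ∣ n)
    (x y z : K) (hxyz : x * y * z ≠ 0) (h : x ^ n + y ^ n = z ^ n) :
    (∀ Q : HeightOneSpectrum (𝓞 K), ((2 * p : ℕ) : 𝓞 K) ∈ Q.asIdeal →
      ¬ (Q.valuation K x = Q.valuation K y ∧ Q.valuation K y = Q.valuation K z)) ∧
    ((d % 8 ≠ 7 ∨ (p % 4 = 3 ∧ legendreSym p d ≠ -1)) →
      ∀ Q : HeightOneSpectrum (𝓞 K), ((2 * p : ℕ) : 𝓞 K) ∈ Q.asIdeal →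
        Q.valuation K x ≠ Q.valuation K y) := by
  have hp : p.Prime := Fact.out
  obtain ⟨P, hPp, hpP⟩ : ∃ P : Ideal (𝓞 K), P.IsPrime ∧ (p : 𝓞 K) ∈ P := by
    have h1 : ¬ IsUnit ((p : ℕ) : 𝓞 K) := by
      intro hu
      have h1 : IsUnit (Algebra.norm ℤ ((p : ℕ) : 𝓞 K)) := hu.map (Algebra.norm ℤ)
      have h2 : ((p : ℕ) : 𝓞 K) = algebraMap ℤ (𝓞 K) (p : ℤ) := by simp
      rw [h2, Algebra.norm_algebraMap, RingOfIntegers.rank, hK] at h1
      have h3 : IsUnit (p : ℤ) := (isUnit_pow_iff two_ne_zero).mp h1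
      rw [Int.isUnit_iff] at h3
      omega
    obtain ⟨l, hl, hrl⟩ := exists_max_ideal_of_mem_nonunits h1
    exact ⟨l, hl.isPrime, hrl⟩
  have hpO : (p : 𝓞 K) ≠ 0 := by exact_mod_cast hp.ne_zero
  have h2O : (2 : 𝓞 K) ≠ 0 := two_ne_zero
  obtain ⟨P', hP'⟩ : ∃ P' : HeightOneSpectrum (𝓞 K), P'.asIdeal = P := by
    refine ⟨⟨P, hPp, ?_⟩, rfl⟩
    rintro rfl
    exact hpO hpP
  have hpP' : (p : 𝓞 K) ∈ P'.asIdeal := by rw [hP']; exact hpP
  have h2pm : ∀ Q : HeightOneSpectrum (𝓞 K), (p : 𝓞 K) ∈ Q.asIdeal →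
      ((2 * p : ℕ) : 𝓞 K) ∈ Q.asIdeal := by
    intro Q hQ
    push_cast
    exact Q.asIdeal.mul_mem_left _ hQ
  have hE := final_E K hK p hp h7 hW n hn x y z hxyz h P' hpP'
  have hpn : p ∣ n := (Dvd.intro_left 2 rfl).trans hn
  obtain ⟨F1, -, -, F4⟩ := final_FN all_FNP K hK p hp (by omega) hW n hpn x y z hxyz h 2
    Nat.prime_two (by omega) hW (Or.inl ⟨rfl, P', h2pm P' hpP', hE⟩)
  refine ⟨F1, fun hdp Q hQ hxy => ?_⟩
  have hn0 : n ≠ 0 := by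
    rintro rfl
    rw [pow_zero, pow_zero, pow_zero] at h
    have h3 : (1 : K) = 0 := by linear_combination h
    exact one_ne_zero h3
  have hz : z ≠ 0 := right_ne_zero_of_mul hxyz
  have hx : x ≠ 0 := left_ne_zero_of_mul (left_ne_zero_of_mul hxyz)
  -- the third variable is divisible by `Q`
  have hzx : Q.valuation K z < Q.valuation K x := by
    have h1 := F1 Q hQ
    have h2 : Q.valuation K z ≤ Q.valuation K x := by
      have h3 : Q.valuation K z ^ n ≤ Q.valuation K x ^ n := by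
        rw [← map_pow, ← h]
        refine (Valuation.map_add _ _ _).trans ?_
        rw [map_pow, map_pow, hxy, max_self]
      exact (pow_le_pow_iff_left₀ zero_le zero_le hn0).mp h3
    refine lt_of_le_of_ne h2 fun h3 => h1 ⟨hxy, ?_⟩
    rw [h3, hxy]
  have hQ' : (2 : 𝓞 K) ∈ Q.asIdeal ∨ (p : 𝓞 K) ∈ Q.asIdeal := by
    apply Q.isPrime.mem_or_mem
    have h3 : ((2 * p : ℕ) : 𝓞 K) = 2 * (p : 𝓞 K) := by push_cast; ring
    rwa [← h3]
  have both : (∃ R : HeightOneSpectrum (𝓞 K), ((2 : ℕ) : 𝓞 K) ∈ R.asIdeal ∧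
      R.valuation K z < R.valuation K x) ∧
      ∃ P : HeightOneSpectrum (𝓞 K), (p : 𝓞 K) ∈ P.asIdeal ∧
        P.valuation K z < P.valuation K x := by
    rcases hQ' with h1 | h1
    · have h2 : ∃ R : HeightOneSpectrum (𝓞 K), ((2 : ℕ) : 𝓞 K) ∈ R.asIdeal ∧
        R.valuation K z < R.valuation K x := ⟨Q, by exact_mod_cast h1, hzx⟩
      exact ⟨h2, F4.mp h2⟩
    · exact ⟨F4.mpr ⟨Q, h1, hzx⟩, ⟨Q, h1, hzx⟩⟩
  obtain ⟨⟨R, hR, hRz⟩, ⟨P₁, hP₁, hPz⟩⟩ := both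
  have hirr : ∀ r : ℚ, s ≠ (r : K) := by
    intro r hr
    apply hd1
    rw [hr] at hs
    have h1 : (r ^ 2 : ℚ) = (d : ℚ) := by exact_mod_cast hs
    have h2 : ∃ n : ℤ, r = n := by
      have h3 : IsIntegral ℤ r := by
        refine ⟨Polynomial.X ^ 2 - Polynomial.C d, Polynomial.monic_X_pow_sub_C d two_ne_zero, ?_⟩
        rw [Polynomial.eval₂_sub, Polynomial.eval₂_pow, Polynomial.eval₂_X,
          Polynomial.eval₂_C, h1]
        simp
      obtain ⟨n, hn⟩ := IsIntegrallyClosed.isIntegral_iff.mp h3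
      exact ⟨n, by rw [← hn]; simp⟩
    obtain ⟨n, rfl⟩ := h2
    have h3 : n ^ 2 = d := by exact_mod_cast h1
    have h4 : IsUnit n := hd n ⟨1, by rw [← h3]; ring⟩
    rcases Int.isUnit_iff.mp h4 with h5 | h5 <;> rw [← h3, h5] <;> norm_num
  obtain ⟨τ, hτ⟩ := p_CONJ K hK
  obtain ⟨m, hm⟩ : ∃ m, n = 2 * m := by
    obtain ⟨k, hk⟩ := hn
    exact ⟨p * k, by rw [hk]; ring⟩
  have hn14 : 14 ≤ n := by
    have := Nat.le_of_dvd (Nat.pos_of_ne_zero hn0) hn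
    omega
  have sq : ∀ X Y Z : 𝓞 K, X ^ n + Y ^ n = Z ^ n → (X ^ m) ^ 2 + (Y ^ m) ^ 2 = Z ^ n := by
    intro X Y Z h1
    rw [← h1, hm, ← pow_mul, ← pow_mul, mul_comm m 2]
  rcases hdp with hd8 | ⟨hp4, hleg⟩
  · obtain ⟨X, Y, Z, hX, hY, hZ, hXYZ⟩ := rep hn0 hx h (q := ((2 : ℕ) : 𝓞 K))
      (by exact_mod_cast h2O) R hR hRz
    have h2R : (2 : 𝓞 K) ∈ R.asIdeal := by exact_mod_cast hR
    have h14 : (X ^ m) ^ 2 + (Y ^ m) ^ 2 ∈ R.asIdeal ^ 14 := by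
      rw [sq X Y Z hXYZ]
      exact Ideal.pow_le_pow_right hn14 (Ideal.pow_mem_pow hZ n)
    have hXm : X ^ m ∉ R.asIdeal := fun h1 => hX (R.isPrime.mem_of_pow_mem _ h1)
    have hYm : Y ^ m ∉ R.asIdeal := fun h1 => hY (R.isPrime.mem_of_pow_mem _ h1)
    by_cases h2' : (2 : 𝓞 K) ∈ R.asIdeal ^ 2
    · exact hd8 (ram hK hτ hd hs hirr R.isPrime h2' hXm hYm h14)
    · exact unram R.isPrime R.isMaximal h2R h2' hYm
        (Ideal.pow_le_pow_right (by norm_num) h14)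
  · obtain ⟨X, Y, Z, hX, hY, hZ, hXYZ⟩ := rep hn0 hx h hpO P₁ hP₁ hPz
    have hYm : Y ^ m ∉ P₁.asIdeal := fun h1 => hY (P₁.isPrime.mem_of_pow_mem _ h1)
    refine atp hp4 hτ hd hs hirr hleg P₁.isPrime hP₁ hYm (X := X ^ m) ?_
    rw [sq X Y Z hXYZ]
    exact P₁.asIdeal.pow_mem_of_mem hZ n (Nat.pos_of_ne_zero hn0)

end Pool.Agent.FCN
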