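import Pool.Agent.FCW.Targets

/-!
# Furtwängler's theorem over quadratic fields: targets

Notation of `Pool.Agent.FCW`.  Every target is a statement `T_X : Prop`, proved as
`theorem p_X : T_X` in the file `Pool/Agent/FCN/X.lean`.
-/

open NumberField

namespace Pool.Agent.FCN

open Pool.Agent.FCW

/-- The key equation with a number `n` which is prime to `r`. -/
def T_KEYR : Prop := ∀ (p : ℕ) [Fact p.Prime], 5 ≤ p → ∀ (β : Oc p) (b : Ideal (Oc p)), β ≠ 0 →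
  Ideal.span {β} = b ^ p → PM p b → ∀ r : ℕ, r.Prime →
  (∀ l : Ideal (Oc p), l.IsPrime → (r : Oc p) ∈ l → β ∉ l) →
  ∃ (γ : Oc p) (n i : ℕ) (e : ℤ), KeyEq p β γ n i e ∧ ¬ r ∣ n

/-- Comparison modulo a prime over `r`. -/
def T_TWOR : Prop := ∀ (p : ℕ) [Fact p.Prime], 5 ≤ p → ∀ r : ℕ, r.Prime → r ≠ p →
  ∀ (β : Oc p) (M : ℕ) (s : ℤ), (s = 1 ∨ s = -1) →
  (r : Oc p) ∣ β - (s : Oc p) * zt p ^ M * cc p β →
  (∀ l : Ideal (Oc p), l.IsPrime → (r : Oc p) ∈ l → β ∉ l) →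
  ∀ (γ : Oc p) (n i : ℕ) (e : ℤ), KeyEq p β γ n i e → ¬ r ∣ n →
  ((i : ℕ) : ZMod p) = (M : ZMod p) * Hs p ∨ p ^ 2 ∣ r ^ (p - 1) - 1

/-- Comparison modulo `(ζ - 1)²`. -/
def T_PADG : Prop := ∀ (p : ℕ) [Fact p.Prime], 5 ≤ p → ∀ (β : Oc p) (N c : ℤ),
  ¬ (p : ℤ) ∣ N → (zt p - 1) ^ 2 ∣ β - ((N : Oc p) + c * (zt p - 1)) →
  ∀ (γ : Oc p) (n i : ℕ) (e : ℤ), KeyEq p β γ n i e →
  ((i : ℕ) : ZMod p) * (N : ZMod p) = 2 * (c : ZMod p) * Hs p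

/-- Prime factors of `A + T ζ + B ζ²` over primes `q ≠ p`. -/
def T_PRMX : Prop := ∀ (p : ℕ) [Fact p.Prime] (A T B : ℤ), Prim A T B →
  ∀ l : Ideal (Oc p), l.IsPrime → Fz p A T B ∈ l → ∀ q : ℕ, q.Prime → q ≠ p → (q : Oc p) ∈ l →
  (q : ZMod p) = 1 ∨ (q : ZMod p) = -1

/-- `A + T ζ + B ζ²` divided by `1 - ζ` generates the `p`-th power of an ideal, if it is
divisible by `1 - ζ` exactly once. -/
def T_POWX : Prop := ∀ (K : Type) [Field K] [NumberField K], Module.finrank ℚ K = 2 →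
  ∀ (τ : 𝓞 K ≃+* 𝓞 K), IsConj K τ → ∀ (p : ℕ) [Fact p.Prime], 5 ≤ p →
  ∀ x y z : 𝓞 K, x ≠ 0 → y ≠ 0 → x ^ p + y ^ p + z ^ p = 0 →
  ∀ g A T B : ℤ, g ≠ 0 → NF K τ x y g A T B → (p : ℤ) ∣ A + T + B → ¬ (p : ℤ) ∣ T + 2 * B →
  ∃ (β₁ : Oc p) (b : Ideal (Oc p)), (1 - zt p) * β₁ = Fz p A T B ∧ Ideal.span {β₁} = b ^ p

end Pool.Agent.FCN
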